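import Pool.Agent.H93.CM.Defs

/-!
# Module Ball: zeros which see an orthogonal pair; zeros of a classical solution

* `exists_pair`: `Z = {g = 0}` is closed and nonempty, `g a > 0`. Let `v ∈ Z` minimise the Euclidean distance `len (v - a)`
  (`IsClosed.exists_infDist_eq_dist` is for the sup norm; use that `len` is continuous and `{u ∈ Z : len (u-a) ≤ r₀}` is compact,
  `norm_le_len`). `r = len (v-a) > 0`; every `u` with `len (u-a) < r` has `g u > 0`. `e = (a-v)/r` is a unit vector, take a unit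
  vector `n ⊥ e` (`exists_perp` in H82/CM/Shell.lean). `p = (r/4)(e+n)`, `q = (r/2)(e-n)`: `p·q = 0`, `|p|² = r²/8 < |q|² = r²/2`,
  `|v+p-a|² = |p - r e|² = r²/8 - r²/2 + r² = 5r²/8 < r²`, `|v+q-a|² = r²/2 - r² + r² = r²/2 < r²`.
* `zero_transport`: at a zero `(t,x,v)`, `t ∈ (0,T)`, the function `unc f` has a local minimum (it is `≥ 0` on `(0,T) × ..`, an open
  set) and is differentiable (`isC2`), so `fderiv = 0` (`IsLocalMin.fderiv_eq_zero`), `transport f t x v = 0` and `Q t x v = 0` by
  `solves`. (Alternative: `hasDerivAt_char`.)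
* `dichotomy`: combine: if `f t x a > 0` and `f t x v' = 0` for some `a, v'`, then `exists_pair` and `boltz_pos` contradict
  `zero_transport`.
-/

set_option autoImplicit false

open MeasureTheory Set Filter Topology Pool.Agent.H25.Kin Pool.Agent.H82.BK

namespace Pool.Agent.H93.CM

variable {d : ℕ}

/-- scalar product of combinations of two orthonormal vectors -/
private lemma Ball_dot {e n : Vec d} (he : nsq e = 1) (hn : nsq n = 1) (hen : dot e n = 0)
    (α β α' β' : ℝ) : dot (α • e + β • n) (α' • e + β' • n) = α * α' + β * β' := by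
  have h1 : dot (α • e + β • n) (α' • e + β' • n) =
      (α * α') * nsq e + (α * β' + β * α') * dot e n + (β * β') * nsq n := by
    unfold dot nsq
    rw [Finset.mul_sum, Finset.mul_sum, Finset.mul_sum, ← Finset.sum_add_distrib,
      ← Finset.sum_add_distrib]
    refine Finset.sum_congr rfl fun i _ => ?_
    simp only [Pi.add_apply, Pi.smul_apply, smul_eq_mul]
    ring
  rw [h1, he, hn, hen]
  ring

private lemma Ball_nsq {e n : Vec d} (he : nsq e = 1) (hn : nsq n = 1) (hen : dot e n = 0)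
    (α β : ℝ) : nsq (α • e + β • n) = α ^ 2 + β ^ 2 := by
  have h1 := Ball_dot he hn hen α β α β
  have h2 : dot (α • e + β • n) (α • e + β • n) = nsq (α • e + β • n) := by
    unfold dot nsq
    exact Finset.sum_congr rfl fun i _ => by ring
  rw [← h2, h1]
  ring

/-- a closest zero, for the Euclidean distance -/
private lemma Ball_min {g : Vec d → ℝ} (hc : Continuous g) (a : Vec d) {v' : Vec d}
    (hv' : g v' = 0) : ∃ v, g v = 0 ∧ ∀ u, g u = 0 → nsq (v - a) ≤ nsq (u - a) := by
  have hφ : Continuous fun u : Vec d => nsq (u - a) :=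
    continuous_sq.comp (continuous_id.sub continuous_const)
  have hcl : IsClosed {u : Vec d | g u = 0} := isClosed_eq hc continuous_const
  have hK : IsCompact (Metric.closedBall a (Real.sqrt (nsq (v' - a))) ∩ {u : Vec d | g u = 0}) :=
    (isCompact_closedBall a _).inter_right hcl
  have hb : ∀ u : Vec d, nsq (u - a) ≤ nsq (v' - a) →
      u ∈ Metric.closedBall a (Real.sqrt (nsq (v' - a))) := by
    intro u hu
    rw [mem_closedBall_iff_norm]
    exact Real.le_sqrt_of_sq_le ((norm_sq_le_sq _).trans hu)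
  obtain ⟨v, hv, hm⟩ := hK.exists_isMinOn ⟨v', hb v' le_rfl, hv'⟩ hφ.continuousOn
  refine ⟨v, hv.2, fun u hu => ?_⟩
  rcases le_total (nsq (u - a)) (nsq (v' - a)) with h | h
  · exact hm ⟨hb u h, hu⟩
  · exact le_trans (hm ⟨hb v' le_rfl, hv'⟩) h

theorem exists_pair (hd : 2 ≤ d) {g : Vec d → ℝ} (hc : Continuous g) (hg0 : ∀ u, 0 ≤ g u)
    {a v' : Vec d} (ha : 0 < g a) (hv' : g v' = 0) :
    ∃ v p q : Vec d, g v = 0 ∧ dot p q = 0 ∧ 0 < nsq p ∧ nsq p < nsq q ∧
      0 < g (v + p) ∧ 0 < g (v + q) := by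
  obtain ⟨v, hv, hm⟩ := Ball_min hc a hv'
  have hpos : ∀ u : Vec d, nsq (u - a) < nsq (v - a) → 0 < g u := by
    intro u hu
    rcases (hg0 u).lt_or_eq with h | h
    · exact h
    · exact absurd (hm u h.symm) (not_le.2 hu)
  have hne : a ≠ v := by
    intro h
    rw [h, hv] at ha
    exact lt_irrefl _ ha
  have hr : 0 < len (a - v) := len_pos (sub_ne_zero.2 hne)
  have he : nsq (dirk a v) = 1 := nsq_dirk hne
  obtain ⟨n, hn, hen⟩ := Pool.Agent.H82.CM.exists_perp hd he
  have hre : len (a - v) • dirk a v = a - v := len_smul_dirk a v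
  set r := len (a - v) with hrdef
  set e := dirk a v with hedef
  have hva : v - a = (-r) • e + (0 : ℝ) • n := by
    rw [zero_smul, add_zero, neg_smul, hre, neg_sub]
  have h1 : nsq (v - a) = r ^ 2 := by
    rw [hva, Ball_nsq he hn hen]
    ring
  refine ⟨v, (r / 4) • e + (r / 4) • n, (r / 2) • e + (-(r / 2)) • n, hv, ?_, ?_, ?_, ?_, ?_⟩
  · rw [Ball_dot he hn hen]
    ring
  · rw [Ball_nsq he hn hen]
    positivity
  · rw [Ball_nsq he hn hen, Ball_nsq he hn hen]
    nlinarith [sq_pos_of_pos hr]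
  · refine hpos _ ?_
    have h2 : v + ((r / 4) • e + (r / 4) • n) - a = (-(3 * r / 4)) • e + (r / 4) • n := by
      have h3 : v + ((r / 4) • e + (r / 4) • n) - a = (v - a) + ((r / 4) • e + (r / 4) • n) := by
        abel
      rw [h3, hva]
      module
    rw [h2, h1, Ball_nsq he hn hen]
    nlinarith [sq_pos_of_pos hr]
  · refine hpos _ ?_
    have h2 : v + ((r / 2) • e + (-(r / 2)) • n) - a = (-(r / 2)) • e + (-(r / 2)) • n := by
      have h3 : v + ((r / 2) • e + (-(r / 2)) • n) - a =
          (v - a) + ((r / 2) • e + (-(r / 2)) • n) := by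
        abel
      rw [h3, hva]
      module
    rw [h2, h1, Ball_nsq he hn hen]
    nlinarith [sq_pos_of_pos hr]

theorem zero_transport {T : ℝ} {Q f : ℝ → Vec d → Vec d → ℝ} (hf : IsClassicalSol T Q f) {t : ℝ}
    (ht : t ∈ Ioo 0 T) {x v : Vec d} (h : f t x v = 0) : Q t x v = 0 := by
  rw [← hf.solves t ht x v]
  have hloc : IsLocalMin (unc f) (t, x, v) := by
    have h1 : ∀ᶠ p : ℝ × Vec d × Vec d in 𝓝 (t, x, v), p.1 ∈ Ioo 0 T :=
      continuous_fst.continuousAt.eventually (isOpen_Ioo.mem_nhds ht)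
    filter_upwards [h1] with p hp
    have h2 : unc f (t, x, v) = 0 := h
    rw [h2]
    exact hf.nonneg p.1 ⟨hp.1.le, hp.2⟩ p.2.1 p.2.2
  unfold transport
  rw [hloc.fderiv_eq_zero]
  rfl

end Pool.Agent.H93.CM
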