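import Pool.Agent.H93.CM.CutGe
import Pool.Agent.H82.CL.LowQ

/-!
# Module Low: the operator at a point touching a parabola from above

`q(u) = c (κ - |u|²) ≤ g(u)`, equality at `v`, `|v|² ≤ 1`, `κ ≤ 1`, `c ≥ 0`; so `0 ≤ g(v) ≤ c`.
From `low_Q` (H82/CL/LowQ.lean): the second difference of `g` at `v` is at least the one of the parabola.
-/

set_option autoImplicit false

open MeasureTheory Set Filter Topology Pool.Agent.H25.Kin Pool.Agent.H82.BK
open scoped ENNReal

namespace Pool.Agent.H93.CM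

variable {d : ℕ}

private lemma low_int {γ s : ℝ} (h0 : 0 ≤ γ + 2 * s) (h2 : γ + 2 * s ≤ 2) {g : Vec d → ℝ}
    (hg : Nice g) (hg0 : ∀ u, 0 ≤ g u) {v : Vec d} (hv : nsq v ≤ 1) :
    ∫ z, g z * len (v - z) ^ (γ + 2 * s) ≤ 3 * ∫ z, g z * (1 + nsq z) := by
  have hI : Integrable fun z : Vec d => g z * (1 + nsq z) :=
    (hg.rd.mul_PG ((PG.const (1 : ℝ)).add PG.nsq)).integrable
      (hg.cont.measurable.mul (measurable_const.add continuous_sq.measurable)).aestronglyMeasurable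
  rw [← integral_const_mul]
  refine integral_mono_of_nonneg (Eventually.of_forall fun z =>
    mul_nonneg (hg0 z) (Real.rpow_nonneg (len_nonneg _) _)) (hI.const_mul 3)
    (Eventually.of_forall fun z => ?_)
  have h3 : len (v - z) ^ (γ + 2 * s) ≤ 3 * (1 + nsq z) := by
    have e1 := nsq_par v z
    have e2 := sq_nonneg' (v + z)
    have e3 := sq_nonneg' z
    have e4 := sq_nonneg' v
    have e5 : nsq (v - z) ≤ 2 * nsq v + 2 * nsq z := by linarith
    rcases le_or_gt (len (v - z)) 1 with h | h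
    · have := Real.rpow_le_one (len_nonneg (v - z)) h h0
      linarith
    · have h8 : len (v - z) ^ (γ + 2 * s) ≤ len (v - z) ^ (2 : ℝ) :=
        Real.rpow_le_rpow_of_exponent_le h.le h2
      have h9 : len (v - z) ^ (2 : ℝ) = nsq (v - z) := by
        rw [← len_sq]
        exact Real.rpow_natCast _ 2
      linarith
  calc g z * len (v - z) ^ (γ + 2 * s) ≤ g z * (3 * (1 + nsq z)) :=
        mul_le_mul_of_nonneg_left h3 (hg0 z)
    _ = 3 * (g z * (1 + nsq z)) := by ring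

theorem low_bound {γ s : ℝ} {b : ℝ → ℝ} {C Ca : ℝ} (H : Hyp d γ s b C Ca) :
    ∃ K : ℝ, 0 ≤ K ∧ ∀ g : Vec d → ℝ, Nice g → (∀ u, 0 ≤ g u) → ∀ c κ : ℝ, 0 ≤ c → κ ≤ 1 →
      ∀ v : Vec d, nsq v ≤ 1 → (∀ u, c * (κ - nsq u) ≤ g u) → g v = c * (κ - nsq v) →
      -(K * c * ∫ z, g z * (1 + nsq z)) ≤ boltzQ γ b g v := by
  obtain ⟨K, hK, hlow⟩ := Pool.Agent.H82.CL.low_Q H
  refine ⟨3 * K, by positivity, fun g hg hg0 c κ hc hκ v hv hq hgv => ?_⟩
  have hnv := sq_nonneg' v
  have h1 : g v ≤ c := by rw [hgv]; nlinarith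
  have h2 : ∀ h, 2 * g v - 2 * c * nsq h ≤ g (v + h) + g (v - h) := by
    intro h
    have a1 := hq (v + h)
    have a2 := hq (v - h)
    have a3 := nsq_par v h
    rw [hgv]
    nlinarith
  have h3 := hlow g hg hg0 v c hc h1 h2
  refine le_trans ?_ h3
  have h4 := low_int H.h0 H.h2 hg hg0 hv
  have h5 := mul_le_mul_of_nonneg_left h4 (mul_nonneg hK hc)
  linarith

end Pool.Agent.H93.CM
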