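import Pool.Agent.H93.CM.SignL

/-!
# Module LowL: the Landau operator at a point touching a parabola from above

`q(u) = c(κ-|u|²) ≤ g(u)`, equality at `v`, `|v|² ≤ 1`. `H(t) = g(v+tw) - q(v+tw) ≥ 0 = H(0)`, so with `M_ij = ∂_i∂_j g(v)`:
`∑ w_i w_j M_ij ≥ -2c|w|²` (second derivative test as in `hess_touch`, H82/LK/Hess.lean, copy the private lemmas).
`landauQ_eq` (H82/LK/Split.lean): `landauQ = ∑_ij (a_ij * g)(v) M_ij - g(v) ∑_ij (a_ij * ∂_i∂_j g)(v)`.
The second sum is `≤ 0` (`zero_order_nonpos` for `φ(z) = g(v-z)`, `nice_refl`, `pd_pd_refl` as in `landau_op`), `g(v) ≥ 0`: the second term is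
`≥ 0`. First sum: `landauA_quad` (H82/LK/Alg.lean) for `-M` with the constant `2c`:
`∑_ij a_ij(z)(-M_ij) ≤ 2 d c |z|² |z|^γ ≤ 2 d c (1+|z|²)`, so the first sum is `≥ -2dc ∫ g(v-z)(1+|z|²)dz ≥ -2dc · 2(1+|v|²) ∫ g(w)(1+|w|²)dw ≥
-8dc ∫ g(w)(1+|w|²)dw` (`one_add_sq_sub_le`). `K = 8d`.
-/

set_option autoImplicit false

open MeasureTheory Set Filter Topology Pool.Agent.H25.Kin Pool.Agent.H82.LK

namespace Pool.Agent.H93.CM

variable {d : ℕ}

private lemma lowL_dir_eq (g : Vec d → ℝ) (u w : Vec d) :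
    fderiv ℝ g u w = ∑ i, w i * pd i g u := by
  have h : w = ∑ i, w i • (Pi.single i (1 : ℝ) : Vec d) := by
    funext j
    simp [Finset.sum_apply, Pi.single_apply]
  conv_lhs => rw [h]
  rw [map_sum]
  exact Finset.sum_congr rfl fun i _ => by rw [map_smul, smul_eq_mul, pd]

private lemma lowL_line_deriv {f : Vec d → ℝ} {v w : Vec d} {t : ℝ}
    (hf : DifferentiableAt ℝ f (v + t • w)) :
    HasDerivAt (fun t : ℝ => f (v + t • w)) (∑ i, w i * pd i f (v + t • w)) t := by
  have hl : HasDerivAt (fun t : ℝ => v + t • w) w t := by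
    simpa using ((hasDerivAt_id t).smul_const w).const_add v
  have h := hf.hasFDerivAt.comp_hasDerivAt t hl
  rw [lowL_dir_eq] at h
  exact h

private lemma lowL_second_test {H H' : ℝ → ℝ} {H2 : ℝ} (h1 : ∀ t, HasDerivAt H (H' t) t)
    (h2 : HasDerivAt H' H2 0) (hmax : ∀ t, H t ≤ H 0) : H2 ≤ 0 := by
  have hlm : IsLocalMax H 0 := Eventually.of_forall hmax
  have h0 : H' 0 = 0 := hlm.hasDerivAt_eq_zero (h1 0)
  by_contra hneg
  rw [not_le] at hneg
  have hd : deriv H = H' := funext fun t => (h1 t).deriv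
  have hmin : IsLocalMin H 0 := by
    apply isLocalMin_of_deriv_deriv_pos
    · rw [hd, h2.deriv]; exact hneg
    · rw [hd]; exact h0
    · exact (h1 0).continuousAt
  have hconst : H =ᶠ[𝓝 0] fun _ => H 0 := by
    filter_upwards [hmin] with t ht
    exact le_antisymm (hmax t) ht
  have hd0 : H' =ᶠ[𝓝 0] fun _ => (0 : ℝ) := by
    have h3 := hconst.deriv
    rw [hd] at h3
    refine h3.trans (Eventually.of_forall fun t => ?_)
    simp
  have h4 : HasDerivAt H' 0 0 := (hasDerivAt_const (0 : ℝ) (0 : ℝ)).congr_of_eventuallyEq hd0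
  have := h2.unique h4
  linarith

/-- the second derivative test at a point touching a parabola from above -/
private lemma lowL_hess {g : Vec d → ℝ} (hg : ContDiff ℝ 2 g) {c κ : ℝ} {v : Vec d}
    (hdom : ∀ u, c * (κ - nsq u) ≤ g u) (hv : g v = c * (κ - nsq v)) (w : Vec d) :
    ∑ i, ∑ j, w i * w j * (-pd i (pd j g) v) ≤ 2 * c * nsq w := by
  have hgd : Differentiable ℝ g := hg.differentiable (by norm_num)
  have hpd : ∀ j, Differentiable ℝ (pd j g) := by
    intro j
    have h1 : ContDiff ℝ 1 (fderiv ℝ g) := hg.fderiv_right (by norm_num)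
    have h2 : ContDiff ℝ 1 (pd j g) := h1.clm_apply contDiff_const
    exact h2.differentiable (by norm_num)
  have hG : ∀ t : ℝ, HasDerivAt (fun t : ℝ => g (v + t • w)) (∑ j, w j * pd j g (v + t • w)) t :=
    fun t => lowL_line_deriv (hgd _)
  have hG2 : HasDerivAt (fun t : ℝ => ∑ j, w j * pd j g (v + t • w))
      (∑ i, ∑ j, w i * w j * pd i (pd j g) v) 0 := by
    have h := HasDerivAt.fun_sum (u := (Finset.univ : Finset (Fin d)))
      (A := fun j (t : ℝ) => w j * pd j g (v + t • w))
      (A' := fun j => w j * ∑ i, w i * pd i (pd j g) (v + (0 : ℝ) • w)) (x := 0)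
      fun j _ => (lowL_line_deriv (v := v) (w := w) (t := 0) (hpd j _)).const_mul (w j)
    refine h.congr_deriv ?_
    rw [Finset.sum_comm]
    refine Finset.sum_congr rfl fun j _ => ?_
    rw [Finset.mul_sum]
    refine Finset.sum_congr rfl fun i _ => ?_
    rw [zero_smul, add_zero]
    ring
  have hq : ∀ t : ℝ, HasDerivAt (fun t : ℝ => c * (κ - nsq (v + t • w)))
      (c * (0 - 2 * (∑ i, (v i + t * w i) * w i))) t := by
    intro t
    have h1 : HasDerivAt (fun t : ℝ => nsq (v + t • w)) (∑ i, 2 * (v i + t * w i) * w i) t := by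
      unfold nsq
      refine HasDerivAt.fun_sum fun i _ => ?_
      have h2 : HasDerivAt (fun t : ℝ => v i + t * w i) (w i) t := by
        simpa using ((hasDerivAt_id t).mul_const (w i)).const_add (v i)
      have h3 := h2.fun_pow 2
      have h4 : HasDerivAt (fun t : ℝ => (v + t • w) i ^ 2)
          (((2 : ℕ) : ℝ) * (v i + t * w i) ^ (2 - 1) * w i) t := h3
      refine h4.congr_deriv ?_
      simp
    refine (((hasDerivAt_const t κ).fun_sub h1).const_mul c).congr_deriv ?_
    rw [Finset.mul_sum]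
    congr 2
    exact Finset.sum_congr rfl fun i _ => by ring
  have hq2 : HasDerivAt (fun t : ℝ => c * (0 - 2 * (∑ i, (v i + t * w i) * w i)))
      (c * (0 - 2 * nsq w)) 0 := by
    have h1 : HasDerivAt (fun t : ℝ => ∑ i, (v i + t * w i) * w i) (nsq w) 0 := by
      unfold nsq
      refine HasDerivAt.fun_sum fun i _ => ?_
      have h2 : HasDerivAt (fun t : ℝ => v i + t * w i) (w i) 0 := by
        simpa using ((hasDerivAt_id (0 : ℝ)).mul_const (w i)).const_add (v i)
      refine (h2.mul_const (w i)).congr_deriv ?_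
      ring
    exact (((hasDerivAt_const (0 : ℝ) (0 : ℝ)).fun_sub (h1.const_mul 2))).const_mul c
  have hH2 := hq2.fun_sub hG2
  have hfin := lowL_second_test (fun t => (hq t).fun_sub (hG t)) hH2 (by
    intro t
    have h1 := hdom (v + t • w)
    simp only [zero_smul, add_zero]
    rw [← hv]
    linarith)
  have e : ∑ i, ∑ j, w i * w j * (-pd i (pd j g) v) = -∑ i, ∑ j, w i * w j * pd i (pd j g) v := by
    rw [← Finset.sum_neg_distrib]
    refine Finset.sum_congr rfl fun i _ => ?_
    rw [← Finset.sum_neg_distrib]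
    exact Finset.sum_congr rfl fun j _ => by ring
  rw [e]
  linarith

private lemma lowL_conv_sum {k : Fin d → Fin d → Vec d → ℝ} {f : Vec d → ℝ} (v : Vec d)
    (M : Fin d → Fin d → ℝ) (hk : ∀ i j, Integrable fun z => k i j z • f (v - z)) :
    ∑ i, ∑ j, conv (k i j) f v * M i j = ∫ z, f (v - z) * ∑ i, ∑ j, k i j z * M i j := by
  have e : ∀ z, f (v - z) * ∑ i, ∑ j, k i j z * M i j =
      ∑ i, ∑ j, (k i j z • f (v - z)) * M i j := by
    intro z
    rw [Finset.mul_sum]
    refine Finset.sum_congr rfl fun i _ => ?_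
    rw [Finset.mul_sum]
    refine Finset.sum_congr rfl fun j _ => ?_
    rw [smul_eq_mul]
    ring
  simp_rw [e]
  rw [integral_finsetSum]
  · refine Finset.sum_congr rfl fun i _ => ?_
    rw [integral_finsetSum]
    · refine Finset.sum_congr rfl fun j _ => ?_
      rw [integral_mul_const]
      rfl
    · exact fun j _ => (hk i j).mul_const _
  · exact fun i _ => integrable_finsetSum _ fun j _ => (hk i j).mul_const _

private lemma lowL_pow {γ : ℝ} (h1 : -2 < γ) (h2 : γ ≤ 0) {x : ℝ} (hx : 0 ≤ x) :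
    x * x ^ (γ / 2) ≤ 1 + x := by
  rcases hx.eq_or_lt with h | h
  · rw [← h, zero_mul]
    norm_num
  · have e : x * x ^ (γ / 2) = x ^ ((γ + 2) / 2) := by
      rw [show (γ + 2) / 2 = 1 + γ / 2 by ring, Real.rpow_add h, Real.rpow_one]
    rw [e]
    rcases le_total 1 x with hx1 | hx1
    · have h3 : x ^ ((γ + 2) / 2) ≤ x ^ (1 : ℝ) :=
        Real.rpow_le_rpow_of_exponent_le hx1 (by linarith)
      rw [Real.rpow_one] at h3
      linarith
    · have h3 : x ^ ((γ + 2) / 2) ≤ 1 := Real.rpow_le_one hx hx1 (by linarith)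
      linarith

theorem low_landau (hd : 2 ≤ d) {γ : ℝ} (h1 : -2 < γ) (h2 : γ ≤ 0) :
    ∃ K : ℝ, 0 ≤ K ∧ ∀ g : Vec d → ℝ, Nice g → (∀ u, 0 ≤ g u) → ∀ c κ : ℝ, 0 ≤ c → κ ≤ 1 →
      ∀ v : Vec d, nsq v ≤ 1 → (∀ u, c * (κ - nsq u) ≤ g u) → g v = c * (κ - nsq v) →
      -(K * c * ∫ z, g z * (1 + nsq z)) ≤ landauQ γ g v := by
  refine ⟨8 * d, by positivity, fun g hg hg0 c κ hc hκ v hv1 hdom hv => ?_⟩
  have hgv := hg0 v
  set M : Fin d → Fin d → ℝ := fun i j => -pd i (pd j g) v with hM
  have hMc : ∀ w : Vec d, ∑ i, ∑ j, w i * w j * M i j ≤ 2 * c * nsq w := fun w =>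
    lowL_hess hg.smooth hdom hv w
  have i1 : Integrable fun z : Vec d => g z * (1 + nsq z) := by
    have e1 : RD (fun z : Vec d => g z * (1 + nsq z)) :=
      hg.rd.mul_PG ((PG.const (1 : ℝ)).add PG.nsq)
    exact e1.integrable (hg.cont.measurable.mul
      (continuous_const.add continuous_sq).measurable).aestronglyMeasurable
  have i1' : Integrable fun z : Vec d => g (v - z) * (1 + nsq (v - z)) := i1.comp_sub_left v
  have hk : ∀ i j, Integrable fun z => landauA γ z i j • g (v - z) := fun i j =>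
    (kern_landauA h1 h2 i j).integrable hg.cont hg.rd v
  -- first part
  have s1 : ∑ i, ∑ j, conv (fun z => landauA γ z i j) g v * M i j ≤
      8 * d * c * ∫ z, g z * (1 + nsq z) := by
    rw [lowL_conv_sum (k := fun i j z => landauA γ z i j) v M hk]
    have e1 : ∫ z, g z * (1 + nsq z) = ∫ z, g (v - z) * (1 + nsq (v - z)) :=
      (integral_sub_left_eq_self (fun z : Vec d => g z * (1 + nsq z)) volume v).symm
    rw [e1, ← integral_const_mul]
    have i2 : Integrable fun z : Vec d => g (v - z) * ∑ i, ∑ j, landauA γ z i j * M i j := by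
      have e : (fun z : Vec d => g (v - z) * ∑ i, ∑ j, landauA γ z i j * M i j) =
          fun z => ∑ i, ∑ j, (landauA γ z i j • g (v - z)) * M i j := by
        funext z
        rw [Finset.mul_sum]
        refine Finset.sum_congr rfl fun i _ => ?_
        rw [Finset.mul_sum]
        refine Finset.sum_congr rfl fun j _ => ?_
        rw [smul_eq_mul]
        ring
      rw [e]
      exact integrable_finsetSum _ fun i _ => integrable_finsetSum _ fun j _ =>
        (hk i j).mul_const _
    refine integral_mono i2 (i1'.const_mul _) fun z => ?_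
    show g (v - z) * ∑ i, ∑ j, landauA γ z i j * M i j ≤
      8 * d * c * (g (v - z) * (1 + nsq (v - z)))
    have h3 := landauA_quad (by positivity : (0 : ℝ) ≤ 2 * c) hMc γ z
    have h4 := lowL_pow h1 h2 (sq_nonneg' z)
    have h5 : 1 + nsq z ≤ 4 * (1 + nsq (v - z)) := by
      have h6 := one_add_sq_sub_le v (v - z)
      rw [sub_sub_cancel] at h6
      have h7 := sq_nonneg' (v - z)
      nlinarith
    have h8 : (d : ℝ) * (2 * c) * (nsq z * nsq z ^ (γ / 2)) ≤
        d * (2 * c) * (4 * (1 + nsq (v - z))) :=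
      mul_le_mul_of_nonneg_left (h4.trans h5) (by positivity)
    calc g (v - z) * ∑ i, ∑ j, landauA γ z i j * M i j
        ≤ g (v - z) * (d * (2 * c) * (4 * (1 + nsq (v - z)))) :=
          mul_le_mul_of_nonneg_left (h3.trans h8) (hg0 _)
      _ = _ := by ring
  -- second part
  have s2 : ∑ i, ∑ j, conv (fun z => landauA γ z i j) (pd i (pd j g)) v ≤ 0 := by
    have h3 := zero_order_nonpos hd h1 h2 (nice_refl hg v) (fun z => hg0 _)
    refine (le_of_eq ?_).trans h3
    refine Finset.sum_congr rfl fun i _ => Finset.sum_congr rfl fun j _ => ?_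
    unfold conv
    refine integral_congr_ae (Eventually.of_forall fun z => ?_)
    show landauA γ z i j • pd i (pd j g) (v - z) =
      landauA γ z i j * pd i (pd j fun z => g (v - z)) z
    rw [pd_pd_refl hg v z i j, smul_eq_mul]
  have hQ : landauQ γ g v = -(∑ i, ∑ j, conv (fun z => landauA γ z i j) g v * M i j) -
      g v * ∑ i, ∑ j, conv (fun z => landauA γ z i j) (pd i (pd j g)) v := by
    rw [landauQ_eq h1 h2 hg v, Finset.mul_sum, ← Finset.sum_neg_distrib,
      ← Finset.sum_sub_distrib]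
    refine Finset.sum_congr rfl fun i _ => ?_
    rw [Finset.mul_sum, ← Finset.sum_neg_distrib, ← Finset.sum_sub_distrib]
    refine Finset.sum_congr rfl fun j _ => ?_
    rw [hM]
    ring
  rw [hQ]
  have h7 := mul_nonneg_of_nonpos_of_nonpos (neg_nonpos.2 hgv) s2
  linarith

end Pool.Agent.H93.CM
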