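import Pool.Agent.H93.CM.Barr

/-!
# Module NoVac: no vacuum up to time `T`, for a general kinetic equation

`RapidUpTo` gives `M ≥ 0` with `∫ f(t,x,z)(1+|z|²)dz ≤ M` for `t ∈ [0,T)`, `x` (as in `RapidUpTo.hydro`, H82/BK/Fin.lean).
Let `Λ = K M + 1`. So the hypothesis `hQ` of `lower_barrier` holds for every `c > 0` and every `t₁ ∈ (0,T)`
(`-(c Λ) < -(K c M) ≤ Q`).
(2) Positivity: `f t x v > 0` for all `t ∈ (0,T)`, `x`, `v`. By periodicity restrict to `x ∈ [0,1]^d`. Near `t = 0`: for every `x` there is `a`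
 with `f 0 x a > 0` (the integral is positive); by continuity of `f` at `(0,x,a)` and compactness of the cube there is `τ > 0` such that for
 `t ∈ [0,τ)`, `x ∈ [0,1]^d` some `f t x a > 0`, hence (`hdich`) `f t x 0 > 0` for `t ∈ (0,τ)`. Suppose `f t x 0 = 0` for some `t ∈ (0,T)`, `x`;
 the set of `(t,x) ∈ [τ',t₂] × [0,1]^d` with `f t x 0 ≤ 0` is compact, let `t*` be its smallest time (`τ' = τ/2`, so `t* > τ'`). For `t ∈ (0,t*)`
 all `f t x v > 0`. Choose `t₁ ∈ (0,t*)` with `Λ(t*-t₁) ≤ 1/2`; on the compact set `[0,1]^d × {|v|² ≤ 1}` `f t₁` has a positive minimum `2c`;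
 `lower_barrier` gives `f t* x 0 ≥ c/2 > 0`, contradiction. So `f t x 0 > 0` for all `t ∈ (0,T)`, and by `hdich` `f t x v > 0`.
(3) Near `T`: `t₁ = max (T/2) (T - 1/(2Λ))`, `2c` the minimum of `f t₁` on `[0,1]^d × {|v|² ≤ 1}`; for `t ∈ [t₁,T)`:
 `f t x v ≥ c(1/2 - |v|²)`, so `∫ f ≥ ∫_{|v|²<1/4} c/4 > 0`.
(4) On `[0,t₁]`: the mass `(t,x) ↦ ∫ f t x v dv` is continuous on `[0,t₁] × [0,1]^d` (dominated convergence, `hf.decay t₁`) and positive
 everywhere, so bounded below.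
-/

set_option autoImplicit false

open MeasureTheory Set Filter Topology Pool.Agent.H25.Kin Pool.Agent.H82.BK

namespace Pool.Agent.H93.CM

variable {d : ℕ}

/-- reduction of the position to the unit cube -/
private lemma nv_per (x : Vec d) :
    ∃ y ∈ Icc (0 : Vec d) 1, ∀ F : Vec d → ℝ, Per F → F y = F x := by
  refine ⟨fun i => Int.fract (x i), ⟨fun i => Int.fract_nonneg _, fun i => (Int.fract_lt_one _).le⟩,
    fun F hF => ?_⟩
  have hl : (fun i => (-(⌊x i⌋ : ℤ) : ℝ)) ∈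
      Submodule.span ℤ (Set.range (Pi.basisFun ℝ (Fin d))) := by
    have e : (fun i => (-(⌊x i⌋ : ℤ) : ℝ)) = ∑ i, (-⌊x i⌋ : ℤ) • (Pi.basisFun ℝ (Fin d) i) := by
      funext j
      rw [Finset.sum_apply]
      simp only [Pi.basisFun_apply, Pi.smul_apply, Pi.single_apply]
      rw [Finset.sum_eq_single j]
      · simp
      · intro b _ hb
        simp [Ne.symm hb]
      · intro h
        exact absurd (Finset.mem_univ _) h
    rw [e]
    exact Submodule.sum_mem _ fun i _ => Submodule.smul_mem _ _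
      (Submodule.subset_span (Set.mem_range_self i))
  have h := hF.span hl x
  have e2 : (fun i => (-(⌊x i⌋ : ℤ) : ℝ)) + x = fun i => Int.fract (x i) := by
    funext i
    simp only [Pi.add_apply, Int.fract]
    ring
  rw [e2] at h
  exact h

/-- the unit cube times the unit ball is compact -/
private lemma nv_ball : IsCompact {v : Vec d | nsq v ≤ 1} := by
  refine (isCompact_closedBall (0 : Vec d) 1).of_isClosed_subset
    (isClosed_le continuous_sq continuous_const) fun v hv => ?_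
  rw [Metric.mem_closedBall, dist_zero_right]
  have h1 := norm_sq_le_sq v
  have h2 : nsq v ≤ 1 := hv
  have h3 := norm_nonneg v
  nlinarith

private lemma nv_slice {T : ℝ} {Q f : ℝ → Vec d → Vec d → ℝ} (hf : IsClassicalSol T Q f)
    {t : ℝ} (ht : t ∈ Ico 0 T) : Continuous fun q : Vec d × Vec d => f t q.1 q.2 := by
  have h1 : Continuous fun q : Vec d × Vec d => ((t, q.1, q.2) : ℝ × Vec d × Vec d) := by fun_prop
  exact hf.isCont.comp_continuous h1 fun q => ⟨ht, mem_univ _⟩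

/-- positive minimum on the cube times the unit ball -/
private lemma nv_min {T : ℝ} {Q f : ℝ → Vec d → Vec d → ℝ} (hf : IsClassicalSol T Q f)
    {t : ℝ} (ht : t ∈ Ico 0 T) (hpos : ∀ x v, 0 < f t x v) :
    ∃ c > 0, ∀ x v, nsq v ≤ 1 → c < f t x v := by
  have hK : IsCompact (Icc (0 : Vec d) 1 ×ˢ {v : Vec d | nsq v ≤ 1}) := isCompact_Icc.prod nv_ball
  have hne : (Icc (0 : Vec d) 1 ×ˢ {v : Vec d | nsq v ≤ 1}).Nonempty :=
    ⟨(0, 0), ⟨⟨le_rfl, fun _ => zero_le_one⟩, by simp [nsq]⟩⟩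
  obtain ⟨q, -, hq⟩ := hK.exists_isMinOn hne (nv_slice hf ht).continuousOn
  refine ⟨f t q.1 q.2 / 2, half_pos (hpos _ _), fun x v hv => ?_⟩
  obtain ⟨y, hy, hper⟩ := nv_per x
  have h1 : f t y v = f t x v := hper (fun x => f t x v) fun x i => hf.periodic t ht x v i
  have h2 : f t q.1 q.2 ≤ f t y v := hq (show (y, v) ∈ _ from ⟨hy, hv⟩)
  rw [← h1]
  linarith [hpos q.1 q.2]

/-- positivity near the initial time -/
private lemma nv_start {T : ℝ} (hT : 0 < T) {Q f : ℝ → Vec d → Vec d → ℝ}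
    (hf : IsClassicalSol T Q f) (hdich : ∀ t ∈ Ioo 0 T, ∀ x a v, 0 < f t x a → 0 < f t x v)
    (hm : ∀ x, 0 < ∫ v, f 0 x v) :
    ∃ τ > 0, τ ≤ T ∧ ∀ t ∈ Ioo 0 τ, ∀ x v, 0 < f t x v := by
  have hc : ∃ τ > 0, τ ≤ T ∧ ∀ t ∈ Ico 0 τ, ∀ x ∈ Icc (0 : Vec d) 1, ∃ a, 0 < f t x a := by
    refine isCompact_Icc.induction_on
      (p := fun s : Set (Vec d) => ∃ τ > 0, τ ≤ T ∧ ∀ t ∈ Ico 0 τ, ∀ x ∈ s, ∃ a, 0 < f t x a)
      ?_ ?_ ?_ ?_
    · exact ⟨T, hT, le_rfl, fun t _ x hx => absurd hx (notMem_empty _)⟩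
    · rintro s s' hss ⟨τ, h1, h2, h3⟩
      exact ⟨τ, h1, h2, fun t ht x hx => h3 t ht x (hss hx)⟩
    · rintro s s' ⟨τ, h1, h2, h3⟩ ⟨τ', h1', h2', h3'⟩
      refine ⟨min τ τ', lt_min h1 h1', (min_le_left _ _).trans h2, fun t ht x hx => ?_⟩
      rcases hx with hx | hx
      · exact h3 t ⟨ht.1, ht.2.trans_le (min_le_left _ _)⟩ x hx
      · exact h3' t ⟨ht.1, ht.2.trans_le (min_le_right _ _)⟩ x hx
    · intro x _
      obtain ⟨a, ha⟩ : ∃ a, 0 < f 0 x a := by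
        by_contra hcon
        push Not at hcon
        have := integral_nonpos (μ := (volume : Measure (Vec d))) (f := fun v => f 0 x v) hcon
        exact absurd (hm x) (not_lt.2 this)
      have hg : ContinuousOn (fun q : ℝ × Vec d => f q.1 q.2 a) (Ico 0 T ×ˢ univ) := by
        have h1 : Continuous fun q : ℝ × Vec d => ((q.1, q.2, a) : ℝ × Vec d × Vec d) := by
          fun_prop
        have h2 : ContinuousOn (unc f) (Ico 0 T ×ˢ univ) := hf.isCont
        exact h2.comp h1.continuousOn fun q hq => ⟨hq.1, mem_univ _⟩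
      have h0 : ((0 : ℝ), x) ∈ Ico 0 T ×ˢ (univ : Set (Vec d)) := ⟨⟨le_rfl, hT⟩, mem_univ _⟩
      have h1 : {q : ℝ × Vec d | 0 < f q.1 q.2 a} ∈ 𝓝[Ico 0 T ×ˢ univ] ((0 : ℝ), x) :=
        (hg _ h0).eventually_mem (isOpen_Ioi.mem_nhds (show f 0 x a ∈ Ioi 0 from ha))
      rw [nhdsWithin_prod_eq, Filter.mem_prod_iff] at h1
      obtain ⟨A, hA, B, hB, hAB⟩ := h1
      rw [Metric.mem_nhdsWithin_iff] at hA
      obtain ⟨ε, hε, hεA⟩ := hA
      rw [nhdsWithin_univ] at hB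
      refine ⟨B, mem_nhdsWithin_of_mem_nhds hB, min ε T, lt_min hε hT, min_le_right _ _,
        fun t ht y hy => ⟨a, ?_⟩⟩
      have h2 : t ∈ A := by
        refine hεA ⟨?_, ht.1, ht.2.trans_le (min_le_right _ _)⟩
        rw [Metric.mem_ball, Real.dist_eq, sub_zero, abs_of_nonneg ht.1]
        exact ht.2.trans_le (min_le_left _ _)
      exact hAB (show (t, y) ∈ A ×ˢ B from ⟨h2, hy⟩)
  obtain ⟨τ, h1, h2, h3⟩ := hc
  refine ⟨τ, h1, h2, fun t ht x v => ?_⟩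
  have ht' : t ∈ Ioo 0 T := ⟨ht.1, ht.2.trans_le h2⟩
  obtain ⟨y, hy, hper⟩ := nv_per x
  obtain ⟨a, ha⟩ := h3 t ⟨ht.1.le, ht.2⟩ y hy
  have h4 : f t y a = f t x a :=
    hper (fun x => f t x a) fun x i => hf.periodic t ⟨ht'.1.le, ht'.2⟩ x a i
  rw [h4] at ha
  exact hdich t ht' x a v ha

private lemma nv_decay_int {T : ℝ} {Q f : ℝ → Vec d → Vec d → ℝ} (hf : IsClassicalSol T Q f)
    {t₁ : ℝ} (ht₁ : t₁ < T) :
    ∃ C : ℝ, ∀ t ∈ Icc 0 t₁, ∀ x v, ‖f t x v‖ ≤ C * ((1 + ‖v‖) ^ (d + 1))⁻¹ := by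
  obtain ⟨C, hC⟩ := hf.decay t₁ ht₁ (d + 1)
  refine ⟨C, fun t ht x v => ?_⟩
  have h0 := hf.nonneg t ⟨ht.1, ht.2.trans_lt ht₁⟩ x v
  rw [Real.norm_eq_abs, abs_of_nonneg h0, ← div_eq_mul_inv, le_div_iff₀ (pow_pos (w_pos v) _),
    mul_comm]
  exact hC t ht x v

theorem no_vacuum {T : ℝ} (hT : 0 < T) {Q f : ℝ → Vec d → Vec d → ℝ} (hf : IsClassicalSol T Q f)
    (hr : RapidUpTo T f) (hdich : ∀ t ∈ Ioo 0 T, ∀ x a v, 0 < f t x a → 0 < f t x v) {K : ℝ}
    (hK : 0 ≤ K)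
    (hlow : ∀ t ∈ Ioo 0 T, ∀ x, ∀ c κ : ℝ, 0 ≤ c → κ ≤ 1 → ∀ v, nsq v ≤ 1 →
      (∀ u, c * (κ - nsq u) ≤ f t x u) → f t x v = c * (κ - nsq v) →
      -(K * c * ∫ z, f t x z * (1 + nsq z)) ≤ Q t x v)
    (hm : ∀ x, 0 < ∫ v, f 0 x v) :
    ∃ m₀ > 0, ∀ t ∈ Ico 0 T, ∀ x, m₀ ≤ ∫ v, f t x v := by
  -- the bound for the energy
  obtain ⟨M₀, hM₀⟩ := hr.hydro hf
  set M : ℝ := max (M₀ + M₀) 0 with hMd
  have hM0 : 0 ≤ M := le_max_right _ _
  have hM : ∀ t ∈ Ioo 0 T, ∀ x, ∫ z, f t x z * (1 + nsq z) ≤ M := by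
    intro t ht x
    have hn := IsClassicalSol.nice hf ht x
    have i1 : Integrable (fun v => f t x v) := hn.rd.integrable hn.cont.aestronglyMeasurable
    have i2 : Integrable (fun v => f t x v * nsq v) :=
      (hn.rd.mul_PG PG.nsq).integrable (hn.cont.mul continuous_sq).aestronglyMeasurable
    have h1 := hM₀ t ⟨ht.1.le, ht.2⟩ x
    have e : ∫ z, f t x z * (1 + nsq z) = (∫ z, f t x z) + ∫ z, f t x z * nsq z := by
      rw [← integral_add i1 i2]
      exact integral_congr_ae (Eventually.of_forall fun z => by simp only; ring)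
    rw [e]
    exact (add_le_add h1.1 h1.2.1).trans (le_max_left _ _)
  set Λ : ℝ := K * M + 1 with hΛd
  have hΛ : 1 ≤ Λ := by
    have := mul_nonneg hK hM0
    linarith
  have hbar : ∀ t₁ ∈ Ioo 0 T, ∀ c : ℝ, 0 < c → (∀ x v, nsq v ≤ 1 → c < f t₁ x v) →
      ∀ t ∈ Ico t₁ T, ∀ x v, c * (1 - Λ * (t - t₁) - nsq v) ≤ f t x v := by
    intro t₁ ht₁ c hc h0
    refine lower_barrier hf ht₁ hc (by linarith) h0 ?_
    intro t ht x v κ hκ hv hu he
    have ht' : t ∈ Ioo 0 T := ⟨ht₁.1.trans ht.1, ht.2⟩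
    have h1 := hlow t ht' x c κ hc.le hκ v hv hu he
    have h2 : K * c * ∫ z, f t x z * (1 + nsq z) ≤ K * c * M :=
      mul_le_mul_of_nonneg_left (hM t ht' x) (mul_nonneg hK hc.le)
    have h3 : c * Λ = K * c * M + c := by rw [hΛd]; ring
    linarith
  -- positivity
  obtain ⟨τ, hτ, hτT, hτp⟩ := nv_start hT hf hdich hm
  have hpos : ∀ t ∈ Ioo 0 T, ∀ x v, 0 < f t x v := by
    by_contra hcon
    push Not at hcon
    obtain ⟨t₂, ht₂, x₂, v₂, h2⟩ := hcon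
    have h20 : f t₂ x₂ 0 ≤ 0 := by
      by_contra h
      exact absurd (hdich t₂ ht₂ x₂ 0 v₂ (not_le.1 h)) (not_lt.2 h2)
    have hτ2 : τ ≤ t₂ := by
      by_contra h
      exact absurd (hτp t₂ ⟨ht₂.1, not_le.1 h⟩ x₂ 0) (not_lt.2 h20)
    have hsub : Icc (τ / 2) t₂ ⊆ Ico 0 T := fun t ht =>
      ⟨(half_pos hτ).le.trans ht.1, ht.2.trans_lt ht₂.2⟩
    have hgc : ContinuousOn (fun q : ℝ × Vec d => f q.1 q.2 0) (Icc (τ / 2) t₂ ×ˢ Icc 0 1) := by
      have h1 : Continuous fun q : ℝ × Vec d => ((q.1, q.2, 0) : ℝ × Vec d × Vec d) := by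
        fun_prop
      have h3 : ContinuousOn (unc f) (Ico 0 T ×ˢ univ) := hf.isCont
      exact h3.comp h1.continuousOn fun q hq => ⟨hsub hq.1, mem_univ _⟩
    have hKc : IsCompact (Icc (τ / 2) t₂ ×ˢ Icc (0 : Vec d) 1) := isCompact_Icc.prod isCompact_Icc
    set S : Set (ℝ × Vec d) :=
      (Icc (τ / 2) t₂ ×ˢ Icc (0 : Vec d) 1) ∩ (fun q : ℝ × Vec d => f q.1 q.2 0) ⁻¹' Iic 0 with hS
    have hSc : IsCompact S := hKc.of_isClosed_subset
      (hgc.preimage_isClosed_of_isClosed hKc.isClosed isClosed_Iic) inter_subset_left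
    have hmem : ∀ t ∈ Icc (τ / 2) t₂, ∀ x, f t x 0 ≤ 0 → ∃ y, (t, y) ∈ S := by
      intro t ht x h
      obtain ⟨y, hy, hper⟩ := nv_per x
      have h4 : f t y 0 = f t x 0 :=
        hper (fun x => f t x 0) fun x i => hf.periodic t (hsub ht) x 0 i
      refine ⟨y, ⟨ht, hy⟩, ?_⟩
      simp only [mem_preimage, mem_Iic]
      rw [h4]
      exact h
    obtain ⟨y₂, hy₂⟩ := hmem t₂ ⟨by linarith, le_rfl⟩ x₂ h20
    obtain ⟨q, hqS, hq⟩ := hSc.exists_isMinOn ⟨_, hy₂⟩ (f := fun q : ℝ × Vec d => q.1)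
      continuous_fst.continuousOn
    obtain ⟨ts, ys⟩ := q
    have hts : ts ∈ Icc (τ / 2) t₂ := hqS.1.1
    have hfs : f ts ys 0 ≤ 0 := hqS.2
    have hts0 : 0 < ts := (half_pos hτ).trans_le hts.1
    have hbefore : ∀ t ∈ Ioo 0 ts, ∀ x v, 0 < f t x v := by
      intro t ht x v
      rcases lt_or_ge t τ with h | h
      · exact hτp t ⟨ht.1, h⟩ x v
      · have ht2 : t ∈ Icc (τ / 2) t₂ := ⟨by linarith, ht.2.le.trans hts.2⟩
        have ht3 : t ∈ Ioo 0 T := ⟨ht.1, (ht.2.trans_le hts.2).trans ht₂.2⟩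
        refine hdich t ht3 x 0 v ?_
        by_contra hc
        obtain ⟨y, hy⟩ := hmem t ht2 x (not_lt.1 hc)
        have h5 : ts ≤ t := hq hy
        exact absurd ht.2 (not_lt.2 h5)
    set t₁ : ℝ := max (ts / 2) (ts - 1 / (2 * Λ)) with ht₁d
    have hΛ2 : 0 < 1 / (2 * Λ) := by positivity
    have ht₁a : t₁ ∈ Ioo 0 ts :=
      ⟨(half_pos hts0).trans_le (le_max_left _ _), max_lt (by linarith) (by linarith)⟩
    have htsT : ts < T := hts.2.trans_lt ht₂.2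
    have ht₁b : Λ * (ts - t₁) ≤ 1 / 2 := by
      have h6 : ts - t₁ ≤ 1 / (2 * Λ) := by
        have := le_max_right (ts / 2) (ts - 1 / (2 * Λ))
        linarith
      calc Λ * (ts - t₁) ≤ Λ * (1 / (2 * Λ)) := mul_le_mul_of_nonneg_left h6 (by linarith)
        _ = 1 / 2 := by field_simp
    obtain ⟨c, hc, hcm⟩ := nv_min hf ⟨ht₁a.1.le, ht₁a.2.trans htsT⟩ (hbefore t₁ ht₁a)
    have h7 := hbar t₁ ⟨ht₁a.1, ht₁a.2.trans htsT⟩ c hc hcm ts ⟨ht₁a.2.le, htsT⟩ ys 0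
    have h8 : nsq (0 : Vec d) = 0 := by simp [nsq]
    rw [h8] at h7
    have h9 : 0 < c * (1 - Λ * (ts - t₁) - 0) := mul_pos hc (by linarith)
    linarith
  -- near `T`
  set t₁ : ℝ := max (T / 2) (T - 1 / (2 * Λ)) with ht₁d
  have hΛ2 : 0 < 1 / (2 * Λ) := by positivity
  have ht₁ : t₁ ∈ Ioo 0 T :=
    ⟨(half_pos hT).trans_le (le_max_left _ _), max_lt (by linarith) (by linarith)⟩
  obtain ⟨c, hc, hcm⟩ := nv_min hf ⟨ht₁.1.le, ht₁.2⟩ (hpos t₁ ht₁)
  set A : Set (Vec d) := {v | nsq v < 1 / 4} with hA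
  have hAo : IsOpen A := isOpen_lt continuous_sq continuous_const
  have hAne : A.Nonempty := ⟨0, by simp [hA, nsq]⟩
  have hAfin : volume A < ⊤ := by
    refine lt_of_le_of_lt (measure_mono fun v hv => ?_) (nv_ball (d := d)).measure_lt_top
    have h1 : nsq v < 1 / 4 := hv
    exact (show nsq v ≤ 1 by linarith)
  have hApos : 0 < volume.real A := by
    rw [measureReal_def]
    exact ENNReal.toReal_pos (hAo.measure_pos _ hAne).ne' hAfin.ne
  have hlate : ∀ t ∈ Ico t₁ T, ∀ x, c / 4 * volume.real A ≤ ∫ v, f t x v := by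
    intro t ht x
    have ht' : t ∈ Ioo 0 T := ⟨ht₁.1.trans_le ht.1, ht.2⟩
    have hn := IsClassicalSol.nice hf ht' x
    have i1 : Integrable (fun v => f t x v) := hn.rd.integrable hn.cont.aestronglyMeasurable
    have h1 : ∫ v, A.indicator (fun _ => c / 4) v = c / 4 * volume.real A := by
      rw [integral_indicator hAo.measurableSet, setIntegral_const, smul_eq_mul, mul_comm]
    rw [← h1]
    refine integral_mono ((integrable_indicator_iff hAo.measurableSet).2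
      (integrableOn_const hAfin.ne)) i1 fun v => ?_
    simp only
    by_cases hv : v ∈ A
    · rw [indicator_of_mem hv]
      have h2 := hbar t₁ ht₁ c hc hcm t ht x v
      have h3 : nsq v < 1 / 4 := hv
      have h4 : Λ * (t - t₁) ≤ 1 / 2 := by
        have h6 : t - t₁ ≤ 1 / (2 * Λ) := by
          have := le_max_right (T / 2) (T - 1 / (2 * Λ))
          linarith [ht.2]
        calc Λ * (t - t₁) ≤ Λ * (1 / (2 * Λ)) := mul_le_mul_of_nonneg_left h6 (by linarith)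
          _ = 1 / 2 := by field_simp
      have h5 : c * (1 / 4) ≤ c * (1 - Λ * (t - t₁) - nsq v) :=
        mul_le_mul_of_nonneg_left (by linarith) hc.le
      linarith
    · rw [indicator_of_notMem hv]
      exact hf.nonneg t ⟨ht'.1.le, ht'.2⟩ x v
  -- up to `t₁`
  obtain ⟨C, hC⟩ := nv_decay_int hf ht₁.2
  have hw : Integrable (fun v : Vec d => ((1 + ‖v‖) ^ (d + 1))⁻¹) := integrable_wt
  have hsl : ∀ t ∈ Icc 0 t₁, ∀ x, Continuous (f t x) := fun t ht x =>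
    (nv_slice hf ⟨ht.1, ht.2.trans_lt ht₁.2⟩).comp (Continuous.prodMk_right x)
  have hmc : ContinuousOn (fun q : ℝ × Vec d => ∫ v, f q.1 q.2 v) (Icc 0 t₁ ×ˢ Icc 0 1) := by
    refine continuousOn_of_dominated (bound := fun v => C * ((1 + ‖v‖) ^ (d + 1))⁻¹) ?_ ?_
      (hw.const_mul C) ?_
    · rintro ⟨t, x⟩ hq
      exact (hsl t hq.1 x).aestronglyMeasurable
    · rintro ⟨t, x⟩ hq
      exact Eventually.of_forall fun v => hC t hq.1 x v
    · refine Eventually.of_forall fun v => ?_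
      have h1 : Continuous fun q : ℝ × Vec d => ((q.1, q.2, v) : ℝ × Vec d × Vec d) := by
        fun_prop
      have h3 : ContinuousOn (unc f) (Ico 0 T ×ˢ univ) := hf.isCont
      exact h3.comp h1.continuousOn fun q hq => ⟨⟨hq.1.1, hq.1.2.trans_lt ht₁.2⟩, mem_univ _⟩
  have hmp : ∀ t ∈ Icc 0 t₁, ∀ x, 0 < ∫ v, f t x v := by
    intro t ht x
    rcases ht.1.eq_or_lt with h | h
    · rw [← h]
      exact hm x
    · have ht' : t ∈ Ioo 0 T := ⟨h, ht.2.trans_lt ht₁.2⟩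
      have i1 : Integrable (fun v => f t x v) :=
        (hw.const_mul C).mono' (hsl t ht x).aestronglyMeasurable
          (Eventually.of_forall fun v => hC t ht x v)
      rw [integral_pos_iff_support_of_nonneg (fun v => (hpos t ht' x v).le) i1]
      have : Function.support (fun v => f t x v) = univ := by
        ext v
        simp only [Function.mem_support, mem_univ, iff_true]
        exact (hpos t ht' x v).ne'
      rw [this]
      exact isOpen_univ.measure_pos _ ⟨0, mem_univ _⟩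
  have hKc : IsCompact (Icc 0 t₁ ×ˢ Icc (0 : Vec d) 1) := isCompact_Icc.prod isCompact_Icc
  obtain ⟨q, hqK, hq⟩ := hKc.exists_isMinOn
    ⟨(0, 0), ⟨⟨le_rfl, ht₁.1.le⟩, ⟨le_rfl, fun _ => zero_le_one⟩⟩⟩ hmc
  set m₁ : ℝ := ∫ v, f q.1 q.2 v with hm₁
  have hm₁p : 0 < m₁ := hmp q.1 hqK.1 q.2
  have hearly : ∀ t ∈ Icc 0 t₁, ∀ x, m₁ ≤ ∫ v, f t x v := by
    intro t ht x
    obtain ⟨y, hy, hper⟩ := nv_per x
    have h1 : ∀ v, f t y v = f t x v := fun v =>
      hper (fun x => f t x v) fun x i => hf.periodic t ⟨ht.1, ht.2.trans_lt ht₁.2⟩ x v i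
    have h2 : m₁ ≤ ∫ v, f t y v := hq (show (t, y) ∈ _ from ⟨ht, hy⟩)
    have h3 : ∫ v, f t y v = ∫ v, f t x v := by
      congr 1
      funext v
      exact h1 v
    rw [h3] at h2
    exact h2
  refine ⟨min m₁ (c / 4 * volume.real A), lt_min hm₁p (by positivity), fun t ht x => ?_⟩
  rcases le_or_gt t t₁ with h | h
  · exact (min_le_left _ _).trans (hearly t ⟨ht.1, h⟩ x)
  · exact (min_le_right _ _).trans (hlate t ⟨h.le, ht.2⟩ x)

end Pool.Agent.H93.CM
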