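import Pool.Agent.H93.CM.Defs

/-!
# Module Pos: the Boltzmann operator is positive at a zero which sees an orthogonal pair

`g(v) = 0`, so `boltzCut γ b ε g v = ∫ ∫ kerB (g(w')g(v'))` has a nonnegative integrand and is nonincreasing in `ε > 0`
(`kerB` is nonnegative a.e. on the sphere, `kerB_nonneg`, and grows when `ε` decreases). By `boltz_tendsto` it is enough to find one
`ε₀ > 0` with `boltzCut γ b ε₀ g v > 0`: then `boltzQ = lim_{ε → 0+} boltzCut ≥ boltzCut ε₀ > 0` (`ge_of_tendsto`).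
Let `w₁ = v+p+q`, `σ₁ = (p-q)/|p-q|`. Since `p·q = 0`: `|v-w₁|² = |p+q|² = |p|²+|q|² = |p-q|²`, hence
`post v w₁ σ₁ = v + (p+q)/2 + (p-q)/2 = v+p`, `post' v w₁ σ₁ = v+q`, and
`cosTh v w₁ σ₁ = (p-q)·(-(p+q))/(|p|²+|q|²) = (|q|²-|p|²)/(|p|²+|q|²) =: x₁ ∈ (0,1)`.
Let `ε₀ = (1-x₁)/2`. By continuity (`continuous_post`, `continuous_post'`, `cosTh` is continuous at `w ≠ v`) there are a
neighbourhood `W` of `w₁`, a neighbourhood `N` of `σ₁` and `c > 0` with `g(post') g(post) ≥ c`, `0 < cosTh < 1 - ε₀`,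
`cosTh ≥ x₁/2`, `|v-w|^γ ≥ c` on `W × N`; there `b(cosTh) ≥ c' > 0` by `IsKernel.grazing` (`cosTh = cos θ`, `θ = arccos`,
`θ ∈ (0,π/2)`). Positive measure: `volume W > 0` and `surf d N > 0`: `shell_low` (H82/CM/Shell.lean) with `k = σ₁` and small `u`
(`|σ-σ₁|² = 2(1-σ₁·σ) ≤ 64u`), or `surf_formula`. The integral over the product is `≥ c'' volume W surf N > 0`. Integrability of the
integrand on the product is in `Real_int` of H82/CM/RealG.lean (private: copy it; 35 lines) or work with `lintegral` (`Gn`) and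
`cut_leg`-type conversion: `Gn γ b ε g v = ∫⁻∫⁻ ofReal(kerB ..)`, `boltzCut = (Gn).toReal` when `g v = 0`.
-/

set_option autoImplicit false

open MeasureTheory Set Filter Topology Pool.Agent.H25.Kin Pool.Agent.H82.BK Pool.Agent.H82.CM
open scoped ENNReal

namespace Pool.Agent.H93.CM

variable {d : ℕ}

private lemma pos_surf (hd : 2 ≤ d) {k : Vec d} (hk : nsq k = 1) {N : Set (Vec d)}
    (hN : N ∈ 𝓝 k) : 0 < surf d N := by
  obtain ⟨c, hc, hsh⟩ := shell_low hd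
  obtain ⟨r, hr, hball⟩ := Metric.mem_nhds_iff.1 hN
  set u : ℝ := min (1 / 64) (r ^ 2 / 128) with hu
  have hu0 : 0 < u := lt_min (by norm_num) (by positivity)
  have hu1 : u ≤ 1 / 64 := min_le_left _ _
  have hu2 : u ≤ r ^ 2 / 128 := min_le_right _ _
  have h1 := hsh k hk u hu0 hu1
  have h2 : 0 < ENNReal.ofReal (c * u ^ (((d : ℝ) - 1) / 2)) :=
    ENNReal.ofReal_pos.2 (by positivity)
  refine h2.trans_le (h1.trans ?_)
  refine measure_mono_ae ?_
  filter_upwards [surf_ae (d := d)] with σ hσ hσ2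
  apply hball
  rw [Metric.mem_ball, dist_eq_norm]
  have h3 : nsq (σ - k) ≤ 64 * u := by
    have h4 : 1 - dot k σ ≤ 32 * u := hσ2.2
    rw [nsq_sub, hσ, hk, dot_comm]
    linarith
  have h4 := norm_sq_le_sq (σ - k)
  have h6 : 0 < r ^ 2 := by positivity
  have h5 : ‖σ - k‖ ^ 2 < r ^ 2 := by linarith
  exact lt_of_pow_lt_pow_left₀ 2 hr.le h5

private lemma pos_ker {γ s : ℝ} {b : ℝ → ℝ} {C Ca cb : ℝ} (HL : HypL d γ s b C Ca cb)
    {v w σ : Vec d} {ε : ℝ} (hε : 0 < ε) (hl : 0 < len (v - w)) (hc0 : 0 < cosTh v w σ)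
    (hc1 : cosTh v w σ < 1 - ε) : 0 < kerB γ b ε v w σ := by
  unfold kerB
  rw [if_pos hc1.le]
  have h1 := HL.lo.2 (cosTh v w σ) hc0.le (by linarith)
  have h2 : 0 < 1 - cosTh v w σ := by linarith
  have h3 := Real.rpow_pos_of_pos h2 (-(((d : ℝ) - 1) / 2 + s))
  have h4 := Real.rpow_pos_of_pos hl γ
  have h5 := HL.lo.1
  have h6 : 0 < b (cosTh v w σ) := lt_of_lt_of_le (by positivity) h1
  positivity

private lemma pos_two {F : Vec d → Vec d → ℝ≥0∞} (hF : Measurable (Function.uncurry F))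
    (hz : ∫⁻ w, ∫⁻ σ, F w σ ∂(surf d) = 0) {pa pb : Vec d → Prop}
    (ha : ∃ᵐ w ∂(volume : Measure (Vec d)), pa w) (hb : ∃ᵐ σ ∂(surf d), pb σ) :
    ∃ w σ, pa w ∧ pb σ ∧ F w σ = 0 := by
  have h1 : Measurable fun w => ∫⁻ σ, F w σ ∂(surf d) := hF.lintegral_prod_right'
  rw [lintegral_eq_zero_iff h1] at hz
  obtain ⟨w, hw, hwz⟩ := (ha.and_eventually hz).exists
  have h2 : Measurable fun σ => F w σ := hF.of_uncurry_left
  have h3 : ∫⁻ σ, F w σ ∂(surf d) = 0 := hwz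
  rw [lintegral_eq_zero_iff h2] at h3
  obtain ⟨σ, hσ, hσz⟩ := (hb.and_eventually h3).exists
  exact ⟨w, σ, hw, hσ, hσz⟩

private lemma pos_gn {γ s : ℝ} {b : ℝ → ℝ} {C Ca cb : ℝ} (HL : HypL d γ s b C Ca cb)
    {g : Vec d → ℝ} (hg : Continuous g) {v w₁ σ₁ : Vec d} {ε : ℝ} (hε : 0 < ε)
    (hl : 0 < len (v - w₁)) (hσ : nsq σ₁ = 1) (hc0 : 0 < cosTh v w₁ σ₁)
    (hc1 : cosTh v w₁ σ₁ < 1 - ε) (h1 : 0 < g (post v w₁ σ₁)) (h2 : 0 < g (post' v w₁ σ₁)) :
    0 < Gn γ b ε g v := by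
  have ci : Continuous fun q : Vec d × Vec d => ((v, q.1, q.2) : Vec d × Vec d × Vec d) := by
    fun_prop
  have cp : Continuous fun q : Vec d × Vec d => g (post v q.1 q.2) :=
    hg.comp ((continuous_post (d := d)).comp ci)
  have cp' : Continuous fun q : Vec d × Vec d => g (post' v q.1 q.2) :=
    hg.comp ((continuous_post' (d := d)).comp ci)
  have cl : Continuous fun q : Vec d × Vec d => len (v - q.1) :=
    continuous_len.comp (by fun_prop)
  have cd : Continuous fun q : Vec d × Vec d => dot q.2 (v - q.1) :=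
    (continuous_dot (d := d)).comp (by fun_prop : Continuous fun q : Vec d × Vec d =>
      ((q.2, v - q.1) : Vec d × Vec d))
  have cc : ContinuousAt (fun q : Vec d × Vec d => cosTh v q.1 q.2) (w₁, σ₁) :=
    cd.continuousAt.div cl.continuousAt hl.ne'
  have ev : ∀ᶠ q in 𝓝 (w₁, σ₁), 0 < len (v - q.1) ∧ 0 < cosTh v q.1 q.2 ∧
      cosTh v q.1 q.2 < 1 - ε ∧ 0 < g (post v q.1 q.2) ∧ 0 < g (post' v q.1 q.2) := by
    filter_upwards [(cl.tendsto (w₁, σ₁)).eventually_const_lt hl,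
      cc.tendsto.eventually_const_lt hc0, cc.tendsto.eventually_lt_const hc1,
      (cp.tendsto (w₁, σ₁)).eventually_const_lt h1,
      (cp'.tendsto (w₁, σ₁)).eventually_const_lt h2] with q a1 a2 a3 a4 a5
    exact ⟨a1, a2, a3, a4, a5⟩
  rw [nhds_prod_eq, Filter.eventually_prod_iff] at ev
  obtain ⟨pa, hpa, pb, hpb, hab⟩ := ev
  have mk : Measurable fun q : Vec d × Vec d => kerB γ b ε v q.1 q.2 :=
    (measurable_kerB γ HL.H.bm ε).comp ci.measurable
  have mF : Measurable (Function.uncurry fun w σ : Vec d => ENNReal.ofReal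
      (kerB γ b ε v w σ * (g (post' v w σ) * g (post v w σ)))) :=
    (mk.mul (cp'.measurable.mul cp.measurable)).ennreal_ofReal
  rw [pos_iff_ne_zero]
  intro hz
  obtain ⟨w, σ, hw, hσ', hσz⟩ := pos_two mF hz
    (frequently_ae_iff.2 (Measure.measure_pos_of_mem_nhds _ hpa).ne')
    (frequently_ae_iff.2 (pos_surf HL.H.hd hσ hpb).ne')
  obtain ⟨a1, a2, a3, a4, a5⟩ := hab hw hσ'
  have hk := pos_ker HL hε a1 a2 a3
  rw [ENNReal.ofReal_eq_zero] at hσz
  have := mul_pos hk (mul_pos a5 a4)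
  exact absurd hσz (not_le.2 this)

private lemma pos_cut {γ s : ℝ} {b : ℝ → ℝ} {C Ca : ℝ} (H : Hyp d γ s b C Ca)
    {g : Vec d → ℝ} (hg : Nice g) (hg0 : ∀ u, 0 ≤ g u) {v : Vec d} (hv : g v = 0) {ε : ℝ}
    (hε : 0 < ε) : Gn γ b ε g v ≠ ⊤ ∧ boltzCut γ b ε g v = (Gn γ b ε g v).toReal := by
  obtain ⟨t1, -, e⟩ := cut_eq H hg hg0 hε v
  have hL : Ls γ b ε g v = 0 := by
    unfold Ls
    simp [hv]
  rw [hL] at e
  simp only [ENNReal.toReal_zero, sub_zero] at e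
  exact ⟨t1, e⟩

private lemma pos_mono {γ s : ℝ} {b : ℝ → ℝ} {C Ca : ℝ} (H : Hyp d γ s b C Ca)
    {g : Vec d → ℝ} (hg0 : ∀ u, 0 ≤ g u) {v : Vec d} {ε ε₀ : ℝ} (hε : 0 < ε) (hle : ε ≤ ε₀) :
    Gn γ b ε₀ g v ≤ Gn γ b ε g v := by
  unfold Gn
  refine lintegral_mono fun w => lintegral_mono_ae ?_
  filter_upwards [surf_ae (d := d)] with σ hσ
  refine ENNReal.ofReal_le_ofReal (mul_le_mul_of_nonneg_right ?_ (mul_nonneg (hg0 _) (hg0 _)))
  have h1 := kerB_nonneg (γ := γ) H.bd hε (v := v) (w := w) hσ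
  unfold kerB at h1 ⊢
  by_cases h : cosTh v w σ ≤ 1 - ε₀
  · rw [if_pos h, if_pos (h.trans (by linarith))]
  · rw [if_neg h]
    exact h1

theorem boltz_pos {γ s : ℝ} (hd : 2 ≤ d) (hs : s ∈ Ioo (0 : ℝ) 1) (h0 : 0 ≤ γ + 2 * s)
    (h2 : γ + 2 * s ≤ 2) {b : ℝ → ℝ} (hb : IsKernel d s b) {g : Vec d → ℝ} (hg : Nice g)
    (hg0 : ∀ u, 0 ≤ g u) {v p q : Vec d} (hv : g v = 0) (hpq : dot p q = 0) (hp : 0 < nsq p)
    (hlt : nsq p < nsq q) (h1 : 0 < g (v + p)) (h3 : 0 < g (v + q)) :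
    0 < boltzQ γ b g v := by
  obtain ⟨C, Ca, cb, HL⟩ := exists_hypL hd hs.1 hs.2 h0 h2 hb
  have H := HL.H
  have hS : 0 < nsq p + nsq q := by linarith
  have e0 : v - (v + p + q) = -(p + q) := by abel
  have e1 : nsq (v - (v + p + q)) = nsq p + nsq q := by
    rw [e0, sq_neg, nsq_add, hpq]
    ring
  have e2 : nsq (p - q) = nsq p + nsq q := by
    rw [nsq_sub, hpq]
    ring
  have hl2 : len (v - (v + p + q)) ^ 2 = nsq p + nsq q := by rw [len_sq, e1]
  have hl : 0 < len (v - (v + p + q)) := Real.sqrt_pos.2 (by rw [e1]; exact hS)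
  set l := len (v - (v + p + q)) with hldef
  have hσ : nsq (l⁻¹ • (p - q)) = 1 := by
    rw [nsq_smul, e2, inv_pow, hl2]
    exact inv_mul_cancel₀ hS.ne'
  have hll : l / 2 * l⁻¹ = 1 / 2 := by field_simp
  have hpost : post v (v + p + q) (l⁻¹ • (p - q)) = v + p := by
    unfold post
    rw [← hldef, smul_smul, hll]
    ext i
    simp only [Pi.add_apply, Pi.smul_apply, Pi.sub_apply, smul_eq_mul]
    ring
  have hpost' : post' v (v + p + q) (l⁻¹ • (p - q)) = v + q := by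
    unfold post'
    rw [← hldef, smul_smul, hll]
    ext i
    simp only [Pi.add_apply, Pi.smul_apply, Pi.sub_apply, smul_eq_mul]
    ring
  have hdot : dot (p - q) (v - (v + p + q)) = nsq q - nsq p := by
    rw [e0, dot_neg, dot_add, dot_comm (p - q) p, dot_comm (p - q) q, dot_sub, dot_sub,
      dot_self, dot_self, dot_comm q p, hpq]
    ring
  have hcos : cosTh v (v + p + q) (l⁻¹ • (p - q)) = (nsq q - nsq p) / (nsq p + nsq q) := by
    unfold cosTh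
    rw [← hldef, smul_dot, hdot, ← hl2]
    field_simp
  have hx0 : 0 < (nsq q - nsq p) / (nsq p + nsq q) := div_pos (by linarith) hS
  have hx1 : (nsq q - nsq p) / (nsq p + nsq q) < 1 := by
    rw [div_lt_one hS]
    linarith
  set x₁ := (nsq q - nsq p) / (nsq p + nsq q) with hx
  have hε₀ : 0 < (1 - x₁) / 2 := by linarith
  have hG := pos_gn (ε := (1 - x₁) / 2) HL hg.cont hε₀ hl hσ (by rw [hcos]; exact hx0)
    (by rw [hcos]; linarith) (by rw [hpost]; exact h1) (by rw [hpost']; exact h3)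
  obtain ⟨t0, e3⟩ := pos_cut H hg hg0 hv hε₀
  have hpos : 0 < (Gn γ b ((1 - x₁) / 2) g v).toReal := ENNReal.toReal_pos hG.ne' t0
  refine hpos.trans_le (ge_of_tendsto (boltz_tendsto H hg v) ?_)
  filter_upwards [Ioc_mem_nhdsGT hε₀] with ε hε
  obtain ⟨t1, e4⟩ := pos_cut H hg hg0 hv hε.1
  rw [e4]
  exact ENNReal.toReal_mono t1 (pos_mono H hg0 hε.1 hε.2)

end Pool.Agent.H93.CM
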