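import Pool.Agent.H93.CM.EllL

/-!
# Module StrL: the strong maximum principle for the Landau equation, at fixed `(t,x)`

Let `f t₀ x₀ v₁ > 0`. Choose `c > 0`, `r ∈ (0,1]` with `[t₀-r,t₀+r] ⊆ (0,T)` and `f ≥ 2c` for `|t-t₀| ≤ r`, `nsq(x-x₀) ≤ r²`,
`nsq(v-v₁) ≤ r²` (continuity). If `nsq(v₀-v₁) ≤ r²`: done. Put `ρ² = nsq(v₀-v₁)+1`, `N ≥ 1` with `ρ² ≤ N r²`,
`D(t,x,v) = |v-v₁|² + N(|x-x₀|²+(t-t₀)²)`, `Ω = {D ≤ ρ², |v-v₁|² ≥ r²}` compact, contained in `|t-t₀| ≤ r`, `|x-x₀| ≤ r`.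
`w = exp(-αD) - exp(-αρ²) ∈ [0,1]` on `Ω`. CLAIM: `f ≥ c w` on `Ω` if `α` is large. Then `f t₀ x₀ v₀ ≥ c(exp(-α|v₀-v₁|²) - exp(-αρ²)) > 0`.
Let `P = (t,x,v)` minimise `F = f - c w` on `Ω` and suppose `F(P) < 0`. On `D = ρ²`: `w = 0`, `F ≥ 0`. On `|v-v₁| = r`: `F ≥ 2c - c > 0`. So `P`
is an interior point, a local minimum of `F`: `fderiv (unc f) P = c fderiv w P`, so
`transport f P = c (w_t + v·∇_x w) = -c α exp(-αD) (2N(t-t₀) + 2N (x-x₀)·v) ≤ 2 c α exp(-αD) N r (1+|v|)`, and, along lines in `v` only,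
`∑ ξ'_i ξ'_j M_ij ≥ c ∑ ξ'_i ξ'_j W_ij` with `M_ij = ∂_i∂_j f(t,x,·)(v)`, `W_ij = exp(-αD)(4α² ξ_i ξ_j - 2α δ_ij)`, `ξ = v-v₁` (second
derivative test, as `hess_touch`). `landauQ_eq`: `Q = ∑ (a_ij*g)(v) M_ij - g(v) Z`, `Z = ∑ (a_ij * ∂_i∂_j g)(v)`, `g = f t x`. `landauA_quad` for
`-(M - cW)` with constant `0` gives `∑ (a_ij*g)(v)(M_ij - c W_ij) ≥ 0`. `∑ (a_ij*g) W_ij = exp(-αD)(4α² ∑(a_ij*g)ξ_iξ_j - 2α ∑_i (a_ii*g)(v))`
`≥ exp(-αD)(4α² lam - 2α Λ)`, `lam` from `ell_low` (with `2c`), `Λ` a bound of `∑_i (a_ii*g)(v)` and of `|Z|` for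
`|t-t₀| ≤ r`, all `x`, `|v-v₁| ≤ ρ` (`Kern.le`/`kern_landauA` of Kin/Conv.lean with the uniform decay of `f` and of its second
derivatives, `hf.decay`, `hf.decay12` on `[t₀-r,t₀+r]`; see `slice_fderiv2` in Kin/Slice.lean). And `0 ≤ g(v) < c w(P) ≤ c exp(-αD)`. Since
`transport f = Q`: `2 c α exp(-αD) N r (1+|v|) ≥ c exp(-αD) (4α² lam - 2αΛ - Λ)`, false for large `α` (`|v| ≤ |v₁|+ρ`).
-/

set_option autoImplicit false

open MeasureTheory Set Filter Topology Pool.Agent.H25.Kin Pool.Agent.H82.BK Pool.Agent.H82.LK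

namespace Pool.Agent.H93.CM

variable {d : ℕ}

private lemma strL_dir_eq (g : Vec d → ℝ) (u w : Vec d) :
    fderiv ℝ g u w = ∑ i, w i * pd i g u := by
  have h : w = ∑ i, w i • (Pi.single i (1 : ℝ) : Vec d) := by
    funext j
    simp [Finset.sum_apply, Pi.single_apply]
  conv_lhs => rw [h]
  rw [map_sum]
  exact Finset.sum_congr rfl fun i _ => by rw [map_smul, smul_eq_mul, pd]

private lemma strL_line_deriv {f : Vec d → ℝ} {v w : Vec d} {t : ℝ}
    (hf : DifferentiableAt ℝ f (v + t • w)) :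
    HasDerivAt (fun t : ℝ => f (v + t • w)) (∑ i, w i * pd i f (v + t • w)) t := by
  have hl : HasDerivAt (fun t : ℝ => v + t • w) w t := by
    simpa using ((hasDerivAt_id t).smul_const w).const_add v
  have h := hf.hasFDerivAt.comp_hasDerivAt t hl
  rw [strL_dir_eq] at h
  exact h

private lemma strL_second_test {H H' : ℝ → ℝ} {H2 : ℝ} (h1 : ∀ t, HasDerivAt H (H' t) t)
    (h2 : HasDerivAt H' H2 0) (hlm : IsLocalMax H 0) : H2 ≤ 0 := by
  have h0 : H' 0 = 0 := hlm.hasDerivAt_eq_zero (h1 0)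
  by_contra hneg
  rw [not_le] at hneg
  have hd : deriv H = H' := funext fun t => (h1 t).deriv
  have hmin : IsLocalMin H 0 := by
    apply isLocalMin_of_deriv_deriv_pos
    · rw [hd, h2.deriv]; exact hneg
    · rw [hd]; exact h0
    · exact (h1 0).continuousAt
  have hconst : H =ᶠ[𝓝 0] fun _ => H 0 := by
    filter_upwards [hmin, hlm] with t ht ht'
    exact le_antisymm ht' ht
  have hd0 : H' =ᶠ[𝓝 0] fun _ => (0 : ℝ) := by
    have h3 := hconst.deriv
    rw [hd] at h3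
    refine h3.trans (Eventually.of_forall fun t => ?_)
    simp
  have h4 : HasDerivAt H' 0 0 := (hasDerivAt_const (0 : ℝ) (0 : ℝ)).congr_of_eventuallyEq hd0
  have := h2.unique h4
  linarith

/-- the derivative of `|a + s w|²` -/
private lemma strL_nsq_deriv (a w : Vec d) (s : ℝ) :
    HasDerivAt (fun s : ℝ => nsq (a + s • w)) (∑ i, 2 * (a i + s * w i) * w i) s := by
  unfold nsq
  refine HasDerivAt.fun_sum fun i _ => ?_
  have h2 : HasDerivAt (fun t : ℝ => a i + t * w i) (w i) s := by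
    simpa using ((hasDerivAt_id s).mul_const (w i)).const_add (a i)
  have h3 := h2.fun_pow 2
  have h4 : HasDerivAt (fun t : ℝ => (a + t • w) i ^ 2)
      (((2 : ℕ) : ℝ) * (a i + s * w i) ^ (2 - 1) * w i) s := h3
  refine h4.congr_deriv ?_
  simp

/-- the second derivative test in the velocities -/
private lemma strL_hess {g : Vec d → ℝ} (hg : ContDiff ℝ 2 g) {c α β : ℝ} {v v₁ : Vec d}
    (hmin : ∀ᶠ u in 𝓝 v, g v - c * Real.exp (-(α * (nsq (v - v₁) + β))) ≤
      g u - c * Real.exp (-(α * (nsq (u - v₁) + β)))) (w : Vec d) :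
    ∑ i, ∑ j, w i * w j * (c * (Real.exp (-(α * (nsq (v - v₁) + β))) *
      (4 * α ^ 2 * ((v - v₁) i * (v - v₁) j) - if i = j then 2 * α else 0)) -
        pd i (pd j g) v) ≤ 0 := by
  have hgd : Differentiable ℝ g := hg.differentiable (by norm_num)
  have hpd : ∀ j, Differentiable ℝ (pd j g) := by
    intro j
    have h1 : ContDiff ℝ 1 (fderiv ℝ g) := hg.fderiv_right (by norm_num)
    have h2 : ContDiff ℝ 1 (pd j g) := h1.clm_apply contDiff_const
    exact h2.differentiable (by norm_num)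
  have hG : ∀ t : ℝ, HasDerivAt (fun t : ℝ => g (v + t • w)) (∑ j, w j * pd j g (v + t • w)) t :=
    fun t => strL_line_deriv (hgd _)
  have hG2 : HasDerivAt (fun t : ℝ => ∑ j, w j * pd j g (v + t • w))
      (∑ i, ∑ j, w i * w j * pd i (pd j g) v) 0 := by
    have h := HasDerivAt.fun_sum (u := (Finset.univ : Finset (Fin d)))
      (A := fun j (t : ℝ) => w j * pd j g (v + t • w))
      (A' := fun j => w j * ∑ i, w i * pd i (pd j g) (v + (0 : ℝ) • w)) (x := 0)
      fun j _ => (strL_line_deriv (v := v) (w := w) (t := 0) (hpd j _)).const_mul (w j)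
    refine h.congr_deriv ?_
    rw [Finset.sum_comm]
    refine Finset.sum_congr rfl fun j _ => ?_
    rw [Finset.mul_sum]
    refine Finset.sum_congr rfl fun i _ => ?_
    rw [zero_smul, add_zero]
    ring
  -- the exponential
  set ξ : Vec d := v - v₁ with hξ
  set S : ℝ := ∑ i, ξ i * w i with hS
  have hq : ∀ t : ℝ, HasDerivAt (fun t : ℝ => nsq (ξ + t • w) + β)
      (2 * ∑ i, (ξ i + t * w i) * w i) t := by
    intro t
    refine ((strL_nsq_deriv ξ w t).add_const β).congr_deriv ?_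
    rw [Finset.mul_sum]
    exact Finset.sum_congr rfl fun i _ => by ring
  have hq2 : HasDerivAt (fun t : ℝ => 2 * ∑ i, (ξ i + t * w i) * w i) (2 * nsq w) 0 := by
    have h1 : HasDerivAt (fun t : ℝ => ∑ i, (ξ i + t * w i) * w i) (nsq w) 0 := by
      unfold nsq
      refine HasDerivAt.fun_sum fun i _ => ?_
      have h2 : HasDerivAt (fun t : ℝ => ξ i + t * w i) (w i) 0 := by
        simpa using ((hasDerivAt_id (0 : ℝ)).mul_const (w i)).const_add (ξ i)
      refine (h2.mul_const (w i)).congr_deriv ?_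
      ring
    exact h1.const_mul 2
  have hE : ∀ t : ℝ, HasDerivAt (fun t : ℝ => c * Real.exp (-(α * (nsq (ξ + t • w) + β))))
      (c * (Real.exp (-(α * (nsq (ξ + t • w) + β))) *
        -(α * (2 * ∑ i, (ξ i + t * w i) * w i)))) t := fun t =>
    (((hq t).const_mul α).fun_neg.exp).const_mul c
  have hE2 : HasDerivAt (fun t : ℝ => c * (Real.exp (-(α * (nsq (ξ + t • w) + β))) *
        -(α * (2 * ∑ i, (ξ i + t * w i) * w i))))
      (c * (Real.exp (-(α * (nsq ξ + β))) * (4 * α ^ 2 * S ^ 2 - 2 * α * nsq w))) 0 := by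
    have h1 := ((((hq 0).const_mul α).fun_neg.exp).fun_mul ((hq2.const_mul α).fun_neg)).const_mul c
    refine h1.congr_deriv ?_
    simp only [zero_smul, add_zero, zero_mul]
    rw [← hS]
    ring
  have hcont : Tendsto (fun t : ℝ => v + t • w) (𝓝 0) (𝓝 v) := by
    have h1 : Continuous fun t : ℝ => v + t • w := by fun_prop
    have h2 := h1.tendsto 0
    simpa using h2
  have hfin := strL_second_test (fun t => (hE t).fun_sub (hG t)) (hE2.fun_sub hG2) (by
    have h1 := hcont.eventually hmin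
    filter_upwards [h1] with t ht
    simp only [zero_smul, add_zero]
    have e : v + t • w - v₁ = ξ + t • w := by rw [hξ]; abel
    rw [e] at ht
    linarith)
  have e2 : ∑ i, ∑ j, w i * w j * (c * (Real.exp (-(α * (nsq ξ + β))) *
      (4 * α ^ 2 * (ξ i * ξ j) - if i = j then 2 * α else 0)) - pd i (pd j g) v) =
      c * (Real.exp (-(α * (nsq ξ + β))) * (4 * α ^ 2 * S ^ 2 - 2 * α * nsq w)) -
        ∑ i, ∑ j, w i * w j * pd i (pd j g) v := by
    have e3 : S ^ 2 = ∑ i, ∑ j, w i * w j * (ξ i * ξ j) := by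
      rw [hS, pow_two, Finset.sum_mul_sum]
      exact Finset.sum_congr rfl fun i _ => Finset.sum_congr rfl fun j _ => by ring
    have e4 : ∑ i, ∑ j, w i * w j * (if i = j then 2 * α else 0) = 2 * α * nsq w := by
      unfold nsq
      rw [Finset.mul_sum]
      refine Finset.sum_congr rfl fun i _ => ?_
      simp only [mul_ite, mul_zero, Finset.sum_ite_eq, Finset.mem_univ, if_true]
      ring
    rw [e3, ← e4]
    have e5 : ∀ A B : ℝ, ∀ X Y Z : Fin d → Fin d → ℝ, c * (A * (B * ∑ i, ∑ j, X i j -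
        ∑ i, ∑ j, Y i j)) - ∑ i, ∑ j, Z i j =
        ∑ i, ∑ j, (c * (A * (B * X i j - Y i j)) - Z i j) := by
      intro A B X Y Z
      simp only [Finset.sum_sub_distrib, ← Finset.mul_sum]
    rw [e5]
    exact Finset.sum_congr rfl fun i _ => Finset.sum_congr rfl fun j _ => by ring
  rw [e2]
  exact hfin

private lemma strL_conv_sum {k : Fin d → Fin d → Vec d → ℝ} {f : Vec d → ℝ} (v : Vec d)
    (M : Fin d → Fin d → ℝ) (hk : ∀ i j, Integrable fun z => k i j z • f (v - z)) :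
    ∑ i, ∑ j, conv (k i j) f v * M i j = ∫ z, f (v - z) * ∑ i, ∑ j, k i j z * M i j := by
  have e : ∀ z, f (v - z) * ∑ i, ∑ j, k i j z * M i j =
      ∑ i, ∑ j, (k i j z • f (v - z)) * M i j := by
    intro z
    rw [Finset.mul_sum]
    refine Finset.sum_congr rfl fun i _ => ?_
    rw [Finset.mul_sum]
    refine Finset.sum_congr rfl fun j _ => ?_
    rw [smul_eq_mul]
    ring
  simp_rw [e]
  rw [integral_finsetSum]
  · refine Finset.sum_congr rfl fun i _ => ?_
    rw [integral_finsetSum]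
    · refine Finset.sum_congr rfl fun j _ => ?_
      rw [integral_mul_const]
      rfl
    · exact fun j _ => (hk i j).mul_const _
  · exact fun i _ => integrable_finsetSum _ fun j _ => (hk i j).mul_const _

private lemma strL_conv_nonpos {γ : ℝ} (h1 : -2 < γ) (h2 : γ ≤ 0) {g : Vec d → ℝ} (hg : Nice g)
    (h0 : ∀ u, 0 ≤ g u) (v : Vec d) {M : Fin d → Fin d → ℝ}
    (hM : ∀ w : Vec d, ∑ i, ∑ j, w i * w j * M i j ≤ 0) :
    ∑ i, ∑ j, conv (fun z => landauA γ z i j) g v * M i j ≤ 0 := by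
  rw [strL_conv_sum (k := fun i j z => landauA γ z i j) v M fun i j =>
    (kern_landauA h1 h2 i j).integrable hg.cont hg.rd v]
  refine integral_nonpos fun z => ?_
  have h3 := landauA_quad (le_refl (0 : ℝ)) (fun w => by rw [zero_mul]; exact hM w) γ z
  rw [mul_zero, zero_mul] at h3
  exact mul_nonpos_of_nonneg_of_nonpos (h0 _) h3

/-- the operator at a touching point of `f - c exp (-α D)` from below -/
private lemma strL_op {γ : ℝ} (h1 : -2 < γ) (h2 : γ ≤ 0) {g : Vec d → ℝ} (hg : Nice g)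
    (h0 : ∀ u, 0 ≤ g u) {c α β : ℝ} {v v₁ : Vec d}
    (hmin : ∀ᶠ u in 𝓝 v, g v - c * Real.exp (-(α * (nsq (v - v₁) + β))) ≤
      g u - c * Real.exp (-(α * (nsq (u - v₁) + β)))) :
    c * Real.exp (-(α * (nsq (v - v₁) + β))) *
      (4 * α ^ 2 * ∑ i, ∑ j, conv (fun z => landauA γ z i j) g v * ((v - v₁) i * (v - v₁) j) -
        2 * α * ∑ i, conv (fun z => landauA γ z i i) g v) -
      g v * ∑ i, ∑ j, conv (fun z => landauA γ z i j) (pd i (pd j g)) v ≤ landauQ γ g v := by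
  have h3 := strL_conv_nonpos h1 h2 hg h0 v (strL_hess hg.smooth hmin)
  set e : ℝ := Real.exp (-(α * (nsq (v - v₁) + β))) with he
  have e1 : ∑ i, ∑ j, conv (fun z => landauA γ z i j) g v *
      (c * (e * (4 * α ^ 2 * ((v - v₁) i * (v - v₁) j) - if i = j then 2 * α else 0)) -
        pd i (pd j g) v) =
      c * e * (4 * α ^ 2 * ∑ i, ∑ j, conv (fun z => landauA γ z i j) g v *
        ((v - v₁) i * (v - v₁) j) - 2 * α * ∑ i, conv (fun z => landauA γ z i i) g v) -
      ∑ i, ∑ j, conv (fun z => landauA γ z i j) g v * pd i (pd j g) v := by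
    have e4 : 2 * α * ∑ i, conv (fun z => landauA γ z i i) g v =
        ∑ i, ∑ j, conv (fun z => landauA γ z i j) g v * (if i = j then 2 * α else 0) := by
      rw [Finset.mul_sum]
      refine Finset.sum_congr rfl fun i _ => ?_
      simp only [mul_ite, mul_zero, Finset.sum_ite_eq, Finset.mem_univ, if_true]
      ring
    rw [e4]
    have e5 : ∀ A B : ℝ, ∀ X Y Z : Fin d → Fin d → ℝ, A * (B * ∑ i, ∑ j, X i j -
        ∑ i, ∑ j, Y i j) - ∑ i, ∑ j, Z i j =
        ∑ i, ∑ j, (A * (B * X i j - Y i j) - Z i j) := by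
      intro A B X Y Z
      simp only [Finset.sum_sub_distrib, ← Finset.mul_sum]
    rw [e5]
    exact Finset.sum_congr rfl fun i _ => Finset.sum_congr rfl fun j _ => by ring
  rw [e1] at h3
  have hQ : landauQ γ g v = (∑ i, ∑ j, conv (fun z => landauA γ z i j) g v * pd i (pd j g) v) -
      g v * ∑ i, ∑ j, conv (fun z => landauA γ z i j) (pd i (pd j g)) v := by
    rw [landauQ_eq h1 h2 hg v, Finset.mul_sum, ← Finset.sum_sub_distrib]
    refine Finset.sum_congr rfl fun i _ => ?_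
    rw [Finset.mul_sum, ← Finset.sum_sub_distrib]
  rw [hQ]
  linarith

/-- the transport operator at the touching point -/
private lemma strL_first {T : ℝ} {Q f : ℝ → Vec d → Vec d → ℝ} (hf : IsClassicalSol T Q f)
    {t : ℝ} (ht : t ∈ Ioo 0 T) {x v x₀ v₁ : Vec d} {t₀ N c α : ℝ}
    (hmin : ∀ᶠ p in 𝓝 ((t, x, v) : ℝ × Vec d × Vec d),
      f t x v - c * Real.exp (-(α * (nsq (v - v₁) + N * (nsq (x - x₀) + (t - t₀) ^ 2)))) ≤
      f p.1 p.2.1 p.2.2 -
        c * Real.exp (-(α * (nsq (p.2.2 - v₁) + N * (nsq (p.2.1 - x₀) + (p.1 - t₀) ^ 2))))) :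
    Q t x v = -(c * Real.exp (-(α * (nsq (v - v₁) + N * (nsq (x - x₀) + (t - t₀) ^ 2)))) *
      (2 * α * N * (∑ i, (x - x₀) i * v i + (t - t₀)))) := by
  have hch := hf.hasDerivAt_char ht (x - t • v) v
  rw [sub_add_cancel] at hch
  have hD : HasDerivAt (fun s : ℝ => nsq (v - v₁) + N * (nsq ((x - t • v - x₀) + s • v) +
      (s - t₀) ^ 2)) (N * (2 * ∑ i, (x - x₀) i * v i + 2 * (t - t₀))) t := by
    have h1 := strL_nsq_deriv (x - t • v - x₀) v t
    have h2 : HasDerivAt (fun s : ℝ => (s - t₀) ^ 2) (2 * (t - t₀)) t := by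
      have h3 := ((hasDerivAt_id t).sub_const t₀).fun_pow 2
      refine h3.congr_deriv ?_
      simp
    refine (((h1.fun_add h2).const_mul N).const_add (nsq (v - v₁))).congr_deriv ?_
    rw [Finset.mul_sum]
    congr 2
    refine Finset.sum_congr rfl fun i _ => ?_
    simp only [Pi.sub_apply, Pi.smul_apply, smul_eq_mul]
    ring
  have hE := ((hD.const_mul α).fun_neg.exp).const_mul c
  have hH := hch.fun_sub hE
  have hcurve : Tendsto (fun s : ℝ => ((s, x - t • v + s • v, v) : ℝ × Vec d × Vec d)) (𝓝 t)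
      (𝓝 (t, x, v)) := by
    have h1 : Continuous fun s : ℝ => ((s, x - t • v + s • v, v) : ℝ × Vec d × Vec d) := by
      fun_prop
    have h2 := h1.tendsto t
    rwa [sub_add_cancel] at h2
  have hev := hcurve.eventually hmin
  have e0 : x - t • v - x₀ + t • v = x - x₀ := by abel
  have hloc : IsLocalMin (fun s : ℝ => f s (x - t • v + s • v) v - c * Real.exp (-(α *
      (nsq (v - v₁) + N * (nsq ((x - t • v - x₀) + s • v) + (s - t₀) ^ 2))))) t := by
    filter_upwards [hev] with s hs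
    have e1 : x - t • v + s • v - x₀ = x - t • v - x₀ + s • v := by abel
    simp only [e1] at hs
    simp only [sub_add_cancel, e0]
    exact hs
  have h0 := hloc.hasDerivAt_eq_zero hH
  rw [e0] at h0
  linear_combination h0

private lemma strL_conv_le {k : Vec d → ℝ} {A : ℝ} {h : Vec d → ℝ} (hk : Kern k A) {D : ℝ}
    (hD : 0 ≤ D) (hb : ∀ v, ‖h v‖ ≤ D * ((1 + ‖v‖) ^ (d + 3))⁻¹) (v : Vec d) :
    |conv k h v| ≤ A * D * (1 + ‖v‖) ^ (d + 3) * ∫ z, wt d z := by
  unfold conv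
  rw [← Real.norm_eq_abs, ← integral_const_mul]
  exact norm_integral_le_of_norm_le (integrable_wt.const_mul _)
    (Eventually.of_forall fun z => hk.le hD hb v z)

private lemma strL_pdpd {g : Vec d → ℝ} (hg : Nice g) (i j : Fin d) (v : Vec d) :
    |pd i (pd j g) v| ≤ ‖fderiv ℝ (fderiv ℝ g) v‖ := by
  have e : pd i (pd j g) v = fderiv ℝ (fderiv ℝ g) v (Pi.single i 1) (Pi.single j 1) := by
    change fderiv ℝ (pd j g) v (Pi.single i 1) = _
    rw [hg.fderiv_pd j v]
    rfl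
  rw [e, ← Real.norm_eq_abs]
  have h1 := (fderiv ℝ (fderiv ℝ g) v (Pi.single i 1)).le_opNorm (Pi.single j 1 : Vec d)
  have h2 := (fderiv ℝ (fderiv ℝ g) v).le_opNorm (Pi.single i 1 : Vec d)
  rw [norm_single_one, mul_one] at h1 h2
  exact h1.trans h2

/-- uniform bounds of the coefficients -/
private lemma strL_bound {γ : ℝ} (h1 : -2 < γ) (h2 : γ ≤ 0) {T : ℝ}
    {Q f : ℝ → Vec d → Vec d → ℝ} (hf : IsClassicalSol T Q f) {T₀ T₁ : ℝ} (hT0 : 0 < T₀)
    (hT1 : T₁ < T) {V : ℝ} (hV : 0 ≤ V) :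
    ∃ L : ℝ, 0 ≤ L ∧ ∀ t ∈ Icc T₀ T₁, ∀ x v : Vec d, nsq v ≤ V →
      ∑ i, conv (fun z => landauA γ z i i) (f t x) v ≤ L ∧
      ∑ i, ∑ j, conv (fun z => landauA γ z i j) (pd i (pd j (f t x))) v ≤ L := by
  obtain ⟨C1, hC1⟩ := hf.decay T₁ hT1 (d + 3)
  obtain ⟨C2, hC2⟩ := hf.decay12 T₀ hT0 T₁ hT1 (d + 3)
  set D : ℝ := |C1| + |C2| with hDdef
  have hD : 0 ≤ D := by positivity
  set I : ℝ := ∫ z : Vec d, wt d z with hI
  have hI0 : 0 ≤ I := integral_nonneg fun z => wt_nonneg z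
  set Y : ℝ := 2 * (1 + V) with hY
  have hY0 : 0 ≤ Y := by positivity
  set K : ℝ := 2 * ((d : ℝ) + 1) * D * Y ^ (d + 3) * I with hK
  have hK0 : 0 ≤ K := by positivity
  refine ⟨d * K + d * (d * K), by positivity, fun t ht x v hv => ?_⟩
  have htT : t ∈ Ioo 0 T := ⟨hT0.trans_le ht.1, ht.2.trans_lt hT1⟩
  have hg := hf.nice htT x
  have hw : (1 + ‖v‖) ^ (d + 3) ≤ Y ^ (d + 3) := by
    refine pow_le_pow_left₀ (w_pos v).le ?_ _
    have h3 := norm_le_nsq v
    have h4 := one_le_w v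
    nlinarith
  have b1 : ∀ u, ‖f t x u‖ ≤ D * ((1 + ‖u‖) ^ (d + 3))⁻¹ := by
    intro u
    rw [← div_eq_mul_inv, le_div_iff₀ (pow_pos (w_pos u) _), mul_comm,
      Real.norm_eq_abs, abs_of_nonneg (hf.nonneg t ⟨htT.1.le, htT.2⟩ x u)]
    refine (hC1 t ⟨htT.1.le, ht.2⟩ x u).trans ((le_abs_self _).trans ?_)
    rw [hDdef]
    linarith [abs_nonneg C2]
  have b2 : ∀ i j u, ‖pd i (pd j (f t x)) u‖ ≤ D * ((1 + ‖u‖) ^ (d + 3))⁻¹ := by
    intro i j u
    rw [← div_eq_mul_inv, le_div_iff₀ (pow_pos (w_pos u) _), mul_comm]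
    have h3 := strL_pdpd hg i j u
    have h4 := hf.slice_fderiv2 htT x u
    have h5 := hC2 t ht x u
    have h6 : ‖pd i (pd j (f t x)) u‖ ≤ derivs12 f t x u := by
      rw [Real.norm_eq_abs]
      refine h3.trans (h4.trans ?_)
      unfold derivs12 derivs
      linarith [norm_nonneg (fderiv ℝ (unc f) (t, x, u))]
    calc (1 + ‖u‖) ^ (d + 3) * ‖pd i (pd j (f t x)) u‖
        ≤ (1 + ‖u‖) ^ (d + 3) * derivs12 f t x u :=
          mul_le_mul_of_nonneg_left h6 (pow_pos (w_pos u) _).le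
      _ ≤ C2 := h5
      _ ≤ D := by
          rw [hDdef]
          linarith [abs_nonneg C1, le_abs_self C2]
  have c0 : ∀ (i j : Fin d) (h : Vec d → ℝ), (∀ u, ‖h u‖ ≤ D * ((1 + ‖u‖) ^ (d + 3))⁻¹) →
      conv (fun z => landauA γ z i j) h v ≤ K := by
    intro i j h hb
    have h3 := strL_conv_le (kern_landauA h1 h2 i j) hD hb v
    refine (le_abs_self _).trans (h3.trans ?_)
    rw [hK]
    gcongr
  constructor
  · calc ∑ i, conv (fun z => landauA γ z i i) (f t x) v ≤ ∑ _i : Fin d, K :=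
          Finset.sum_le_sum fun i _ => c0 i i _ b1
      _ = d * K := by simp
      _ ≤ _ := by
          have : 0 ≤ (d : ℝ) * (d * K) := by positivity
          linarith
  · calc ∑ i, ∑ j, conv (fun z => landauA γ z i j) (pd i (pd j (f t x))) v
        ≤ ∑ _i : Fin d, ∑ _j : Fin d, K :=
          Finset.sum_le_sum fun i _ => Finset.sum_le_sum fun j _ => c0 i j _ (b2 i j)
      _ = d * (d * K) := by simp
      _ ≤ _ := by
          have : 0 ≤ (d : ℝ) * K := by positivity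
          linarith

theorem strong_landau (hd : 2 ≤ d) {γ : ℝ} (h1 : -2 < γ) (h2 : γ ≤ 0) {T : ℝ}
    {f : ℝ → Vec d → Vec d → ℝ} (hf : IsLandauSol γ T f) {t₀ : ℝ} (ht₀ : t₀ ∈ Ioo 0 T)
    (x₀ v₁ v₀ : Vec d) (h : 0 < f t₀ x₀ v₁) : 0 < f t₀ x₀ v₀ := by
  -- a neighbourhood where `f` is bounded below
  set c : ℝ := f t₀ x₀ v₁ / 4 with hc
  have hc0 : 0 < c := by rw [hc]; positivity
  have hcont : ContinuousAt (unc f) (t₀, x₀, v₁) := (hf.cda ht₀ x₀ v₁).continuousAt
  have hnb : {p : ℝ × Vec d × Vec d | 2 * c < unc f p ∧ p.1 ∈ Ioo 0 T} ∈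
      𝓝 ((t₀, x₀, v₁) : ℝ × Vec d × Vec d) := by
    refine Filter.inter_mem ?_ ?_
    · refine hcont.eventually (lt_mem_nhds ?_)
      change 2 * c < f t₀ x₀ v₁
      rw [hc]
      linarith
    · exact continuous_fst.continuousAt.preimage_mem_nhds (isOpen_Ioo.mem_nhds ht₀)
  obtain ⟨ε, hε, hball⟩ := Metric.mem_nhds_iff.1 hnb
  obtain ⟨r, hr0, hr1, hrε⟩ : ∃ r : ℝ, 0 < r ∧ r ≤ 1 ∧ r < ε :=
    ⟨min 1 (ε / 2), lt_min one_pos (by linarith), min_le_left _ _,
      (min_le_right _ _).trans_lt (by linarith)⟩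
  have hnorm : ∀ z : Vec d, nsq z ≤ r ^ 2 → ‖z‖ ≤ r := fun z hz =>
    (pow_le_pow_iff_left₀ (norm_nonneg z) hr0.le two_ne_zero).1 ((norm_sq_le_sq z).trans hz)
  have hlow : ∀ t x v, |t - t₀| ≤ r → nsq (x - x₀) ≤ r ^ 2 → nsq (v - v₁) ≤ r ^ 2 →
      2 * c < f t x v ∧ t ∈ Ioo 0 T := by
    intro t x v h3 h4 h5
    have h6 : ((t, x, v) : ℝ × Vec d × Vec d) ∈ Metric.ball (t₀, x₀, v₁) ε := by
      rw [Metric.mem_ball, dist_eq_norm, Prod.norm_def, Prod.norm_def]
      refine lt_of_le_of_lt (max_le ?_ (max_le ?_ ?_)) hrε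
      · exact h3
      · exact hnorm _ h4
      · exact hnorm _ h5
    exact hball h6
  have hz0 : nsq (x₀ - x₀) ≤ r ^ 2 := by
    rw [sub_self]
    have : nsq (0 : Vec d) = 0 := by simp [nsq]
    rw [this]
    positivity
  have hzv : nsq (v₁ - v₁) ≤ r ^ 2 := by
    rw [sub_self]
    have : nsq (0 : Vec d) = 0 := by simp [nsq]
    rw [this]
    positivity
  have htint : ∀ t, |t - t₀| ≤ r → t ∈ Ioo 0 T := fun t h3 => (hlow t x₀ v₁ h3 hz0 hzv).2
  by_cases hv0 : nsq (v₀ - v₁) ≤ r ^ 2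
  · have h3 := (hlow t₀ x₀ v₀ (by rw [sub_self, abs_zero]; exact hr0.le) hz0 hv0).1
    linarith
  rw [not_le] at hv0
  -- constants
  set R : ℝ := nsq (v₀ - v₁) + 1 with hR
  have hR1 : 1 ≤ R := by
    have := sq_nonneg' (v₀ - v₁)
    linarith
  set N : ℝ := R / r ^ 2 with hN
  have hr2 : 0 < r ^ 2 := by positivity
  have hN0 : 0 < N := by positivity
  have hNr : N * r ^ 2 = R := by rw [hN]; field_simp
  have ht0r : 0 < t₀ - r := (htint (t₀ - r) (by
    rw [show t₀ - r - t₀ = -r by ring, abs_neg, abs_of_pos hr0])).1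
  have ht1r : t₀ + r < T := (htint (t₀ + r) (by
    rw [show t₀ + r - t₀ = r by ring, abs_of_pos hr0])).2
  set V : ℝ := 2 * R + 2 * nsq v₁ with hVdef
  have hV0 : 0 ≤ V := by
    have := sq_nonneg' v₁
    linarith
  have hVb : ∀ v : Vec d, nsq (v - v₁) ≤ R → nsq v ≤ V := by
    intro v hv
    have h3 : nsq v ≤ 2 * nsq (v - v₁) + 2 * nsq v₁ := by
      unfold nsq
      rw [Finset.mul_sum, Finset.mul_sum, ← Finset.sum_add_distrib]
      refine Finset.sum_le_sum fun i _ => ?_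
      rw [Pi.sub_apply]
      nlinarith [sq_nonneg (v i - 2 * v₁ i)]
    linarith
  obtain ⟨L, hL0, hL⟩ := strL_bound h1 h2 hf ht0r ht1r hV0
  obtain ⟨lam, hlam, hell⟩ := ell_low hd h1 h2 (c := 2 * c) (r := r) (ρ := Real.sqrt R)
    (by linarith) hr0 (Real.sqrt_pos.2 (by linarith)) v₁
  rw [Real.sq_sqrt (by linarith)] at hell
  set B : ℝ := N * (3 + V) with hB
  have hB0 : 0 ≤ B := by positivity
  set α : ℝ := (B + 3 * L) / (4 * lam) + 1 with hα
  have hα1 : 1 ≤ α := by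
    have : 0 ≤ (B + 3 * L) / (4 * lam) := by positivity
    linarith
  have hαl : B + 3 * L < 4 * α * lam := by
    have : 4 * α * lam = B + 3 * L + 4 * lam := by
      rw [hα]
      field_simp
    linarith
  -- the comparison function
  obtain ⟨D, hDdef⟩ : ∃ D : ℝ × Vec d × Vec d → ℝ, ∀ p, D p =
      nsq (p.2.2 - v₁) + N * (nsq (p.2.1 - x₀) + (p.1 - t₀) ^ 2) := ⟨_, fun _ => rfl⟩
  have hDc : Continuous D := by
    have : D = fun p => nsq (p.2.2 - v₁) + N * (nsq (p.2.1 - x₀) + (p.1 - t₀) ^ 2) := funext hDdef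
    rw [this]
    have hs : Continuous (nsq : Vec d → ℝ) := continuous_sq
    exact (hs.comp (by fun_prop)).add (continuous_const.mul ((hs.comp (by fun_prop)).add
      (by fun_prop)))
  have hSc : Continuous fun p : ℝ × Vec d × Vec d => nsq (p.2.2 - v₁) :=
    continuous_sq.comp (by fun_prop)
  set Ω : Set (ℝ × Vec d × Vec d) := {p | D p ≤ R ∧ r ^ 2 ≤ nsq (p.2.2 - v₁)} with hΩ
  have hin : ∀ p : ℝ × Vec d × Vec d, D p ≤ R → |p.1 - t₀| ≤ r ∧ nsq (p.2.1 - x₀) ≤ r ^ 2 ∧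
      nsq (p.2.2 - v₁) ≤ R := by
    intro p hp
    rw [hDdef] at hp
    have h3 := sq_nonneg' (p.2.2 - v₁)
    have h4 := sq_nonneg' (p.2.1 - x₀)
    have h5 : nsq (p.2.1 - x₀) + (p.1 - t₀) ^ 2 ≤ r ^ 2 := by
      have h6 : N * (nsq (p.2.1 - x₀) + (p.1 - t₀) ^ 2) ≤ N * r ^ 2 := by
        rw [hNr]; linarith
      exact le_of_mul_le_mul_left h6 hN0
    have h7 : 0 ≤ N * (nsq (p.2.1 - x₀) + (p.1 - t₀) ^ 2) := by positivity
    refine ⟨abs_le_of_sq_le_sq (by nlinarith) hr0.le, ?_, by linarith⟩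
    nlinarith [sq_nonneg (p.1 - t₀)]
  have hΩcl : IsClosed Ω := (isClosed_le hDc continuous_const).inter
    (isClosed_le continuous_const hSc)
  have hΩb : Bornology.IsBounded Ω := by
    refine (Metric.isBounded_closedBall (x := ((t₀, x₀, v₁) : ℝ × Vec d × Vec d))
      (r := max r (Real.sqrt R))).subset fun p hp => ?_
    obtain ⟨h3, h4, h5⟩ := hin p hp.1
    rw [Metric.mem_closedBall, dist_eq_norm, Prod.norm_def, Prod.norm_def]
    refine max_le (h3.trans (le_max_left _ _)) (max_le ((hnorm _ h4).trans (le_max_left _ _)) ?_)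
    refine le_trans ?_ (le_max_right _ _)
    exact Real.le_sqrt_of_sq_le ((norm_sq_le_sq _).trans h5)
  have hΩc : IsCompact Ω := Metric.isCompact_of_isClosed_isBounded hΩcl hΩb
  set F : ℝ × Vec d × Vec d → ℝ := fun p => unc f p - c * Real.exp (-(α * D p)) with hF
  have hFc : ContinuousOn F Ω := by
    refine ContinuousOn.sub ?_ ?_
    · refine hf.isCont.mono fun p hp => ?_
      have h3 := htint _ (hin p hp.1).1
      exact ⟨⟨h3.1.le, h3.2⟩, mem_univ _⟩
    · exact (continuous_const.mul (Real.continuous_exp.comp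
        (continuous_const.mul hDc).neg)).continuousOn
  have hP0 : ((t₀, x₀, v₀) : ℝ × Vec d × Vec d) ∈ Ω := by
    have e : D (t₀, x₀, v₀) = nsq (v₀ - v₁) := by
      rw [hDdef]
      simp [nsq]
    refine ⟨?_, hv0.le⟩
    rw [e]
    linarith
  obtain ⟨p, hpΩ, hpmin⟩ := hΩc.exists_isMinOn ⟨_, hP0⟩ hFc
  -- the claim
  have hclaim : -(c * Real.exp (-(α * R))) ≤ F p := by
    by_contra hneg
    rw [not_le] at hneg
    obtain ⟨h3, h4, h5⟩ := hin p hpΩ.1
    have hpt := htint _ h3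
    have hfp0 : 0 ≤ unc f p := hf.nonneg p.1 ⟨hpt.1.le, hpt.2⟩ p.2.1 p.2.2
    have hDp0 : 0 ≤ D p := by
      rw [hDdef]
      have a1 := sq_nonneg' (p.2.2 - v₁)
      have a2 := sq_nonneg' (p.2.1 - x₀)
      positivity
    have hα0 : 0 < α := by linarith
    have hDlt : D p < R := by
      refine lt_of_le_of_ne hpΩ.1 fun h6 => ?_
      rw [hF] at hneg
      simp only [h6] at hneg
      linarith
    have hSlt : r ^ 2 < nsq (p.2.2 - v₁) := by
      refine lt_of_le_of_ne hpΩ.2 fun h6 => ?_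
      have h7 := (hlow p.1 p.2.1 p.2.2 h3 h4 h6.ge).1
      have h8 : Real.exp (-(α * D p)) ≤ 1 := Real.exp_le_one_iff.2 (by
        have := mul_nonneg hα0.le hDp0
        linarith)
      have h9 := Real.exp_pos (-(α * R))
      have h10 : F p = f p.1 p.2.1 p.2.2 - c * Real.exp (-(α * D p)) := rfl
      rw [h10] at hneg
      have h11 : c * Real.exp (-(α * D p)) ≤ c * 1 := mul_le_mul_of_nonneg_left h8 hc0.le
      have h12 : 0 < c * Real.exp (-(α * R)) := by positivity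
      linarith
    have hev : ∀ᶠ q in 𝓝 p, F p ≤ F q := by
      have o1 : {q | D q < R} ∈ 𝓝 p := (isOpen_lt hDc continuous_const).mem_nhds hDlt
      have o2 : {q : ℝ × Vec d × Vec d | r ^ 2 < nsq (q.2.2 - v₁)} ∈ 𝓝 p :=
        (isOpen_lt continuous_const hSc).mem_nhds hSlt
      filter_upwards [o1, o2] with q hq1 hq2
      exact hpmin ⟨le_of_lt hq1, le_of_lt hq2⟩
    obtain ⟨t, x, v⟩ := p
    simp only at h3 h4 h5 hpt hSlt
    have htI : t ∈ Icc (t₀ - r) (t₀ + r) := by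
      rw [abs_le] at h3
      exact ⟨by linarith [h3.1], by linarith [h3.2]⟩
    have hv : nsq v ≤ V := hVb v h5
    set β : ℝ := N * (nsq (x - x₀) + (t - t₀) ^ 2) with hβ
    set e : ℝ := Real.exp (-(α * (nsq (v - v₁) + β))) with he
    have he0 : 0 < e := Real.exp_pos _
    have hg := hf.nice hpt x
    have hg0 : ∀ u, 0 ≤ f t x u := fun u => hf.nonneg t ⟨hpt.1.le, hpt.2⟩ x u
    -- first order
    have q1 := strL_first hf hpt (x := x) (v := v) (x₀ := x₀) (v₁ := v₁) (t₀ := t₀) (N := N)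
      (c := c) (α := α) (by
        filter_upwards [hev] with q hq
        simp only [hF, hDdef, unc] at hq
        exact hq)
    rw [← hβ, ← he] at q1
    -- second order
    have hcv : Tendsto (fun u : Vec d => ((t, x, u) : ℝ × Vec d × Vec d)) (𝓝 v)
        (𝓝 (t, x, v)) := (by fun_prop : Continuous fun u : Vec d =>
          ((t, x, u) : ℝ × Vec d × Vec d)).tendsto v
    have q2 := strL_op h1 h2 hg hg0 (c := c) (α := α) (β := β) (v := v) (v₁ := v₁) (by
      filter_upwards [hcv.eventually hev] with u hu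
      simp only [hF, hDdef, unc] at hu
      exact hu)
    rw [← he] at q2
    obtain ⟨q3, q4⟩ := hL t htI x v hv
    have q5 := hell (f t x) hg hg0 (fun u hu => (hlow t x u h3 h4 hu).1.le) v hSlt.le h5
    set S := ∑ i, ∑ j, conv (fun z => landauA γ z i j) (f t x) v * ((v - v₁) i * (v - v₁) j)
      with hS
    set A := ∑ i, conv (fun z => landauA γ z i i) (f t x) v with hA
    set Z := ∑ i, ∑ j, conv (fun z => landauA γ z i j) (pd i (pd j (f t x))) v with hZ
    have hfe : f t x v ≤ c * e := by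
      have h6 : F (t, x, v) = f t x v - c * e := by
        simp only [hF, hDdef, unc]
        rfl
      rw [h6] at hneg
      have h7 := Real.exp_pos (-(α * R))
      have h8 : 0 < c * Real.exp (-(α * R)) := by positivity
      linarith
    -- the transport term
    have hdot : -(∑ i, (x - x₀) i * v i) ≤ (1 + V) / 2 := by
      have h6 : -(∑ i, (x - x₀) i * v i) ≤ (nsq (x - x₀) + nsq v) / 2 := by
        unfold nsq
        rw [← Finset.sum_neg_distrib, ← Finset.sum_add_distrib, Finset.sum_div]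
        refine Finset.sum_le_sum fun i _ => ?_
        nlinarith [sq_nonneg ((x - x₀) i + v i)]
      have h7 : r ^ 2 ≤ 1 := by nlinarith
      linarith
    have htt : -(t - t₀) ≤ 1 := by
      rw [abs_le] at h3
      linarith [h3.1]
    have hQle : landauQ γ (f t x) v ≤ c * e * (α * B) := by
      rw [q1]
      have h6 : -(∑ i, (x - x₀) i * v i + (t - t₀)) ≤ (3 + V) / 2 := by linarith
      have h7 : 0 ≤ c * e * (2 * α * N) := by positivity
      have h8 := mul_le_mul_of_nonneg_left h6 h7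
      calc -(c * e * (2 * α * N * (∑ i, (x - x₀) i * v i + (t - t₀))))
          = c * e * (2 * α * N) * -(∑ i, (x - x₀) i * v i + (t - t₀)) := by ring
        _ ≤ c * e * (2 * α * N) * ((3 + V) / 2) := h8
        _ = c * e * (α * B) := by rw [hB]; ring
    have hce : 0 < c * e := by positivity
    have m1 : 4 * α ^ 2 * lam ≤ 4 * α ^ 2 * S := mul_le_mul_of_nonneg_left q5 (by positivity)
    have m2 : 2 * α * A ≤ 2 * α * L := mul_le_mul_of_nonneg_left q3 (by positivity)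
    have m3 : f t x v * Z ≤ c * e * L := by
      calc f t x v * Z ≤ f t x v * L := mul_le_mul_of_nonneg_left q4 (hg0 v)
        _ ≤ c * e * L := mul_le_mul_of_nonneg_right hfe hL0
    have m4 : c * e * (4 * α ^ 2 * lam - 2 * α * L) ≤ c * e * (4 * α ^ 2 * S - 2 * α * A) :=
      mul_le_mul_of_nonneg_left (by linarith) hce.le
    have m5 : c * e * (4 * α ^ 2 * lam - 2 * α * L - L) ≤ c * e * (α * B) := by
      have : c * e * (4 * α ^ 2 * lam - 2 * α * L - L) =
          c * e * (4 * α ^ 2 * lam - 2 * α * L) - c * e * L := by ring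
      rw [this]
      linarith
    have m6 := le_of_mul_le_mul_left m5 hce
    have m7 : α * (B + 3 * L) < α * (4 * α * lam) := mul_lt_mul_of_pos_left hαl hα0
    have m8 : L ≤ α * L := by nlinarith
    nlinarith
  -- conclusion
  have h3 := hpmin hP0
  have h4 : F p ≤ F (t₀, x₀, v₀) := h3
  have e : D (t₀, x₀, v₀) = nsq (v₀ - v₁) := by
    rw [hDdef]
    simp [nsq]
  have h5 : F (t₀, x₀, v₀) = f t₀ x₀ v₀ - c * Real.exp (-(α * nsq (v₀ - v₁))) := by
    simp only [hF, e]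
    rfl
  have h6 : Real.exp (-(α * R)) < Real.exp (-(α * nsq (v₀ - v₁))) := by
    apply Real.exp_lt_exp.2
    rw [hR]
    nlinarith
  have h7 := mul_lt_mul_of_pos_left h6 hc0
  linarith

end Pool.Agent.H93.CM
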