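import Pool.Agent.H93.CM.FinB
import Pool.Agent.H93.CM.NoVac
import Pool.Agent.H93.CM.Pos
import Pool.Agent.H93.CM.Ball
import Pool.Agent.H93.CM.Low
import Pool.Agent.H93.CM.LowL
import Pool.Agent.H93.CM.StrL

/-!
# The critical criterion: final statements
-/

set_option autoImplicit false

open MeasureTheory Set Filter Topology Pool.Agent.H25.Kin Pool.Agent.H82.BK

namespace Pool.Agent.H93.CM

variable {d : ℕ}

/-- The critical collision rate at the velocity `v`: for `γ ≥ 0` it is `ρ V^γ` with the mass `ρ` and the mean speed `V` of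
order `q` (and does not depend on `v`); for `γ < 0` it is `∫ g(w) |v-w|^γ dw`. -/
noncomputable def crit (γ q : ℝ) (g : Vec d → ℝ) (v : Vec d) : ℝ :=
  if 0 ≤ γ then rate γ q g else ∫ w, g w * len (v - w) ^ γ

/-- The critical collision rate is bounded by an integrable function of time: it is `≤ m(t)` for all `t ∈ (0,T)`, `x`, `v`,
with `∫_0^T m < ∞`. -/
def CritInL1 (γ q T : ℝ) (f : ℝ → Vec d → Vec d → ℝ) : Prop :=
  ∃ m : ℝ → ℝ, IntegrableOn m (Ioo 0 T) ∧ ∀ t ∈ Ioo 0 T, ∀ x v, crit γ q (f t x) v ≤ m t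

lemma crit_rate {γ q T : ℝ} (hγ : 0 ≤ γ) {f : ℝ → Vec d → Vec d → ℝ} :
    CritInL1 γ q T f ↔ RateInL1 γ q T f := by
  unfold CritInL1 RateInL1 crit
  simp only [if_pos hγ]
  exact ⟨fun ⟨m, hm, h⟩ => ⟨m, hm, fun t ht x => h t ht x 0⟩,
    fun ⟨m, hm, h⟩ => ⟨m, hm, fun t ht x _ => h t ht x⟩⟩

lemma crit_conv {γ q T : ℝ} (hγ : γ < 0) {f : ℝ → Vec d → Vec d → ℝ} :
    CritInL1 γ q T f ↔ ConvInL1 γ T f := by
  unfold CritInL1 ConvInL1 crit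
  simp only [if_neg (not_le.2 hγ)]

/-- vacuum-free data stay vacuum-free under rapid decay, Boltzmann -/
theorem boltz_noVac {γ s : ℝ} (hd : 2 ≤ d) (hs : s ∈ Ioo (0 : ℝ) 1) (h0 : 0 ≤ γ + 2 * s)
    (h2 : γ + 2 * s ≤ 2) {b : ℝ → ℝ} (hb : IsKernel d s b) {T : ℝ}
    {f : ℝ → Vec d → Vec d → ℝ} (hf : IsBoltzmannSol γ b T f) (hr : RapidUpTo T f)
    (hm : ∀ x, 0 < ∫ v, f 0 x v) : HydroUpTo T f := by
  refine hydroUpTo_of (RapidUpTo.hydro hf hr) ?_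
  rcases le_or_gt T 0 with hT | hT
  · exact ⟨1, one_pos, fun t ht => absurd (ht.1.trans_lt ht.2) (not_lt.2 hT)⟩
  obtain ⟨C, Ca, H⟩ := exists_hyp hd hs.1 hs.2 h0 h2 hb
  obtain ⟨K, hK0, hK⟩ := low_bound H
  refine no_vacuum hT hf hr ?_ hK0 ?_ hm
  · intro t ht x a v ha
    have hn := IsClassicalSol.nice hf ht x
    have hfn : ∀ u, 0 ≤ f t x u := fun u => hf.nonneg t ⟨ht.1.le, ht.2⟩ x u
    by_contra hv
    have hv0 : f t x v = 0 := le_antisymm (not_lt.1 hv) (hfn v)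
    obtain ⟨u, p, q, hu, hpq, hp, hlt, h3, h4⟩ := exists_pair hd hn.cont hfn ha hv0
    have h5 := boltz_pos hd hs h0 h2 hb hn hfn hu hpq hp hlt h3 h4
    have h6 : boltzQ γ b (f t x) u = 0 := zero_transport hf ht hu
    exact absurd h6 h5.ne'
  · intro t ht x c κ hc hκ v hv hdom heq
    exact hK (f t x) (IsClassicalSol.nice hf ht x)
      (fun u => hf.nonneg t ⟨ht.1.le, ht.2⟩ x u) c κ hc hκ v hv hdom heq

/-- vacuum-free data stay vacuum-free under rapid decay, Landau -/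
theorem landau_noVac {γ : ℝ} (hd : 2 ≤ d) (h1 : -2 < γ) (h2 : γ ≤ 0) {T : ℝ}
    {f : ℝ → Vec d → Vec d → ℝ} (hf : IsLandauSol γ T f) (hr : RapidUpTo T f)
    (hm : ∀ x, 0 < ∫ v, f 0 x v) : HydroUpTo T f := by
  refine hydroUpTo_of (RapidUpTo.hydro hf hr) ?_
  rcases le_or_gt T 0 with hT | hT
  · exact ⟨1, one_pos, fun t ht => absurd (ht.1.trans_lt ht.2) (not_lt.2 hT)⟩
  obtain ⟨K, hK0, hK⟩ := low_landau hd h1 h2
  refine no_vacuum hT hf hr ?_ hK0 ?_ hm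
  · intro t ht x a v ha
    exact strong_landau hd h1 h2 hf ht x a v ha
  · intro t ht x c κ hc hκ v hv hdom heq
    exact hK (f t x) (IsClassicalSol.nice hf ht x)
      (fun u => hf.nonneg t ⟨ht.1.le, ht.2⟩ x u) c κ hc hκ v hv hdom heq

/-- the equivalences for the Boltzmann equation -/
theorem boltz_equiv {γ s : ℝ} (hd : 2 ≤ d) (hs : s ∈ Ioo (0 : ℝ) 1) (h0 : 0 ≤ γ + 2 * s)
    (h2 : γ + 2 * s ≤ 2) {b : ℝ → ℝ} (hb : IsKernel d s b) {q : ℝ} (hq : 0 < q) {T : ℝ}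
    {f : ℝ → Vec d → Vec d → ℝ} (hf : IsBoltzmannSol γ b T f) :
    (CritInL1 γ q T f ↔ RapidUpTo T f) ∧ (RapidUpTo T f → HydroUpper T f) ∧
      (RapidUpTo T f → (∀ x, 0 < ∫ v, f 0 x v) → HydroUpTo T f) ∧
      (0 ≤ γ → HydroUpper T f → CritInL1 γ q T f) := by
  have hγ2 : γ ≤ 2 := by linarith [hs.1]
  refine ⟨?_, RapidUpTo.hydro hf, fun h hm => boltz_noVac hd hs h0 h2 hb hf h hm,
    fun hγ h => ?_⟩
  · rcases le_or_gt 0 γ with hγ | hγ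
    · rw [crit_rate hγ]
      exact ⟨rate_rapid hd hs hγ h2 hb hq hf, rapid_rate hγ hγ2 hq hf⟩
    · rw [crit_conv hγ]
      exact ⟨conv_rapid hd hs h0 hγ.le hb hf,
        RapidUpTo.conv hd (by linarith [hs.2] : -2 < γ) hγ.le hf⟩
  · rw [crit_rate hγ]
    exact rapid_rate hγ hγ2 hq hf (rate_rapid hd hs hγ h2 hb (by norm_num : (0 : ℝ) < 2) hf
      (hydro_rate hγ hγ2 hf h))

/-- the quantitative estimate for the Boltzmann equation -/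
theorem boltz_quant {γ s : ℝ} (hd : 2 ≤ d) (hs : s ∈ Ioo (0 : ℝ) 1) (h0 : 0 ≤ γ + 2 * s)
    (h2 : γ + 2 * s ≤ 2) {b : ℝ → ℝ} (hb : IsKernel d s b) {q : ℝ} (hq : 0 < q) (p : ℕ)
    (hp : (d : ℝ) + γ + 4 ≤ 2 * p) :
    ∃ K : ℝ, 0 ≤ K ∧ ∀ T : ℝ, ∀ f : ℝ → Vec d → Vec d → ℝ, IsBoltzmannSol γ b T f →
      ∀ m : ℝ → ℝ, IntegrableOn m (Ioo 0 T) →
      (∀ t ∈ Ioo 0 T, ∀ x v, crit γ q (f t x) v ≤ m t) →
      ∀ A₀ : ℝ, (∀ x v, f 0 x v * (1 + nsq v) ^ p ≤ A₀) →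
      ∀ t ∈ Ico 0 T, ∀ x v, f t x v * (1 + nsq v) ^ p ≤
        A₀ * Real.exp (K * ∫ τ in Ioc 0 t, m τ) := by
  rcases le_or_gt 0 γ with hγ | hγ
  · obtain ⟨K, hK0, hK⟩ := crit_estimate hd hs hγ h2 hb p hp hq
    refine ⟨K, hK0, fun T f hf m hm hmom A₀ hA₀ => hK T f hf m hm (fun t ht x => ?_) A₀ hA₀⟩
    have h := hmom t ht x 0
    unfold crit at h
    rwa [if_pos hγ] at h
  · obtain ⟨K, hK0, hK⟩ := conv_estimate hd hs h0 hγ.le hb p hp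
    refine ⟨K, hK0, fun T f hf m hm hmom A₀ hA₀ => hK T f hf m hm (fun t ht x v => ?_) A₀ hA₀⟩
    have h := hmom t ht x v
    unfold crit at h
    rwa [if_neg (not_le.2 hγ)] at h

end Pool.Agent.H93.CM
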