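import Pool.Agent.H93.CM.Defs

/-!
# Module Alg2: the Landau matrix against a Hessian with a large radial part

The same proof as `landauA_quad` (H82/LK/Alg.lean, copy the private lemmas): with `w_kl = z_k e_l - z_l e_k`,
`∑_ij a_ij(z) M_ij = |z|^γ (1/2) ∑_kl w_kl^T M w_kl`, `∑_kl |w_kl|² ≤ 2 d |z|²` (as there), and
`∑_kl (v·w_kl)² = ∑_kl (z_k v_l - z_l v_k)² = 2(|z|²|v|² - (z·v)²)`.
-/

set_option autoImplicit false

open MeasureTheory Set Filter Topology Pool.Agent.H25.Kin

namespace Pool.Agent.H93.CM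

variable {d : ℕ}

private lemma alg_w_apply (a b : ℝ) (k l i : Fin d) :
    (a • (Pi.single l 1 : Vec d) - b • (Pi.single k 1 : Vec d)) i =
      a * (if i = l then 1 else 0) - b * (if i = k then 1 else 0) := by
  simp [Pi.single_apply]

private lemma alg_sum_w (a b : ℝ) (k l : Fin d) (f : Fin d → ℝ) :
    ∑ i, (a • (Pi.single l 1 : Vec d) - b • (Pi.single k 1 : Vec d)) i * f i =
      a * f l - b * f k := by
  simp_rw [alg_w_apply, sub_mul, Finset.sum_sub_distrib]
  have h : ∀ (c : ℝ) (m : Fin d), ∑ i, c * (if i = m then 1 else 0) * f i = c * f m := by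
    intro c m
    rw [Finset.sum_eq_single m]
    · simp
    · intro i _ hi; simp [hi]
    · intro hm; exact absurd (Finset.mem_univ m) hm
  rw [h, h]

private lemma alg_quad (M : Fin d → Fin d → ℝ) (a b : ℝ) (k l : Fin d) :
    ∑ i, ∑ j, (a • (Pi.single l 1 : Vec d) - b • (Pi.single k 1 : Vec d)) i *
        (a • (Pi.single l 1 : Vec d) - b • (Pi.single k 1 : Vec d)) j * M i j =
      a ^ 2 * M l l - a * b * M l k - a * b * M k l + b ^ 2 * M k k := by
  have h1 : ∀ i, ∑ j, (a • (Pi.single l 1 : Vec d) - b • (Pi.single k 1 : Vec d)) i *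
        (a • (Pi.single l 1 : Vec d) - b • (Pi.single k 1 : Vec d)) j * M i j =
      (a • (Pi.single l 1 : Vec d) - b • (Pi.single k 1 : Vec d)) i *
        (a * M i l - b * M i k) := by
    intro i
    rw [← alg_sum_w a b k l (fun j => M i j), Finset.mul_sum]
    exact Finset.sum_congr rfl fun j _ => by ring
  simp_rw [h1]
  rw [alg_sum_w a b k l (fun i => a * M i l - b * M i k)]
  ring

private lemma alg_nsq (z : Vec d) (k l : Fin d) :
    nsq (z k • (Pi.single l 1 : Vec d) - z l • (Pi.single k 1 : Vec d)) ≤ z k ^ 2 + z l ^ 2 := by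
  have h1 : nsq (z k • (Pi.single l 1 : Vec d) - z l • (Pi.single k 1 : Vec d)) =
      ∑ i, (z k • (Pi.single l 1 : Vec d) - z l • (Pi.single k 1 : Vec d)) i *
        (z k • (Pi.single l 1 : Vec d) - z l • (Pi.single k 1 : Vec d)) i := by
    unfold nsq
    exact Finset.sum_congr rfl fun i _ => by ring
  rw [h1, alg_sum_w, alg_w_apply, alg_w_apply]
  by_cases hkl : k = l
  · subst hkl
    simp
    nlinarith [sq_nonneg (z k)]
  · have hlk : ¬ l = k := fun h => hkl h.symm
    simp [hkl, hlk]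
    nlinarith

private lemma alg_dot (v z : Vec d) (k l : Fin d) :
    dot v (z k • (Pi.single l 1 : Vec d) - z l • (Pi.single k 1 : Vec d)) =
      z k * v l - z l * v k := by
  have h1 : dot v (z k • (Pi.single l 1 : Vec d) - z l • (Pi.single k 1 : Vec d)) =
      ∑ i, (z k • (Pi.single l 1 : Vec d) - z l • (Pi.single k 1 : Vec d)) i * v i := by
    unfold dot
    exact Finset.sum_congr rfl fun i _ => by ring
  rw [h1, alg_sum_w]

theorem landauA_quad2 {M : Fin d → Fin d → ℝ} {c₁ c₂ : ℝ} (hc₁ : 0 ≤ c₁) (hc₂ : 0 ≤ c₂)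
    (v : Vec d)
    (hM : ∀ w : Vec d, ∑ i, ∑ j, w i * w j * M i j ≤ c₁ * dot v w ^ 2 + c₂ * nsq w) (γ : ℝ)
    (z : Vec d) :
    ∑ i, ∑ j, landauA γ z i j * M i j ≤
      nsq z ^ (γ / 2) * (c₁ * (nsq z * nsq v - dot z v ^ 2) + d * c₂ * nsq z) := by
  set P := nsq z ^ (γ / 2) with hP
  have hP0 : 0 ≤ P := Real.rpow_nonneg (sq_nonneg' z) _
  have hterm : ∀ k l : Fin d,
      z k ^ 2 * M l l - z k * z l * M l k - z k * z l * M k l + z l ^ 2 * M k k ≤
        c₁ * (z k * v l - z l * v k) ^ 2 + c₂ * (z k ^ 2 + z l ^ 2) := by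
    intro k l
    rw [← alg_quad M (z k) (z l) k l, ← alg_dot v z k l]
    refine (hM _).trans ?_
    have := mul_le_mul_of_nonneg_left (alg_nsq z k l) hc₂
    linarith
  have hsum : ∑ k, ∑ l,
      (z k ^ 2 * M l l - z k * z l * M l k - z k * z l * M k l + z l ^ 2 * M k k) ≤
        ∑ k : Fin d, ∑ l : Fin d,
          (c₁ * (z k * v l - z l * v k) ^ 2 + c₂ * (z k ^ 2 + z l ^ 2)) :=
    Finset.sum_le_sum fun k _ => Finset.sum_le_sum fun l _ => hterm k l
  have e1 : ∑ k : Fin d, ∑ l : Fin d, c₂ * (z k ^ 2 + z l ^ 2) = 2 * (d * c₂ * nsq z) := by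
    unfold nsq
    simp_rw [← Finset.mul_sum, Finset.sum_add_distrib]
    simp only [Finset.sum_const, Finset.card_univ, Fintype.card_fin, nsmul_eq_mul]
    rw [← Finset.mul_sum]
    ring
  have e1' : ∑ k : Fin d, ∑ l : Fin d, c₁ * (z k * v l - z l * v k) ^ 2 =
      2 * (c₁ * (nsq z * nsq v - dot z v ^ 2)) := by
    have g1 : ∑ k : Fin d, ∑ l : Fin d, z k ^ 2 * v l ^ 2 = nsq z * nsq v := by
      unfold nsq
      rw [Finset.sum_mul_sum]
    have g2 : ∑ k : Fin d, ∑ l : Fin d, z l ^ 2 * v k ^ 2 = nsq z * nsq v := by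
      rw [Finset.sum_comm, g1]
    have g3 : ∑ k : Fin d, ∑ l : Fin d, (z k * v k) * (z l * v l) = dot z v ^ 2 := by
      unfold dot
      rw [sq, Finset.sum_mul_sum]
    have g4 : ∀ k l : Fin d, c₁ * (z k * v l - z l * v k) ^ 2 =
        c₁ * (z k ^ 2 * v l ^ 2 + z l ^ 2 * v k ^ 2 - 2 * ((z k * v k) * (z l * v l))) := by
      intro k l; ring
    simp_rw [g4, ← Finset.mul_sum, Finset.sum_sub_distrib, Finset.sum_add_distrib,
      ← Finset.mul_sum]
    have g3' : ∑ i, z i * v i * ∑ i, z i * v i = dot z v ^ 2 := by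
      rw [← g3]
      exact Finset.sum_congr rfl fun k _ => by rw [Finset.mul_sum]
    have g1' : ∑ i, z i ^ 2 * ∑ i, v i ^ 2 = nsq z * nsq v := by
      rw [← g1]
      exact Finset.sum_congr rfl fun k _ => by rw [Finset.mul_sum]
    rw [g1', g3', g2]
    ring
  have e2 : ∑ k, ∑ l, z k ^ 2 * M l l = nsq z * ∑ l, M l l := by
    unfold nsq
    rw [Finset.sum_mul_sum]
  have e3 : ∑ k, ∑ l, z l ^ 2 * M k k = nsq z * ∑ l, M l l := by
    rw [Finset.sum_comm, e2]
  have e4 : ∑ k, ∑ l, z k * z l * M l k = ∑ k, ∑ l, z k * z l * M k l := by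
    rw [Finset.sum_comm]
    exact Finset.sum_congr rfl fun k _ => Finset.sum_congr rfl fun l _ => by ring
  have e5 : ∑ k, ∑ l,
      (z k ^ 2 * M l l - z k * z l * M l k - z k * z l * M k l + z l ^ 2 * M k k) =
        2 * (nsq z * ∑ l, M l l - ∑ k, ∑ l, z k * z l * M k l) := by
    simp_rw [Finset.sum_add_distrib, Finset.sum_sub_distrib]
    rw [e2, e3, e4]
    ring
  have e6 : ∑ i, ∑ j, landauA γ z i j * M i j =
      P * (nsq z * ∑ l, M l l - ∑ k, ∑ l, z k * z l * M k l) := by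
    have h1 : ∀ i j, landauA γ z i j * M i j =
        P * ((if i = j then nsq z * M i j else 0) - z i * z j * M i j) := by
      intro i j
      unfold landauA
      rw [← hP]
      split_ifs <;> ring
    simp_rw [h1, ← Finset.mul_sum, Finset.sum_sub_distrib, Finset.sum_ite_eq]
    simp only [Finset.mem_univ, if_true]
    rw [← Finset.mul_sum]
  have e7 : ∑ k : Fin d, ∑ l : Fin d,
          (c₁ * (z k * v l - z l * v k) ^ 2 + c₂ * (z k ^ 2 + z l ^ 2)) =
      2 * (c₁ * (nsq z * nsq v - dot z v ^ 2)) + 2 * (d * c₂ * nsq z) := by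
    rw [← e1, ← e1', ← Finset.sum_add_distrib]
    exact Finset.sum_congr rfl fun k _ => Finset.sum_add_distrib
  rw [e5, e7] at hsum
  rw [e6]
  exact mul_le_mul_of_nonneg_left (by linarith) hP0

end Pool.Agent.H93.CM
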