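import Pool.Agent.H93.CM.Defs

/-!
# Module Barr: a parabola as a barrier from below

Let `q(t,v) = c(1 - Λ(t-t₁) - |v|²)`. Claim `q < f` on `[t₁,T)`. Otherwise the set
`S = {(t,x,v) : t ∈ [t₁,t₂], x ∈ [0,1]^d, |v|² ≤ 1, f t x v ≤ q(t,v)}` is nonempty for some `t₂ < T` (`f ≥ 0`, so `f ≤ q` forces
`q ≥ 0`, hence `|v|² ≤ 1`; positions are reduced to the unit cube by periodicity, see `touch_per` in H82/BK/Touch.lean, private: copy)
and compact (`hf.isCont`). Take the point `(t₀,x₀,v₀)` of `S` with the smallest time; `t₀ > t₁` by `h0`. For `t ∈ [t₁,t₀)`: `q < f` everywhere;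
by continuity in `t`: `q(t₀,·) ≤ f(t₀,x,·)` for all `x`, so `f = q` at `(t₀,x₀,v₀)` (this is the argument of `first_touch`, copy it).
Then with `κ = 1 - Λ(t₀-t₁) ≤ 1` the hypothesis `hQ` gives `-(cΛ) < Q t₀ x₀ v₀`. On the other hand by `char_deriv`
(H82/BK/Touch.lean) `F(τ) = f(t₀+τ, x₀+τv₀, v₀)` has derivative `Q t₀ x₀ v₀` at `0`, and for small `τ > 0`
`F(-τ) > q(t₀-τ,v₀) = q(t₀,v₀) + cΛτ = F(0) + cΛτ`; dividing: `-Q ≥ cΛ`. Contradiction.
-/

set_option autoImplicit false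

open MeasureTheory Set Filter Topology Pool.Agent.H25.Kin Pool.Agent.H82.BK

namespace Pool.Agent.H93.CM

variable {d : ℕ}

/-- reduction of the position to the unit cube -/
private lemma barr_per {F : Vec d → ℝ} (hF : Per F) (x : Vec d) :
    ∃ y ∈ Icc (0 : Vec d) 1, F y = F x := by
  refine ⟨fun i => Int.fract (x i), ⟨fun i => Int.fract_nonneg _, fun i => (Int.fract_lt_one _).le⟩, ?_⟩
  have hl : (fun i => (-(⌊x i⌋ : ℤ) : ℝ)) ∈
      Submodule.span ℤ (Set.range (Pi.basisFun ℝ (Fin d))) := by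
    have e : (fun i => (-(⌊x i⌋ : ℤ) : ℝ)) = ∑ i, (-⌊x i⌋ : ℤ) • (Pi.basisFun ℝ (Fin d) i) := by
      funext j
      rw [Finset.sum_apply]
      simp only [Pi.basisFun_apply, Pi.smul_apply, Pi.single_apply]
      rw [Finset.sum_eq_single j]
      · simp
      · intro b _ hb
        simp [Ne.symm hb]
      · intro h
        exact absurd (Finset.mem_univ _) h
    rw [e]
    exact Submodule.sum_mem _ fun i _ => Submodule.smul_mem _ _
      (Submodule.subset_span (Set.mem_range_self i))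
  have h := hF.span hl x
  have e2 : (fun i => (-(⌊x i⌋ : ℤ) : ℝ)) + x = fun i => Int.fract (x i) := by
    funext i
    simp only [Pi.add_apply, Int.fract]
    ring
  rw [e2] at h
  exact h

private lemma barr_norm {v : Vec d} (h : nsq v ≤ 1) : ‖v‖ ≤ 1 := by
  rw [pi_norm_le_iff_of_nonneg zero_le_one]
  intro i
  have h1 : v i ^ 2 ≤ nsq v := by
    unfold nsq
    exact Finset.single_le_sum (f := fun i => v i ^ 2) (fun j _ => sq_nonneg _) (Finset.mem_univ i)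
  rw [Real.norm_eq_abs]
  exact (sq_le_one_iff_abs_le_one _).1 (h1.trans h)

theorem lower_barrier {T : ℝ} {Q f : ℝ → Vec d → Vec d → ℝ} (hf : IsClassicalSol T Q f) {t₁ : ℝ}
    (ht₁ : t₁ ∈ Ioo 0 T) {c Λ : ℝ} (hc : 0 < c) (hΛ : 0 ≤ Λ)
    (h0 : ∀ x v, nsq v ≤ 1 → c < f t₁ x v)
    (hQ : ∀ t ∈ Ioo t₁ T, ∀ x v κ, κ ≤ 1 → nsq v ≤ 1 → (∀ u, c * (κ - nsq u) ≤ f t x u) →
      f t x v = c * (κ - nsq v) → -(c * Λ) < Q t x v) :
    ∀ t ∈ Ico t₁ T, ∀ x v, c * (1 - Λ * (t - t₁) - nsq v) ≤ f t x v := by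
  by_contra hcon
  push Not at hcon
  obtain ⟨t2, ht2, x2, v2, h2⟩ := hcon
  have hsub : Icc t₁ t2 ⊆ Ico 0 T := fun t ht => ⟨ht₁.1.le.trans ht.1, ht.2.trans_lt ht2.2⟩
  have hper : ∀ t ∈ Icc t₁ t2, ∀ v : Vec d, Per fun x => f t x v := fun t ht v x i =>
    hf.periodic t (hsub ht) x v i
  -- points where the barrier is not below the solution have bounded velocities
  have hbd : ∀ t ∈ Icc t₁ t2, ∀ x v, f t x v ≤ c * (1 - Λ * (t - t₁) - nsq v) → nsq v ≤ 1 := by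
    intro t ht x v h
    have h3 := hf.nonneg t (hsub ht) x v
    have h4 : 0 ≤ 1 - Λ * (t - t₁) - nsq v := by
      by_contra hn
      push Not at hn
      have := mul_neg_of_pos_of_neg hc hn
      linarith
    have h5 : 0 ≤ Λ * (t - t₁) := mul_nonneg hΛ (by linarith [ht.1])
    linarith
  set K : Set (ℝ × Vec d × Vec d) := Icc t₁ t2 ×ˢ (Icc (0 : Vec d) 1 ×ˢ Metric.closedBall (0 : Vec d) 1)
    with hK
  have hKc : IsCompact K := isCompact_Icc.prod (isCompact_Icc.prod (isCompact_closedBall _ _))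
  have hnq : Continuous (nsq : Vec d → ℝ) := by unfold nsq; fun_prop
  have hFc : ContinuousOn (unc f) (Ico 0 T ×ˢ univ) := hf.isCont
  have hq : Continuous (fun q : ℝ × Vec d × Vec d => c * (1 - Λ * (q.1 - t₁) - nsq q.2.2)) := by
    have h5 : Continuous (fun q : ℝ × Vec d × Vec d => nsq q.2.2) :=
      hnq.comp (continuous_snd.comp continuous_snd)
    fun_prop
  have hGc : ContinuousOn (fun q : ℝ × Vec d × Vec d =>
      c * (1 - Λ * (q.1 - t₁) - nsq q.2.2) - unc f q) K :=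
    hq.continuousOn.sub (hFc.mono fun q hq => ⟨hsub hq.1, mem_univ _⟩)
  set S : Set (ℝ × Vec d × Vec d) :=
    K ∩ (fun q : ℝ × Vec d × Vec d =>
      c * (1 - Λ * (q.1 - t₁) - nsq q.2.2) - unc f q) ⁻¹' Ici 0 with hS
  have hSc : IsCompact S := hKc.of_isClosed_subset
    (hGc.preimage_isClosed_of_isClosed hKc.isClosed isClosed_Ici) inter_subset_left
  have hmem : ∀ t ∈ Icc t₁ t2, ∀ x v, f t x v ≤ c * (1 - Λ * (t - t₁) - nsq v) →
      ∃ y, (t, y, v) ∈ S := by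
    intro t ht x v h
    obtain ⟨y, hy, hyx⟩ := barr_per (hper t ht v) x
    refine ⟨y, ⟨⟨ht, hy, ?_⟩, ?_⟩⟩
    · rw [Metric.mem_closedBall, dist_zero_right]
      exact barr_norm (hbd t ht x v h)
    · simp only [mem_preimage, mem_Ici, unc]
      have : f t y v = f t x v := hyx
      rw [this]
      linarith
  obtain ⟨y1, hy1⟩ := hmem t2 ⟨ht2.1, le_rfl⟩ x2 v2 h2.le
  obtain ⟨q, hqS, hq'⟩ := hSc.exists_isMinOn ⟨_, hy1⟩ (f := fun q : ℝ × Vec d × Vec d => q.1)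
    continuous_fst.continuousOn
  obtain ⟨t₀, x₀, v₀⟩ := q
  have ht₀ : t₀ ∈ Icc t₁ t2 := hqS.1.1
  have hge : f t₀ x₀ v₀ ≤ c * (1 - Λ * (t₀ - t₁) - nsq v₀) := by
    have := hqS.2
    simp only [mem_preimage, mem_Ici, unc] at this
    linarith
  have hv₀ := hbd t₀ ht₀ x₀ v₀ hge
  have hlt : ∀ t ∈ Ico t₁ t₀, ∀ x v, c * (1 - Λ * (t - t₁) - nsq v) < f t x v := by
    intro t ht x v
    by_contra hcon
    push Not at hcon
    obtain ⟨y, hy⟩ := hmem t ⟨ht.1, ht.2.le.trans ht₀.2⟩ x v hcon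
    have h2 : t₀ ≤ t := hq' hy
    exact absurd ht.2 (not_lt.2 h2)
  have hpos : t₁ < t₀ := by
    rcases ht₀.1.lt_or_eq with h | h
    · exact h
    · exfalso
      subst h
      have h6 := h0 x₀ v₀ hv₀
      have h7 : c * (1 - Λ * (t₁ - t₁) - nsq v₀) ≤ c := by
        have := mul_nonneg hc.le (sq_nonneg' v₀)
        have h8 : c * (1 - Λ * (t₁ - t₁) - nsq v₀) = c - c * nsq v₀ := by ring
        linarith
      linarith
  have hle : ∀ x v, c * (1 - Λ * (t₀ - t₁) - nsq v) ≤ f t₀ x v := by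
    intro x v
    have hc' : ContinuousOn (fun t : ℝ => f t x v) (Icc t₁ t2) := by
      have h3 : ContinuousOn (fun t : ℝ => unc f (t, x, v)) (Icc t₁ t2) := by
        refine hFc.comp (Continuous.continuousOn (by fun_prop)) fun t ht => ⟨hsub ht, mem_univ _⟩
      exact h3
    have hne : (𝓝[Ico t₁ t₀] t₀).NeBot := by
      rw [← mem_closure_iff_nhdsWithin_neBot, closure_Ico hpos.ne]
      exact ⟨hpos.le, le_rfl⟩
    have hs : Ico t₁ t₀ ⊆ Icc t₁ t2 := fun t ht => ⟨ht.1, ht.2.le.trans ht₀.2⟩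
    have l1 : Tendsto (fun t : ℝ => f t x v) (𝓝[Ico t₁ t₀] t₀)
        (𝓝 (f t₀ x v)) := (hc' t₀ ht₀).mono hs
    have l2 : Tendsto (fun t : ℝ => c * (1 - Λ * (t - t₁) - nsq v)) (𝓝[Ico t₁ t₀] t₀)
        (𝓝 (c * (1 - Λ * (t₀ - t₁) - nsq v))) := by
      refine Tendsto.mono_left ?_ nhdsWithin_le_nhds
      exact Continuous.tendsto (by fun_prop) t₀
    refine le_of_tendsto_of_tendsto l2 l1 ?_
    filter_upwards [self_mem_nhdsWithin] with t ht
    exact (hlt t ht x v).le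
  have heq : f t₀ x₀ v₀ = c * (1 - Λ * (t₀ - t₁) - nsq v₀) := le_antisymm hge (hle x₀ v₀)
  have ht₀T : t₀ ∈ Ioo 0 T := ⟨ht₁.1.trans hpos, ht₀.2.trans_lt ht2.2⟩
  have hQ0 := hQ t₀ ⟨hpos, ht₀T.2⟩ x₀ v₀ (1 - Λ * (t₀ - t₁))
    (by have := mul_nonneg hΛ (sub_nonneg.2 hpos.le); linarith) hv₀ (hle x₀) heq
  have hd := char_deriv hf ht₀T x₀ v₀
  have hd2 : HasDerivAt (fun τ : ℝ => f (t₀ + τ) (x₀ + τ • v₀) v₀ + c * Λ * τ)
      (Q t₀ x₀ v₀ + c * Λ) 0 := by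
    have h9 : HasDerivAt (fun τ : ℝ => c * Λ * τ) (c * Λ) 0 := by
      simpa using (hasDerivAt_id (0 : ℝ)).const_mul (c * Λ)
    exact hd.add h9
  have hslope := (hasDerivAt_iff_tendsto_slope.1 hd2).mono_left (nhdsLT_le_nhdsNE 0)
  have hfin : Q t₀ x₀ v₀ + c * Λ ≤ 0 := by
    refine le_of_tendsto hslope ?_
    have hnb : Ioo (t₁ - t₀) 0 ∈ 𝓝[<] (0 : ℝ) := Ioo_mem_nhdsLT (by linarith)
    filter_upwards [hnb] with τ hτ
    rw [slope_def_field]
    apply div_nonpos_of_nonneg_of_nonpos _ (by linarith [hτ.2])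
    have h10 := hlt (t₀ + τ) ⟨by linarith [hτ.1], by linarith [hτ.2]⟩ (x₀ + τ • v₀) v₀
    simp only [add_zero, zero_smul, mul_zero]
    rw [heq]
    linarith
  linarith

end Pool.Agent.H93.CM
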