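import Pool.Agent.H93.CM.Defs

/-!
# Module Crit: from the operator bound to the collision rate

Let `op_bound` (H82/CM/Op.lean) give `K, κ, δ, a₀, L`. Put `δ' = min δ (1/4)`, `a₁ = max a₀ 2`, `a = 1+|v|²`. The set
`SlowR δ' a₁ v` is contained in `SlowR δ a₀ v`, so the complement grows: `MedR δ a₀ L v ⊆ MedR δ' a₁ L v`; all integrands are
`≥ 0`, hence `op_bound` holds with `δ', a₁` instead of `δ, a₀`.

`crit_soft`: drop the slow term, enlarge the medium set to everything (`setIntegral_le_integral`, `freq_integrable`).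

`crit_hard`. `M = ∫ g`, `M_q = ∫ g (1+|z|²)^(q/2) ≥ M`, `rate = M (M_q/M)^(γ/q)`. If `M = 0` then `g = 0` (g continuous, `≥ 0`),
so `g v = 0` and both sides: `op_bound` gives `boltzQ ≤ K * 0 * _ = 0`. Let `M > 0`; then `M_q/M ≥ 1`, `rate ≥ M`.
On the medium set `|v-z|² ≤ 2|v|²+2|z|² ≤ 2(1+L) a`, so `|v-z|^γ ≤ (2(1+L))^(γ/2) a^(γ/2) =: C₁ a^(γ/2)` (`γ ≥ 0`).
 * `a < a₁`: `boltzQ ≤ K g(v) C₁ a₁^(γ/2) M ≤ .. rate`.
 * `a ≥ a₁`: on the slow set `|z| ≤ √a/4`, `|v|² = a - 1 ≥ a/2`, `|v-z| ≥ (1/√2 - 1/4) √a ≥ √a/4`, so `|v-z|^γ ≥ 4^(-γ) a^(γ/2)`.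
   With `S = ∫_slow g`, `N = ∫_{not slow} g`, `M = S + N`: `boltzQ ≤ g(v) a^(γ/2) (K C₁ N - κ 4^(-γ) S)`. If this is `≤ 0`: done.
   Otherwise `S ≤ C₂ N`, `C₂ = K C₁ 4^γ/κ`, `M ≤ (1+C₂) N`, and `M_q ≥ ∫_{not slow} g (1+|z|²)^(q/2) ≥ (δ'² a)^(q/2) N`
   (`not slow` and `a ≥ a₁` give `|z|² > δ'² a`), so `a^(γ/2) ≤ δ'^(-γ) ((1+C₂) M_q/M)^(γ/q)` (raise to the power `γ/q`), and
   `boltzQ ≤ K C₁ g(v) a^(γ/2) M ≤ K C₁ δ'^(-γ) (1+C₂)^(γ/q) g(v) rate`.
-/

set_option autoImplicit false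

open MeasureTheory Set Filter Topology Pool.Agent.H25.Kin Pool.Agent.H82.BK

namespace Pool.Agent.H93.CM

variable {d : ℕ}

private lemma Crit_len (γ : ℝ) (z : Vec d) : len z ^ γ = nsq z ^ (γ / 2) := by
  unfold len
  rw [Real.sqrt_eq_rpow, ← Real.rpow_mul (sq_nonneg' z)]
  congr 1
  ring

private lemma Crit_PG (n : ℕ) : PG (fun v : Vec d => (1 + nsq v) ^ n) := by
  induction n with
  | zero => simpa using PG.const (d := d) (1 : ℝ)
  | succ n ih =>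
    have h1 : PG (fun v : Vec d => (1 : ℝ) + nsq v) := (PG.const (1 : ℝ)).add PG.nsq
    simpa [pow_succ] using ih.mul h1

private lemma Crit_momInt {g : Vec d → ℝ} (hg : Nice g) {q : ℝ} (hq : 0 < q) :
    Integrable fun v : Vec d => g v * (1 + nsq v) ^ (q / 2) := by
  obtain ⟨n, hn⟩ := exists_nat_ge (q / 2)
  have h1 : RD (fun v : Vec d => g v * (1 + nsq v) ^ n) := hg.rd.mul_PG (Crit_PG n)
  have h2 : RD (fun v : Vec d => g v * (1 + nsq v) ^ (q / 2)) := by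
    refine h1.mono 1 fun v => ?_
    have hv : (1 : ℝ) ≤ 1 + nsq v := by linarith [sq_nonneg' v]
    have h3 : (1 + nsq v) ^ (q / 2) ≤ (1 + nsq v) ^ n := by
      rw [← Real.rpow_natCast]
      exact Real.rpow_le_rpow_of_exponent_le hv hn
    have h4 : 0 ≤ (1 + nsq v) ^ (q / 2) := Real.rpow_nonneg (by linarith) _
    rw [one_mul, norm_mul, norm_mul, Real.norm_eq_abs ((1 + nsq v) ^ (q / 2)),
      Real.norm_eq_abs ((1 + nsq v) ^ n), abs_of_nonneg h4, abs_of_nonneg (h4.trans h3)]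
    exact mul_le_mul_of_nonneg_left h3 (norm_nonneg _)
  refine h2.integrable ?_
  have hc : Continuous fun v : Vec d => g v * (1 + nsq v) ^ (q / 2) := by
    refine hg.cont.mul ?_
    refine (continuous_const.add continuous_sq).rpow_const fun v => Or.inr ?_
    linarith
  exact hc.aestronglyMeasurable

private lemma Crit_mass_le {g : Vec d → ℝ} (hg : Nice g) (hg0 : ∀ u, 0 ≤ g u) {q : ℝ}
    (hq : 0 < q) : mass g ≤ mom q g := by
  refine integral_mono (hg.rd.integrable hg.cont.aestronglyMeasurable) (Crit_momInt hg hq)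
    fun v => ?_
  have hv : (1 : ℝ) ≤ 1 + nsq v := by linarith [sq_nonneg' v]
  have h1 : (1 : ℝ) ≤ (1 + nsq v) ^ (q / 2) := Real.one_le_rpow hv (by linarith)
  have := mul_le_mul_of_nonneg_left h1 (hg0 v)
  simpa using this

private lemma Crit_mass_nonneg {g : Vec d → ℝ} (hg0 : ∀ u, 0 ≤ g u) : 0 ≤ mass g :=
  integral_nonneg hg0

private lemma Crit_rate {g : Vec d → ℝ} (hg : Nice g) (hg0 : ∀ u, 0 ≤ g u) {γ q : ℝ}
    (hγ : 0 ≤ γ) (hq : 0 < q) : mass g ≤ rate γ q g := by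
  unfold rate
  rcases (Crit_mass_nonneg hg0).eq_or_lt with h | h
  · rw [← h, zero_mul]
  · have h1 : 1 ≤ mom q g / mass g := by
      rw [le_div_iff₀ h, one_mul]
      exact Crit_mass_le hg hg0 hq
    have h2 : 1 ≤ (mom q g / mass g) ^ (γ / q) := Real.one_le_rpow h1 (by positivity)
    have := mul_le_mul_of_nonneg_left h2 h.le
    simpa using this

/-- the real numbers at the end of the proof -/
private lemma Crit_end {γ q δ a C₂ m N momq : ℝ} (hγ : 0 ≤ γ) (hq : 0 < q) (hδ : 0 < δ)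
    (ha : 0 < a) (hC₂ : 0 ≤ C₂) (hm : 0 < m) (h1 : m ≤ (1 + C₂) * N)
    (h2 : (δ ^ 2 * a) ^ (q / 2) * N ≤ momq) :
    a ^ (γ / 2) ≤ (1 + C₂) ^ (γ / q) / (δ ^ 2) ^ (γ / 2) * (momq / m) ^ (γ / q) := by
  have hδ2 : 0 < δ ^ 2 := by positivity
  have hC : 0 < 1 + C₂ := by linarith
  have hA : 0 < (δ ^ 2 * a) ^ (q / 2) := Real.rpow_pos_of_pos (by positivity) _
  have h3 : (δ ^ 2 * a) ^ (q / 2) ≤ (1 + C₂) * (momq / m) := by
    rw [mul_div_assoc', le_div_iff₀ hm]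
    calc (δ ^ 2 * a) ^ (q / 2) * m ≤ (δ ^ 2 * a) ^ (q / 2) * ((1 + C₂) * N) :=
          mul_le_mul_of_nonneg_left h1 hA.le
      _ = (1 + C₂) * ((δ ^ 2 * a) ^ (q / 2) * N) := by ring
      _ ≤ (1 + C₂) * momq := mul_le_mul_of_nonneg_left h2 hC.le
  have hmm : 0 ≤ momq / m := by
    have h4 := hA.le.trans h3
    exact nonneg_of_mul_nonneg_right h4 hC
  have h5 : ((δ ^ 2 * a) ^ (q / 2)) ^ (γ / q) ≤ ((1 + C₂) * (momq / m)) ^ (γ / q) :=
    Real.rpow_le_rpow hA.le h3 (by positivity)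
  rw [← Real.rpow_mul (by positivity), show q / 2 * (γ / q) = γ / 2 by field_simp,
    Real.mul_rpow hδ2.le ha.le, Real.mul_rpow hC.le hmm] at h5
  rw [div_mul_eq_mul_div, le_div_iff₀ (Real.rpow_pos_of_pos hδ2 _)]
  linarith

theorem crit_hard {γ s : ℝ} (hd : 2 ≤ d) (hs : s ∈ Ioo (0 : ℝ) 1) (hγ : 0 ≤ γ)
    (h2 : γ + 2 * s ≤ 2) {b : ℝ → ℝ} (hb : IsKernel d s b) {p : ℕ}
    (hp : (d : ℝ) + γ + 4 ≤ 2 * p) {q : ℝ} (hq : 0 < q) :
    ∃ K : ℝ, 0 ≤ K ∧ ∀ g : Vec d → ℝ, Nice g → (∀ u, 0 ≤ g u) → ∀ v : Vec d,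
      (∀ u, g u * (1 + nsq u) ^ p ≤ g v * (1 + nsq v) ^ p) →
      boltzQ γ b g v ≤ K * g v * rate γ q g := by
  obtain ⟨K, κ, δ, a₀, L, hK, hκ, hδ, hδ1, ha₀, hL, H⟩ :=
    H82.CM.op_bound hd hs (by linarith [hs.1]) h2 hb hp
  have hγ2 : γ ≤ 2 := by linarith [hs.1]
  obtain ⟨δ', hδ'⟩ : ∃ δ' : ℝ, δ' = min δ (1 / 4) := ⟨_, rfl⟩
  obtain ⟨a₁, ha₁⟩ : ∃ a₁ : ℝ, a₁ = max a₀ 2 := ⟨_, rfl⟩
  have hδ'0 : 0 < δ' := by rw [hδ']; exact lt_min hδ (by norm_num)
  have hδ'1 : δ' ≤ δ := by rw [hδ']; exact min_le_left _ _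
  have hδ'2 : δ' ≤ 1 / 4 := by rw [hδ']; exact min_le_right _ _
  have ha₁0 : a₀ ≤ a₁ := by rw [ha₁]; exact le_max_left _ _
  have ha₁2 : 2 ≤ a₁ := by rw [ha₁]; exact le_max_right _ _
  obtain ⟨C₁, hC₁⟩ : ∃ C₁ : ℝ, C₁ = (2 * (1 + L)) ^ (γ / 2) := ⟨_, rfl⟩
  obtain ⟨c₄, hc₄⟩ : ∃ c₄ : ℝ, c₄ = (1 / 16 : ℝ) ^ (γ / 2) := ⟨_, rfl⟩
  have hC₁0 : 0 < C₁ := by rw [hC₁]; exact Real.rpow_pos_of_pos (by linarith) _
  have hc₄0 : 0 < c₄ := by rw [hc₄]; exact Real.rpow_pos_of_pos (by norm_num) _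
  obtain ⟨C₂, hC₂⟩ : ∃ C₂ : ℝ, C₂ = K * C₁ / (κ * c₄) := ⟨_, rfl⟩
  have hC₂0 : 0 ≤ C₂ := by rw [hC₂]; positivity
  obtain ⟨C₃, hC₃⟩ : ∃ C₃ : ℝ, C₃ = (1 + C₂) ^ (γ / q) / (δ' ^ 2) ^ (γ / 2) := ⟨_, rfl⟩
  have hC₃0 : 0 ≤ C₃ := by rw [hC₃]; positivity
  refine ⟨K * C₁ * (a₁ ^ (γ / 2) + C₃), by positivity, fun g hg hg0 v hv => ?_⟩
  have Hv := H g hg hg0 v hv
  have hgv := hg0 v
  have hnv := sq_nonneg' v
  have hgi : Integrable g := hg.rd.integrable hg.cont.aestronglyMeasurable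
  have hint := H82.CM.freq_integrable hd (by linarith : -2 < γ) hγ2 hg v
  have hnn : ∀ z, 0 ≤ g z * len (v - z) ^ γ := fun z =>
    mul_nonneg (hg0 z) (Real.rpow_nonneg (len_nonneg _) _)
  obtain ⟨a, ha⟩ : ∃ a : ℝ, a = 1 + nsq v := ⟨_, rfl⟩
  have ha1 : 1 ≤ a := by linarith
  obtain ⟨W, hW⟩ : ∃ W : ℝ, W = a ^ (γ / 2) := ⟨_, rfl⟩
  have hW0 : 0 ≤ W := by rw [hW]; exact Real.rpow_nonneg (by linarith) _
  have hm0 := Crit_mass_nonneg (g := g) hg0
  have hrate := Crit_rate hg hg0 hγ hq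
  have hS'm : MeasurableSet {z : Vec d | H82.CM.SlowR δ' a₁ v z} := by
    have : {z : Vec d | H82.CM.SlowR δ' a₁ v z} =
        {z | a₁ ≤ 1 + nsq v} ∩ {z | nsq z ≤ δ' ^ 2 * (1 + nsq v)} := rfl
    rw [this]
    exact (MeasurableSet.const _).inter (isClosed_le continuous_sq continuous_const).measurableSet
  have hMm : MeasurableSet {z : Vec d | H82.CM.MedR δ a₀ L v z} := by
    have : {z : Vec d | H82.CM.MedR δ a₀ L v z} =
        {z | nsq z ≤ L * (1 + nsq v)} ∩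
          ({z | a₀ ≤ 1 + nsq v} ∩ {z | nsq z ≤ δ ^ 2 * (1 + nsq v)})ᶜ := rfl
    rw [this]
    exact (isClosed_le continuous_sq continuous_const).measurableSet.inter
      ((MeasurableSet.const _).inter
        (isClosed_le continuous_sq continuous_const).measurableSet).compl
  -- the slow set
  have hSS : {z : Vec d | H82.CM.SlowR δ' a₁ v z} ⊆ {z | H82.CM.SlowR δ a₀ v z} := by
    rintro z ⟨h3, h4⟩
    refine ⟨ha₁0.trans h3, h4.trans ?_⟩
    refine mul_le_mul_of_nonneg_right ?_ (by linarith)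
    exact pow_le_pow_left₀ hδ'0.le hδ'1 2
  have hslow : ∫ z in {z | H82.CM.SlowR δ' a₁ v z}, g z * len (v - z) ^ γ ≤
      ∫ z in {z | H82.CM.SlowR δ a₀ v z}, g z * len (v - z) ^ γ :=
    setIntegral_mono_set hint.integrableOn (Eventually.of_forall hnn)
      (Eventually.of_forall hSS)
  -- the medium set
  have hmed : ∫ z in {z | H82.CM.MedR δ a₀ L v z}, g z * len (v - z) ^ γ ≤
      C₁ * W * ∫ z in {z | H82.CM.MedR δ a₀ L v z}, g z := by
    rw [← integral_const_mul]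
    refine setIntegral_mono_on hint.integrableOn (hgi.const_mul _).integrableOn hMm
      fun z hz => ?_
    have h3 : nsq (v - z) ≤ 2 * (1 + L) * a := by
      have e1 := nsq_par v z
      have e2 := sq_nonneg' (v + z)
      have e3 : nsq z ≤ L * (1 + nsq v) := hz.1
      rw [ha]
      nlinarith
    have h4 : len (v - z) ^ γ ≤ C₁ * W := by
      rw [Crit_len, hC₁, hW, ← Real.mul_rpow (by linarith) (by linarith)]
      exact Real.rpow_le_rpow (sq_nonneg' _) h3 (by linarith)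
    calc g z * len (v - z) ^ γ ≤ g z * (C₁ * W) := mul_le_mul_of_nonneg_left h4 (hg0 z)
      _ = C₁ * W * g z := by ring
  have hmedN : ∫ z in {z | H82.CM.MedR δ a₀ L v z}, g z ≤
      ∫ z in {z | H82.CM.SlowR δ' a₁ v z}ᶜ, g z := by
    refine setIntegral_mono_set hgi.integrableOn (Eventually.of_forall hg0)
      (Eventually.of_forall ?_)
    intro z hz h5
    exact hz.2 (hSS h5)
  have hNle : ∫ z in {z | H82.CM.SlowR δ' a₁ v z}ᶜ, g z ≤ mass g :=
    setIntegral_le_integral hgi (Eventually.of_forall hg0)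
  have hsum : (∫ z in {z | H82.CM.SlowR δ' a₁ v z}, g z) +
      ∫ z in {z | H82.CM.SlowR δ' a₁ v z}ᶜ, g z = mass g :=
    integral_add_compl hS'm hgi
  obtain ⟨N, hN⟩ : ∃ N : ℝ, N = ∫ z in {z | H82.CM.SlowR δ' a₁ v z}ᶜ, g z := ⟨_, rfl⟩
  obtain ⟨S₀, hS₀⟩ : ∃ S₀ : ℝ, S₀ = ∫ z in {z | H82.CM.SlowR δ' a₁ v z}, g z := ⟨_, rfl⟩
  rw [← hN] at hmedN hNle hsum
  rw [← hS₀] at hsum
  have hN0 : 0 ≤ N := by rw [hN]; exact integral_nonneg hg0
  have hS₀0 : 0 ≤ S₀ := by rw [hS₀]; exact integral_nonneg hg0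
  have hKg : 0 ≤ K * g v := mul_nonneg hK hgv
  have hκg : 0 ≤ κ * g v := mul_nonneg hκ.le hgv
  have hCW : 0 ≤ C₁ * W := mul_nonneg hC₁0.le hW0
  -- the bound with the medium term
  have hup : boltzQ γ b g v + κ * g v *
      ∫ z in {z | H82.CM.SlowR δ' a₁ v z}, g z * len (v - z) ^ γ ≤ K * g v * (C₁ * W * N) := by
    have e1 := mul_le_mul_of_nonneg_left hslow hκg
    have e2 := mul_le_mul_of_nonneg_left hmed hKg
    have e3 := mul_le_mul_of_nonneg_left (mul_le_mul_of_nonneg_left hmedN hCW) hKg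
    linarith
  have hslow0 : 0 ≤ κ * g v *
      ∫ z in {z | H82.CM.SlowR δ' a₁ v z}, g z * len (v - z) ^ γ :=
    mul_nonneg hκg (integral_nonneg hnn)
  have hup2 : boltzQ γ b g v ≤ K * C₁ * g v * W * mass g := by
    have e3 := mul_le_mul_of_nonneg_left (mul_le_mul_of_nonneg_left hNle hCW) hKg
    have e4 : K * g v * (C₁ * W * mass g) = K * C₁ * g v * W * mass g := by ring
    linarith
  have hKC : 0 ≤ K * C₁ * g v := mul_nonneg (mul_nonneg hK hC₁0.le) hgv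
  have hr0 : 0 ≤ rate γ q g := hm0.trans hrate
  have hgoal : ∀ X : ℝ, 0 ≤ X → X ≤ (a₁ ^ (γ / 2) + C₃) * rate γ q g →
      boltzQ γ b g v ≤ K * C₁ * g v * X →
      boltzQ γ b g v ≤ K * C₁ * (a₁ ^ (γ / 2) + C₃) * g v * rate γ q g := by
    intro X _ hX hB
    have := mul_le_mul_of_nonneg_left hX hKC
    calc boltzQ γ b g v ≤ K * C₁ * g v * X := hB
      _ ≤ K * C₁ * g v * ((a₁ ^ (γ / 2) + C₃) * rate γ q g) := this
      _ = K * C₁ * (a₁ ^ (γ / 2) + C₃) * g v * rate γ q g := by ring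
  have ha₁r : 0 ≤ a₁ ^ (γ / 2) := Real.rpow_nonneg (by linarith) _
  rcases lt_or_ge a a₁ with hcase | hcase
  · -- small velocities
    refine hgoal (W * mass g) (mul_nonneg hW0 hm0) ?_ (by linarith)
    have h6 : W ≤ a₁ ^ (γ / 2) := by
      rw [hW]
      exact Real.rpow_le_rpow (by linarith) hcase.le (by linarith)
    calc W * mass g ≤ a₁ ^ (γ / 2) * rate γ q g := mul_le_mul h6 hrate hm0 ha₁r
      _ ≤ (a₁ ^ (γ / 2) + C₃) * rate γ q g :=
        mul_le_mul_of_nonneg_right (by linarith) hr0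
  · rcases hm0.eq_or_lt with hmz | hmpos
    · refine hgoal 0 le_rfl (mul_nonneg (by linarith) hr0) ?_
      rw [← hmz] at hup2
      linarith
    have hlow : κ * g v * (c₄ * W * S₀) ≤ κ * g v *
        ∫ z in {z | H82.CM.SlowR δ' a₁ v z}, g z * len (v - z) ^ γ := by
      refine mul_le_mul_of_nonneg_left ?_ hκg
      rw [hS₀, ← integral_const_mul]
      refine setIntegral_mono_on (hgi.const_mul _).integrableOn hint.integrableOn hS'm
        fun z hz => ?_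
      have h3 : a / 16 ≤ nsq (v - z) := by
        have e1 := nsq_par (v - z) z
        have e2 := sq_nonneg' (v - z - z)
        have e3 : nsq z ≤ δ' ^ 2 * (1 + nsq v) := hz.2
        have e4 : δ' ^ 2 ≤ 1 / 16 := by nlinarith
        rw [sub_add_cancel] at e1
        have e5 : δ' ^ 2 * (1 + nsq v) ≤ 1 / 16 * (1 + nsq v) :=
          mul_le_mul_of_nonneg_right e4 (by linarith)
        have e6 : 2 ≤ a := ha₁2.trans hcase
        rw [ha] at e6 ⊢
        linarith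
      have h4 : c₄ * W ≤ len (v - z) ^ γ := by
        rw [Crit_len, hc₄, hW, ← Real.mul_rpow (by norm_num) (by linarith)]
        refine Real.rpow_le_rpow (by linarith) ?_ (by linarith)
        linarith
      calc c₄ * W * g z ≤ len (v - z) ^ γ * g z := mul_le_mul_of_nonneg_right h4 (hg0 z)
        _ = g z * len (v - z) ^ γ := by ring
    by_cases hneg : K * C₁ * N ≤ κ * c₄ * S₀
    · refine hgoal 0 le_rfl (mul_nonneg (by linarith) hr0) ?_
      have e1 := mul_le_mul_of_nonneg_left hneg (mul_nonneg hgv hW0)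
      have e2 : g v * W * (K * C₁ * N) = K * g v * (C₁ * W * N) := by ring
      have e3 : g v * W * (κ * c₄ * S₀) = κ * g v * (c₄ * W * S₀) := by ring
      rw [mul_zero]
      linarith
    · rw [not_le] at hneg
      have hκc : 0 < κ * c₄ := mul_pos hκ hc₄0
      have h7 : S₀ ≤ C₂ * N := by
        rw [hC₂, div_mul_eq_mul_div, le_div_iff₀ hκc]
        linarith
      have h8 : mass g ≤ (1 + C₂) * N := by linarith
      have h9 : (δ' ^ 2 * a) ^ (q / 2) * N ≤ mom q g := by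
        have e1 : (δ' ^ 2 * a) ^ (q / 2) * N ≤
            ∫ z in {z | H82.CM.SlowR δ' a₁ v z}ᶜ, g z * (1 + nsq z) ^ (q / 2) := by
          rw [hN, ← integral_const_mul]
          refine setIntegral_mono_on (hgi.const_mul _).integrableOn
            (Crit_momInt hg hq).integrableOn hS'm.compl fun z hz => ?_
          have h10 : δ' ^ 2 * a ≤ 1 + nsq z := by
            by_contra hcon
            rw [not_le] at hcon
            refine hz ⟨by rw [← ha]; exact hcase, ?_⟩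
            rw [← ha]
            linarith
          have h11 : (δ' ^ 2 * a) ^ (q / 2) ≤ (1 + nsq z) ^ (q / 2) :=
            Real.rpow_le_rpow (by positivity) h10 (by linarith)
          rw [mul_comm]
          exact mul_le_mul_of_nonneg_left h11 (hg0 z)
        refine e1.trans (setIntegral_le_integral (Crit_momInt hg hq) (Eventually.of_forall ?_))
        intro z
        exact mul_nonneg (hg0 z) (Real.rpow_nonneg (by linarith [sq_nonneg' z]) _)
      have h12 := Crit_end (γ := γ) hγ hq hδ'0 (by linarith : 0 < a) hC₂0 hmpos h8 h9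
      rw [← hW, ← hC₃] at h12
      refine hgoal (W * mass g) (mul_nonneg hW0 hm0) ?_ (by linarith)
      calc W * mass g ≤ C₃ * (mom q g / mass g) ^ (γ / q) * mass g :=
            mul_le_mul_of_nonneg_right h12 hm0
        _ = C₃ * rate γ q g := by unfold rate; ring
        _ ≤ (a₁ ^ (γ / 2) + C₃) * rate γ q g :=
          mul_le_mul_of_nonneg_right (by linarith) hr0

theorem crit_soft {γ s : ℝ} (hd : 2 ≤ d) (hs : s ∈ Ioo (0 : ℝ) 1) (h0 : 0 ≤ γ + 2 * s)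
    (hγ : γ ≤ 0) {b : ℝ → ℝ} (hb : IsKernel d s b) {p : ℕ}
    (hp : (d : ℝ) + γ + 4 ≤ 2 * p) :
    ∃ K : ℝ, 0 ≤ K ∧ ∀ g : Vec d → ℝ, Nice g → (∀ u, 0 ≤ g u) → ∀ v : Vec d,
      (∀ u, g u * (1 + nsq u) ^ p ≤ g v * (1 + nsq v) ^ p) →
      boltzQ γ b g v ≤ K * g v * ∫ z, g z * len (v - z) ^ γ := by
  obtain ⟨K, κ, δ, a₀, L, hK, hκ, hδ, hδ1, ha₀, hL, H⟩ :=
    H82.CM.op_bound hd hs h0 (by linarith [hs.2]) hb hp
  refine ⟨K, hK, fun g hg hg0 v hv => ?_⟩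
  have Hv := H g hg hg0 v hv
  have hgv := hg0 v
  have hint := H82.CM.freq_integrable hd (by linarith [hs.2] : -2 < γ) (by linarith) hg v
  have hnn : ∀ z, 0 ≤ g z * len (v - z) ^ γ := fun z =>
    mul_nonneg (hg0 z) (Real.rpow_nonneg (len_nonneg _) _)
  have h1 : 0 ≤ κ * g v * ∫ z in {z | H82.CM.SlowR δ a₀ v z}, g z * len (v - z) ^ γ :=
    mul_nonneg (mul_nonneg hκ.le hgv) (integral_nonneg hnn)
  have h2 : ∫ z in {z | H82.CM.MedR δ a₀ L v z}, g z * len (v - z) ^ γ ≤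
      ∫ z, g z * len (v - z) ^ γ :=
    setIntegral_le_integral hint (Eventually.of_forall hnn)
  have h3 := mul_le_mul_of_nonneg_left h2 (mul_nonneg hK hgv)
  linarith

end Pool.Agent.H93.CM
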