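import Pool.Agent.H93.CM.Defs
import Pool.Agent.H82.CM.RealG

/-!
# Module CutGe: lower bound of the cut-off operator from an inequality in `ℝ≥0∞`

The same proof as `cut_leg` in H82/CM/RealG.lean (copy the private lemmas `Real_int`, `Real_toReal` from there):
`boltzCut = (Gn).toReal - (Ls).toReal`, both finite, and `Ls ≤ Gn + ofReal R` gives `Ls.toReal ≤ Gn.toReal + R`.
-/

set_option autoImplicit false

open MeasureTheory Set Filter Topology Pool.Agent.H25.Kin Pool.Agent.H82.BK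
open scoped ENNReal

namespace Pool.Agent.H93.CM

variable {d : ℕ}

theorem cut_ge {γ s : ℝ} {b : ℝ → ℝ} {C Ca : ℝ} (H : Hyp d γ s b C Ca) {g : Vec d → ℝ}
    (hg : Nice g) (hg0 : ∀ u, 0 ≤ g u) {ε : ℝ} (hε : 0 < ε) (v : Vec d) {R : ℝ} (hR : 0 ≤ R)
    (h : Ls γ b ε g v ≤ Gn γ b ε g v + ENNReal.ofReal R) : -R ≤ boltzCut γ b ε g v := by
  obtain ⟨h1, h2, h3⟩ := Pool.Agent.H82.CM.cut_eq H hg hg0 hε v
  rw [h3]
  have h4 := ENNReal.toReal_mono (ENNReal.add_ne_top.2 ⟨h1, ENNReal.ofReal_ne_top⟩) h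
  rw [ENNReal.toReal_add h1 ENNReal.ofReal_ne_top, ENNReal.toReal_ofReal hR] at h4
  linarith

end Pool.Agent.H93.CM
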