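import Pool.Agent.H82.BK.Fin2
import Pool.Agent.H82.CM.Op
import Pool.Agent.H82.LK.LFin
import Pool.Agent.H25.Kin.Admis

/-!
# Definitions for the critical continuation criterion (MP_c15324_an)
-/

set_option autoImplicit false

open MeasureTheory Set Filter Topology Pool.Agent.H25.Kin Pool.Agent.H82.BK

namespace Pool.Agent.H93.CM

variable {d : ℕ}

/-- the mass `∫ g dv` -/
noncomputable def mass (g : Vec d → ℝ) : ℝ := ∫ v, g v

/-- the moment `∫ g (1+|v|²)^(q/2) dv` of order `q` -/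
noncomputable def mom (q : ℝ) (g : Vec d → ℝ) : ℝ := ∫ v, g v * (1 + nsq v) ^ (q / 2)

/-- The collision rate `ρ V^γ`, where `ρ` is the mass and `V = (M_q/ρ)^(1/q)` is the mean speed of order `q`, i.e.
`V^q` is the mean value of `(1+|v|²)^(q/2)`. For `γ = 0` the rate is the mass. -/
noncomputable def rate (γ q : ℝ) (g : Vec d → ℝ) : ℝ := mass g * (mom q g / mass g) ^ (γ / q)

/-- The collision rate is bounded by an integrable function of time: `ρ V^γ ≤ m(t)` for all `t ∈ (0,T)` and `x`, with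
`∫_0^T m < ∞`. -/
def RateInL1 (γ q T : ℝ) (f : ℝ → Vec d → Vec d → ℝ) : Prop :=
  ∃ m : ℝ → ℝ, IntegrableOn m (Ioo 0 T) ∧ ∀ t ∈ Ioo 0 T, ∀ x, rate γ q (f t x) ≤ m t

/-- The convolution with `|·|^γ` is bounded by an integrable function of time:
`∫ f(t,x,w) |v-w|^γ dw ≤ m(t)` for all `t ∈ (0,T)`, `x`, `v`, with `∫_0^T m < ∞`. -/
def ConvInL1 (γ T : ℝ) (f : ℝ → Vec d → Vec d → ℝ) : Prop :=
  ∃ m : ℝ → ℝ, IntegrableOn m (Ioo 0 T) ∧
    ∀ t ∈ Ioo 0 T, ∀ x v, ∫ w, f t x w * len (v - w) ^ γ ≤ m t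

/-- The hydrodynamic bounds on `[0,T) × 𝕋^d`, with some constants: the mass density is bounded below by a positive
constant and above, the energy density and the entropy density are bounded above. -/
def HydroUpTo (T : ℝ) (f : ℝ → Vec d → Vec d → ℝ) : Prop :=
  ∃ m₀ > 0, ∃ M E H : ℝ, ∀ t ∈ Ico 0 T, ∀ x, HydroBounds m₀ M E H (f t x)

/-- Gaussian decay up to time `T`: `f ≤ C exp (-μ |v|²)` on `[0,T)`, for some `C` and `μ > 0`. -/
def GaussUpTo (T : ℝ) (f : ℝ → Vec d → Vec d → ℝ) : Prop :=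
  ∃ μ > 0, ∃ C : ℝ, ∀ t ∈ Ico 0 T, ∀ x v, f t x v ≤ C * Real.exp (-(μ * nsq v))

/-- the barrier `B exp (-|u|²/B) + E (1+|u|²)^(-p)` -/
noncomputable def bar (B E : ℝ) (p : ℕ) (u : Vec d) : ℝ :=
  B * Real.exp (-(nsq u / B)) + E * ((1 + nsq u) ^ p)⁻¹

end Pool.Agent.H93.CM
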