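import Pool.Agent.H93.CM.Defs

/-!
# Module EllL: ellipticity of the Landau matrix in one direction

`ξ = v - v₁`, `|ξ| ≥ r`. `∑_ij (a_ij * g)(v) ξ_i ξ_j = ∫ g(v-z) |z|^γ (|z|²|ξ|² - (z·ξ)²) dz = ∫ g(w) |v-w|^γ (|v-w|²|ξ|² - ((v-w)·ξ)²) dw`, the
integrand is `≥ 0` (Cauchy-Schwarz; the interchange of sum and integral is `conv_sum` in H82/LK/LOp.lean, private: copy). Put
`w = v₁ + y`: `v - w = ξ - y` and `|ξ-y|²|ξ|² - ((ξ-y)·ξ)² = |y|²|ξ|² - (y·ξ)²`. Let `n` be a unit vector orthogonal to `ξ`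
(`exists_perp`, H82/CM/Shell.lean) and restrict to `y = (r/2) n + y'`, `|y'| ≤ r/8`: `|y| ≤ r`, so `g ≥ c` there; `|y| ≥ 3r/8`,
`|y·ξ| = |y'·ξ| ≤ (r/8)|ξ|`, so `|y|²|ξ|² - (y·ξ)² ≥ (1/8) r²|ξ|² ≥ r⁴/8`; `0 < |ξ-y| ≤ ρ+r` (a.e.), so `|ξ-y|^γ ≥ (ρ+r)^γ`. With
`V = volume {y' : |y'|² ≤ r²/64} > 0` (translation invariant): `λ = c (ρ+r)^γ (r⁴/8) V`.
-/

set_option autoImplicit false

open MeasureTheory Set Filter Topology Pool.Agent.H25.Kin Pool.Agent.H82.BK

namespace Pool.Agent.H93.CM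

variable {d : ℕ}

private lemma conv_sum {k : Fin d → Fin d → Vec d → ℝ} {f : Vec d → ℝ} (v : Vec d)
    (M : Fin d → Fin d → ℝ) (hk : ∀ i j, Integrable fun z => k i j z • f (v - z)) :
    (Integrable fun z => f (v - z) * ∑ i, ∑ j, k i j z * M i j) ∧
      ∑ i, ∑ j, conv (k i j) f v * M i j = ∫ z, f (v - z) * ∑ i, ∑ j, k i j z * M i j := by
  have e : ∀ z, f (v - z) * ∑ i, ∑ j, k i j z * M i j =
      ∑ i, ∑ j, (k i j z • f (v - z)) * M i j := by
    intro z
    rw [Finset.mul_sum]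
    refine Finset.sum_congr rfl fun i _ => ?_
    rw [Finset.mul_sum]
    refine Finset.sum_congr rfl fun j _ => ?_
    rw [smul_eq_mul]
    ring
  simp_rw [e]
  refine ⟨integrable_finsetSum _ fun i _ => integrable_finsetSum _ fun j _ =>
    (hk i j).mul_const _, ?_⟩
  rw [integral_finsetSum]
  · refine Finset.sum_congr rfl fun i _ => ?_
    rw [integral_finsetSum]
    · refine Finset.sum_congr rfl fun j _ => ?_
      rw [integral_mul_const]
      rfl
    · exact fun j _ => (hk i j).mul_const _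
  · exact fun i _ => integrable_finsetSum _ fun j _ => (hk i j).mul_const _

/-- the quadratic form of the Landau matrix -/
private lemma quad_eq (γ : ℝ) (z x : Vec d) :
    ∑ i, ∑ j, landauA γ z i j * (x i * x j) =
      (nsq z * nsq x - dot z x ^ 2) * nsq z ^ (γ / 2) := by
  have h1 : ∀ i, ∑ j, landauA γ z i j * (x i * x j) =
      (nsq z * x i ^ 2 - z i * x i * dot z x) * nsq z ^ (γ / 2) := by
    intro i
    have h2 : ∀ j, landauA γ z i j * (x i * x j) =
        ((if i = j then nsq z * (x i * x j) else 0) - z i * x i * (z j * x j)) *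
          nsq z ^ (γ / 2) := by
      intro j
      unfold landauA
      split_ifs <;> ring
    simp_rw [h2]
    rw [← Finset.sum_mul, Finset.sum_sub_distrib, Finset.sum_ite_eq, ← Finset.mul_sum]
    simp only [Finset.mem_univ, if_true]
    unfold dot
    ring
  simp_rw [h1]
  rw [← Finset.sum_mul, Finset.sum_sub_distrib, ← Finset.mul_sum, ← Finset.sum_mul]
  unfold nsq dot
  ring

private lemma quad_low {r ρ : ℝ} (hr : 0 < r) (hρ : 0 < ρ) {x n y : Vec d} (hx : r ^ 2 ≤ nsq x)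
    (hx2 : nsq x ≤ ρ ^ 2) (hn : nsq n = 1) (hnx : dot x n = 0) (hy : nsq y < r ^ 2 / 64) :
    nsq ((r / 2) • n + y) ≤ r ^ 2 ∧
    r ^ 4 / 8 ≤ nsq (x - ((r / 2) • n + y)) * nsq x - dot (x - ((r / 2) • n + y)) x ^ 2 ∧
    0 < nsq (x - ((r / 2) • n + y)) ∧ nsq (x - ((r / 2) • n + y)) ≤ (ρ + r) ^ 2 := by
  have hy0 := sq_nonneg' y
  have hx0 : 0 < nsq x := lt_of_lt_of_le (by positivity) hx
  have a1 : |dot n y| ≤ r / 8 := by
    have h := dot_sq_le n y
    rw [hn, one_mul] at h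
    exact abs_le_of_sq_le_sq (by nlinarith) (by linarith)
  have a2 : nsq ((r / 2) • n + y) = r ^ 2 / 4 + r * dot n y + nsq y := by
    rw [nsq_add, nsq_smul, smul_dot, hn]
    ring
  have a3 : dot ((r / 2) • n + y) x = dot y x := by
    rw [dot_comm, dot_add, dot_smul, hnx, dot_comm x y]
    ring
  obtain ⟨a4, a5⟩ := abs_le.1 a1
  have b1 : nsq ((r / 2) • n + y) ≤ r ^ 2 := by
    rw [a2]
    nlinarith
  have b2 : r ^ 4 / 8 ≤
      nsq (x - ((r / 2) • n + y)) * nsq x - dot (x - ((r / 2) • n + y)) x ^ 2 := by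
    have e1 : nsq (x - ((r / 2) • n + y)) = nsq x - 2 * dot y x + nsq ((r / 2) • n + y) := by
      rw [nsq_sub, dot_comm x, a3]
    have e2 : dot (x - ((r / 2) • n + y)) x = nsq x - dot y x := by
      rw [dot_comm, dot_sub, dot_self, dot_comm x, a3]
    have h := dot_sq_le y x
    rw [e1, e2, a2]
    have h3 : (nsq x - 2 * dot y x + (r ^ 2 / 4 + r * dot n y + nsq y)) * nsq x -
        (nsq x - dot y x) ^ 2 =
        (r ^ 2 / 4 + r * dot n y) * nsq x + (nsq y * nsq x - dot y x ^ 2) := by ring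
    rw [h3]
    have h4 : r ^ 2 / 8 ≤ r ^ 2 / 4 + r * dot n y := by nlinarith
    have h5 : r ^ 2 / 8 * r ^ 2 ≤ (r ^ 2 / 4 + r * dot n y) * nsq x :=
      mul_le_mul h4 hx (by positivity) (by nlinarith [sq_nonneg r])
    nlinarith
  have b3 : 0 < nsq (x - ((r / 2) • n + y)) := by
    rcases (sq_nonneg' (x - ((r / 2) • n + y))).eq_or_lt with h | h
    · rw [← h, zero_mul] at b2
      have : 0 < r ^ 4 / 8 := by positivity
      nlinarith [sq_nonneg (dot (x - ((r / 2) • n + y)) x)]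
    · exact h
  refine ⟨b1, b2, b3, ?_⟩
  have h6 : |dot x ((r / 2) • n + y)| ≤ ρ * r := by
    have h := dot_sq_le x ((r / 2) • n + y)
    refine abs_le_of_sq_le_sq ?_ (by positivity)
    calc dot x ((r / 2) • n + y) ^ 2 ≤ nsq x * nsq ((r / 2) • n + y) := h
      _ ≤ ρ ^ 2 * r ^ 2 := mul_le_mul hx2 b1 (sq_nonneg' _) (by positivity)
      _ = (ρ * r) ^ 2 := by ring
  rw [nsq_sub]
  have h7 := (abs_le.1 h6).1
  nlinarith

theorem ell_low (hd : 2 ≤ d) {γ : ℝ} (h1 : -2 < γ) (h2 : γ ≤ 0) {c r ρ : ℝ} (hc : 0 < c)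
    (hr : 0 < r) (hρ : 0 < ρ) (v₁ : Vec d) :
    ∃ lam : ℝ, 0 < lam ∧ ∀ g : Vec d → ℝ, Nice g → (∀ u, 0 ≤ g u) →
      (∀ u, nsq (u - v₁) ≤ r ^ 2 → c ≤ g u) →
      ∀ v : Vec d, r ^ 2 ≤ nsq (v - v₁) → nsq (v - v₁) ≤ ρ ^ 2 →
      lam ≤ ∑ i, ∑ j, conv (fun z => landauA γ z i j) g v * ((v - v₁) i * (v - v₁) j) := by
  set B : Set (Vec d) := {y | nsq y < r ^ 2 / 64} with hB
  have hBo : IsOpen B := isOpen_lt continuous_sq continuous_const
  have hB0 : (0 : Vec d) ∈ B := by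
    show nsq (0 : Vec d) < r ^ 2 / 64
    have : nsq (0 : Vec d) = 0 := by
      unfold nsq
      exact Finset.sum_eq_zero fun i _ => by simp
    rw [this]
    positivity
  have hBpos : 0 < (volume : Measure (Vec d)) B := hBo.measure_pos _ ⟨0, hB0⟩
  have hBfin : (volume : Measure (Vec d)) B < ⊤ := by
    have hsub : B ⊆ Metric.closedBall 0 r := by
      intro z hz
      rw [mem_closedBall_zero_iff]
      have h3 := norm_sq_le_sq z
      have h4 : nsq z < r ^ 2 / 64 := hz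
      exact (sq_le_sq₀ (norm_nonneg z) hr.le).1 (by nlinarith)
    exact (measure_mono hsub).trans_lt (isCompact_closedBall _ _).measure_lt_top
  have hV : 0 < (volume : Measure (Vec d)).real B := ENNReal.toReal_pos hBpos.ne' hBfin.ne
  set K : ℝ := c * (r ^ 4 / 8 * ((ρ + r) ^ 2) ^ (γ / 2)) with hK
  have hK0 : 0 < K := by
    have : 0 < ((ρ + r) ^ 2) ^ (γ / 2) := Real.rpow_pos_of_pos (by positivity) _
    positivity
  refine ⟨(volume : Measure (Vec d)).real B * K, by positivity, fun g hg hg0 hgc v hv hv2 => ?_⟩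
  set x : Vec d := v - v₁ with hxdef
  have hx0 : 0 < nsq x := lt_of_lt_of_le (by positivity) hv
  -- a unit vector orthogonal to `x`
  obtain ⟨n, hn, hnx⟩ : ∃ n : Vec d, nsq n = 1 ∧ dot x n = 0 := by
    have hl : 0 < Real.sqrt (nsq x) := Real.sqrt_pos.2 hx0
    have hu : nsq ((Real.sqrt (nsq x))⁻¹ • x) = 1 := by
      rw [nsq_smul, inv_pow, Real.sq_sqrt hx0.le]
      exact inv_mul_cancel₀ hx0.ne'
    obtain ⟨n, hn, hkn⟩ := Pool.Agent.H82.CM.exists_perp hd hu
    refine ⟨n, hn, ?_⟩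
    rw [smul_dot] at hkn
    exact (mul_eq_zero.1 hkn).resolve_left (inv_ne_zero hl.ne')
  have hk : ∀ i j, Integrable fun z => landauA γ z i j • g (v - z) := fun i j =>
    (kern_landauA h1 h2 i j).integrable hg.cont hg.rd v
  obtain ⟨hint, hsum⟩ := conv_sum (k := fun i j z => landauA γ z i j) v
    (fun i j => x i * x j) hk
  rw [hsum]
  have hq : ∀ z, ∑ i, ∑ j, landauA γ z i j * (x i * x j) =
      (nsq z * nsq x - dot z x ^ 2) * nsq z ^ (γ / 2) := fun z => quad_eq γ z x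
  have hnn : ∀ z, 0 ≤ g (v - z) * ∑ i, ∑ j, landauA γ z i j * (x i * x j) := by
    intro z
    rw [hq]
    have h3 := dot_sq_le z x
    exact mul_nonneg (hg0 _) (mul_nonneg (by linarith) (Real.rpow_nonneg (sq_nonneg' z) _))
  -- the region
  set z₀ : Vec d := x - (r / 2) • n with hz₀
  set S : Set (Vec d) := (fun z => z₀ - z) ⁻¹' B with hS
  have hSm : MeasurableSet S :=
    hBo.measurableSet.preimage (measurable_const.sub measurable_id)
  have hSv : (volume : Measure (Vec d)) S = (volume : Measure (Vec d)) B :=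
    (Measure.measurePreserving_sub_left (volume : Measure (Vec d)) z₀).measure_preimage
      hBo.measurableSet.nullMeasurableSet
  have hSr : (volume : Measure (Vec d)).real S = (volume : Measure (Vec d)).real B := by
    unfold Measure.real
    rw [hSv]
  have hpt : ∀ z ∈ S, K ≤ g (v - z) * ∑ i, ∑ j, landauA γ z i j * (x i * x j) := by
    intro z hz
    have hy : nsq (z₀ - z) < r ^ 2 / 64 := hz
    obtain ⟨b1, b2, b3, b4⟩ := quad_low hr hρ hv hv2 hn hnx hy
    have e1 : x - ((r / 2) • n + (z₀ - z)) = z := by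
      rw [hz₀]
      abel
    have e2 : v - z - v₁ = (r / 2) • n + (z₀ - z) := by
      rw [hz₀, hxdef]
      abel
    rw [e1] at b2 b3 b4
    have h3 : c ≤ g (v - z) := hgc _ (by rw [e2]; exact b1)
    have h4 : ((ρ + r) ^ 2) ^ (γ / 2) ≤ nsq z ^ (γ / 2) :=
      Real.rpow_le_rpow_of_nonpos b3 b4 (by linarith)
    have h5 : 0 < ((ρ + r) ^ 2) ^ (γ / 2) := Real.rpow_pos_of_pos (by positivity) _
    have h6 : 0 < r ^ 4 / 8 := by positivity
    rw [hq]
    have h7 : r ^ 4 / 8 * ((ρ + r) ^ 2) ^ (γ / 2) ≤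
        (nsq z * nsq x - dot z x ^ 2) * nsq z ^ (γ / 2) :=
      mul_le_mul b2 h4 h5.le (by linarith)
    exact mul_le_mul h3 h7 (by positivity) (hg0 _)
  calc (volume : Measure (Vec d)).real B * K = ∫ _z in S, K := by
        rw [setIntegral_const, hSr, smul_eq_mul]
    _ ≤ ∫ z in S, g (v - z) * ∑ i, ∑ j, landauA γ z i j * (x i * x j) := by
        refine setIntegral_mono_on ?_ hint.integrableOn hSm hpt
        exact integrableOn_const (by rw [hSv]; exact hBfin.ne)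
    _ ≤ ∫ z, g (v - z) * ∑ i, ∑ j, landauA γ z i j * (x i * x j) :=
        setIntegral_le_integral hint (Eventually.of_forall hnn)

end Pool.Agent.H93.CM
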