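import Pool.Agent.H93.CM.Defs

/-!
# Module MaxG: the maximum principle with a Gaussian barrier of growing width

Fix `t ∈ [0,T)` (`t = 0` is trivial: the integral over `Ioc 0 0` is `0`, `exp(log B₀ · 1) = B₀`), `T₁ = t`, `L` from `hQ T₁`. Fix `η ∈ (0,1]`.
`Y` from `barrier_fn_mono` (H82/BK/Barrier2.lean) on `[0,T₁]` with `A₀ := log B₀ ≥ 1`: `Y` continuous, positive, monotone, `Y 0 = log B₀ + η`,
`Y(t₀-τ)(1+τ(η+K m t₀)) ≤ Y t₀` for small `τ > 0`, and the upper bound. `B(t) = exp (Y t) ≥ e`. Fix `ε > 0` with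
`ε exp((L+1)T₁) ≤ 1`, `E(t) = ε exp((L+1)t) ∈ [ε,1]`, `Ψ(t,v) = bar (B t) (E t) p v`.
CLAIM `f t x v < Ψ(t,v)` on `[0,T₁]`. At `t = 0`: `f ≤ B₀ exp(-|v|²/B₀) ≤ B(0) exp(-|v|²/B(0)) < Ψ` (`B ↦ B exp(-x/B)` is increasing).
If it fails use `first_touch_weight` (H82/BK/Touch2.lean) with the constant barrier `B := ε` and the weight
`W t v = ε/Ψ(t,v)` (continuous, `0 ≤ W ≤ ε (1+|v|²)^p/E(t) ≤ (1+|v|²)^p`; `f W ≤ ε` iff `f ≤ Ψ`): a first touching point `(t₀,x₀,v₀)`,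
`t₀ > 0`, `f(t₀,x₀,v₀) = Ψ(t₀,v₀)`, `f(t₀,·) ≤ Ψ(t₀,·)`, `f(s,·) < Ψ(s,·)` for `s < t₀`.
Let `F(τ) = f(t₀+τ,x₀+τv₀,v₀)`, derivative `Q` at `0` (`char_deriv`). With `x = |v₀|²/B(t₀)`, `G₀ = B(t₀) exp(-x)`, `φ = (1+|v₀|²)^(-p)`,
`Δ = Y(t₀)-Y(t₀-τ) ≥ Y(t₀-τ) τ c`, `c = η + K m(t₀)`: `log` of `B exp(-|v₀|²/B)` at `t₀` minus at `t₀-τ` is
`Δ + |v₀|²(exp(-Y(t₀-τ)) - exp(-Y(t₀))) ≥ Δ(1+x)` (`exp Δ - 1 ≥ Δ`). So
`F(-τ) < G₀ exp(-Y(t₀-τ) τ c (1+x)) + E(t₀) exp(-(L+1)τ) φ`, equality at `τ = 0`; divide by `τ → 0+` (`Y(t₀-τ) → Y(t₀)`):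
`Q ≥ G₀ Y(t₀) c (1+x) + (L+1) E(t₀) φ > K Y(t₀) m(t₀) G₀ (1+x) + L E(t₀) φ`, contradicting `hQ` (`log B(t₀) = Y(t₀)`).
Finally let `ε → 0+` with `η` fixed (at the point `(t,x,v)`: `f ≤ B(t) exp(-|v|²/B(t)) + E(t) φ`), use the upper bound
`Y t ≤ (log B₀+η) exp(ηt + K(∫m+η))` and monotonicity of `B ↦ B exp(-x/B)`, and let `η → 0+`.
-/

set_option autoImplicit false

open MeasureTheory Set Filter Topology Pool.Agent.H25.Kin Pool.Agent.H82.BK

namespace Pool.Agent.H93.CM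

variable {d : ℕ}

private lemma mg_mono {B B' n : ℝ} (hB : 0 < B) (hBB : B ≤ B') (hn : 0 ≤ n) :
    B * Real.exp (-(n / B)) ≤ B' * Real.exp (-(n / B')) := by
  have h1 : n / B' ≤ n / B := div_le_div_of_nonneg_left hn hB hBB
  exact mul_le_mul hBB (Real.exp_le_exp.2 (by linarith)) (Real.exp_pos _).le (hB.trans_le hBB).le

private lemma mg_step {y y' n δ : ℝ} (hn : 0 ≤ n) (hδ : δ ≤ y - y') :
    Real.exp y' * Real.exp (-(n / Real.exp y')) ≤
      Real.exp y * Real.exp (-(n / Real.exp y)) * Real.exp (-(δ * (1 + n / Real.exp y))) := by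
  rw [← Real.exp_add, ← Real.exp_add, ← Real.exp_add]
  refine Real.exp_le_exp.2 ?_
  have h1 : n / Real.exp y' = n / Real.exp y * Real.exp (y - y') := by
    rw [Real.exp_sub]
    field_simp
  have h2 := Real.add_one_le_exp (y - y')
  have h3 : 0 ≤ n / Real.exp y := div_nonneg hn (Real.exp_pos _).le
  have h4 : n / Real.exp y * (y - y' + 1) ≤ n / Real.exp y * Real.exp (y - y') :=
    mul_le_mul_of_nonneg_left h2 h3
  have h5 : δ * (1 + n / Real.exp y) ≤ (y - y') * (1 + n / Real.exp y) :=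
    mul_le_mul_of_nonneg_right hδ (by linarith)
  rw [h1]
  nlinarith

private lemma mg_deriv {g : ℝ → ℝ} {q G E a b : ℝ} (hd : HasDerivAt g q 0) (h0 : g 0 = G + E)
    (hev : ∀ᶠ τ in 𝓝[>] (0 : ℝ), g (-τ) ≤ G * Real.exp (-(τ * a)) + E * Real.exp (-(τ * b))) :
    G * a + E * b ≤ q := by
  have h1 : HasDerivAt (fun τ : ℝ => g (-τ)) (-q) 0 := by
    have h2 : HasDerivAt (fun τ : ℝ => -τ) (-1) 0 := (hasDerivAt_id (0 : ℝ)).neg
    have h3 : HasDerivAt g q (-0) := by rw [neg_zero]; exact hd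
    have h4 := HasDerivAt.comp (0 : ℝ) h3 h2
    rw [mul_neg_one] at h4
    exact h4
  have h2 : ∀ c : ℝ, HasDerivAt (fun τ : ℝ => Real.exp (-(τ * c))) (-c) 0 := by
    intro c
    have h3 : HasDerivAt (fun τ : ℝ => -(τ * c)) (-c) 0 := by
      have := ((hasDerivAt_id (0 : ℝ)).mul_const c).neg
      rw [one_mul] at this
      exact this
    have h4 := h3.exp
    simpa using h4
  have h3 := h1.sub (((h2 a).const_mul G).add ((h2 b).const_mul E))
  have h5 := h3.tendsto_slope_zero_right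
  have h6 : -q - (G * -a + E * -b) ≤ 0 := by
    refine le_of_tendsto h5 ?_
    filter_upwards [hev, self_mem_nhdsWithin] with τ hτ hτ0
    have hτ0' : 0 < τ := hτ0
    simp only [Pi.sub_apply, Pi.add_apply, zero_add, neg_zero, zero_mul, Real.exp_zero, mul_one,
      smul_eq_mul]
    exact mul_nonpos_of_nonneg_of_nonpos (inv_nonneg.2 hτ0'.le) (by linarith)
  linarith

private lemma mg_pos {B E : ℝ} (hB : 0 < B) (hE : 0 ≤ E) (p : ℕ) (u : Vec d) : 0 < bar B E p u := by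
  have hn := sq_nonneg' u
  have h1 : 0 ≤ E * ((1 + nsq u) ^ p)⁻¹ := mul_nonneg hE (by positivity)
  have h2 : 0 < B * Real.exp (-(nsq u / B)) := mul_pos hB (Real.exp_pos _)
  unfold bar
  linarith

private lemma mg_cont {T₁ : ℝ} {B E : ℝ → ℝ} (hB : ContinuousOn B (Icc 0 T₁))
    (hB0 : ∀ t ∈ Icc 0 T₁, 0 < B t) (hE : ContinuousOn E (Icc 0 T₁)) (p : ℕ) :
    ContinuousOn (fun q : ℝ × Vec d => bar (B q.1) (E q.1) p q.2) (Icc 0 T₁ ×ˢ univ) := by
  have hnq : Continuous (nsq : Vec d → ℝ) := by unfold nsq; fun_prop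
  have hB' : ContinuousOn (fun q : ℝ × Vec d => B q.1) (Icc 0 T₁ ×ˢ univ) :=
    hB.comp continuous_fst.continuousOn fun q hq => hq.1
  have hE' : ContinuousOn (fun q : ℝ × Vec d => E q.1) (Icc 0 T₁ ×ˢ univ) :=
    hE.comp continuous_fst.continuousOn fun q hq => hq.1
  have hn' : ContinuousOn (fun q : ℝ × Vec d => nsq q.2) (Icc 0 T₁ ×ˢ univ) :=
    (hnq.comp continuous_snd).continuousOn
  unfold bar
  refine (hB'.mul (Real.continuous_exp.comp_continuousOn (hn'.div hB' fun q hq =>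
    (hB0 q.1 hq.1).ne').neg)).add (hE'.mul (ContinuousOn.inv₀ ((continuousOn_const.add hn').pow p)
    fun q _ => ?_))
  have := sq_nonneg' q.2
  positivity

/-- the claim for fixed `η` and `ε` -/
private lemma mg_claim {T : ℝ} {Q f : ℝ → Vec d → Vec d → ℝ} (hf : IsClassicalSol T Q f)
    (p : ℕ) {K : ℝ} (hK : 0 ≤ K) {m : ℝ → ℝ} {t : ℝ} (htpos : 0 < t) (htT : t < T)
    (hmt0 : ∀ s ∈ Ioc 0 t, 0 ≤ m s) {L : ℝ} (hL : 0 ≤ L)
    (hQ : ∀ s ∈ Ioc 0 t, ∀ x v, ∀ B E : ℝ, Real.exp 1 ≤ B → 0 ≤ E →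
      E ≤ 1 → (∀ u, f s x u ≤ bar B E p u) → f s x v = bar B E p v →
      Q s x v ≤ K * Real.log B * m s * (B * Real.exp (-(nsq v / B))) * (1 + nsq v / B) +
        L * (E * ((1 + nsq v) ^ p)⁻¹))
    {B₀ : ℝ} (hB : Real.exp 1 ≤ B₀) (h0 : ∀ x v, f 0 x v ≤ B₀ * Real.exp (-(nsq v / B₀)))
    {η : ℝ} (hη : 0 < η) {Y : ℝ → ℝ} (hYc : ContinuousOn Y (Icc 0 t))
    (hY0 : Y 0 = Real.log B₀ + η)
    (hYstep : ∀ t₀ ∈ Ioc 0 t, ∀ᶠ τ in 𝓝[>] (0 : ℝ), Y (t₀ - τ) * (1 + τ * (η + K * m t₀)) ≤ Y t₀)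
    (hYmono : Monotone Y) {ε : ℝ} (hε : 0 < ε) (hε1 : ε * Real.exp ((L + 1) * t) ≤ 1) :
    ∀ s ∈ Icc 0 t, ∀ y w, f s y w <
      bar (Real.exp (Y s)) (ε * Real.exp ((L + 1) * s)) p w := by
  have hB₀ : 0 < B₀ := (Real.exp_pos 1).trans_le hB
  have hlog : 1 ≤ Real.log B₀ := by
    rw [Real.le_log_iff_exp_le hB₀]
    exact hB
  have hY1 : ∀ s ∈ Icc 0 t, 1 ≤ Y s := fun s hs => by
    have h2 := hYmono hs.1
    rw [hY0] at h2
    linarith
  have hEc : Continuous fun s : ℝ => ε * Real.exp ((L + 1) * s) := by fun_prop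
  have hEpos : ∀ s : ℝ, 0 < ε * Real.exp ((L + 1) * s) := fun s => mul_pos hε (Real.exp_pos _)
  have hEge : ∀ s ∈ Icc 0 t, ε ≤ ε * Real.exp ((L + 1) * s) := fun s hs =>
    le_mul_of_one_le_right hε.le (Real.one_le_exp (mul_nonneg (by linarith) hs.1))
  have hEle : ∀ s ∈ Icc 0 t, ε * Real.exp ((L + 1) * s) ≤ 1 := fun s hs => by
    refine (mul_le_mul_of_nonneg_left (Real.exp_le_exp.2 ?_) hε.le).trans hε1
    exact mul_le_mul_of_nonneg_left hs.2 (by linarith)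
  have hΨ : ∀ s (w : Vec d), 0 < bar (Real.exp (Y s)) (ε * Real.exp ((L + 1) * s)) p w :=
    fun s w => mg_pos (Real.exp_pos _) (hEpos s).le p w
  -- `f W ≤ ε` iff `f ≤ Ψ`
  have key1 : ∀ a s (w : Vec d), a * (ε / bar (Real.exp (Y s)) (ε * Real.exp ((L + 1) * s)) p w) < ε
      ↔ a < bar (Real.exp (Y s)) (ε * Real.exp ((L + 1) * s)) p w := by
    intro a s w
    have h := hΨ s w
    rw [← mul_div_assoc, div_lt_iff₀ h, mul_comm ε]
    exact mul_lt_mul_iff_of_pos_right hε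
  have key2 : ∀ a s (w : Vec d), a * (ε / bar (Real.exp (Y s)) (ε * Real.exp ((L + 1) * s)) p w) ≤ ε
      ↔ a ≤ bar (Real.exp (Y s)) (ε * Real.exp ((L + 1) * s)) p w := by
    intro a s w
    have h := hΨ s w
    rw [← mul_div_assoc, div_le_iff₀ h, mul_comm ε]
    exact mul_le_mul_iff_of_pos_right hε
  by_contra hcon
  push Not at hcon
  obtain ⟨s1, hs1, y1, w1, hc1⟩ := hcon
  obtain ⟨t₀, ht₀, x₀, v₀, heq, hlt, hle⟩ := first_touch_weight hf p htpos.le htT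
    (B := fun _ => ε) continuousOn_const (fun _ _ => hε)
    (W := fun s w => ε / bar (Real.exp (Y s)) (ε * Real.exp ((L + 1) * s)) p w)
    (ContinuousOn.div continuousOn_const (mg_cont (B := fun s => Real.exp (Y s))
      (E := fun s => ε * Real.exp ((L + 1) * s)) (Real.continuous_exp.comp_continuousOn hYc)
      (fun _ _ => Real.exp_pos _) hEc.continuousOn p) fun q _ => (hΨ q.1 q.2).ne')
    (fun s _ w => div_nonneg hε.le (hΨ s w).le)
    (fun s hs w => by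
      have hn := sq_nonneg' w
      have hp : 0 < (1 + nsq w) ^ p := by positivity
      rw [div_le_iff₀ (hΨ s w)]
      have h1 : ε * ((1 + nsq w) ^ p)⁻¹ ≤
          bar (Real.exp (Y s)) (ε * Real.exp ((L + 1) * s)) p w := by
        have h2 : ε * ((1 + nsq w) ^ p)⁻¹ ≤ ε * Real.exp ((L + 1) * s) * ((1 + nsq w) ^ p)⁻¹ :=
          mul_le_mul_of_nonneg_right (hEge s hs) (inv_nonneg.2 hp.le)
        have h3 : 0 < Real.exp (Y s) * Real.exp (-(nsq w / Real.exp (Y s))) := by positivity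
        unfold bar
        linarith
      calc ε = (1 + nsq w) ^ p * (ε * ((1 + nsq w) ^ p)⁻¹) := by field_simp
        _ ≤ _ := mul_le_mul_of_nonneg_left h1 hp.le)
    (fun y w => by
      have hn := sq_nonneg' w
      refine (key1 _ _ _).2 ?_
      have h1 := h0 y w
      have h2 : B₀ ≤ Real.exp (Y 0) := by
        rw [hY0, Real.exp_add, Real.exp_log hB₀]
        exact le_mul_of_one_le_right hB₀.le (Real.one_le_exp hη.le)
      have h3 := mg_mono hB₀ h2 hn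
      have h4 : 0 < ε * Real.exp ((L + 1) * 0) * ((1 + nsq w) ^ p)⁻¹ :=
        mul_pos (hEpos 0) (by positivity)
      unfold bar
      linarith)
    ⟨s1, hs1, y1, w1, by
      by_contra hneg
      push Not at hneg
      exact absurd ((key1 _ _ _).1 hneg) (not_lt.2 hc1)⟩
  have ht₀c : t₀ ∈ Icc 0 t := ⟨ht₀.1.le, ht₀.2⟩
  have ht₀I : t₀ ∈ Ioo 0 T := ⟨ht₀.1, ht₀.2.trans_lt htT⟩
  have hn := sq_nonneg' v₀
  have hp : 0 < (1 + nsq v₀) ^ p := by positivity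
  set G := Real.exp (Y t₀) * Real.exp (-(nsq v₀ / Real.exp (Y t₀))) with hG
  set E₁ := ε * Real.exp ((L + 1) * t₀) * ((1 + nsq v₀) ^ p)⁻¹ with hE₁
  have hGpos : 0 < G := by positivity
  have hE₁pos : 0 < E₁ := by positivity
  have hfeq : f t₀ x₀ v₀ = bar (Real.exp (Y t₀)) (ε * Real.exp ((L + 1) * t₀)) p v₀ := by
    have h := hΨ t₀ v₀
    have h1 : f t₀ x₀ v₀ * (ε / bar (Real.exp (Y t₀)) (ε * Real.exp ((L + 1) * t₀)) p v₀) = ε := heq
    rw [← mul_div_assoc, div_eq_iff h.ne', mul_comm ε] at h1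
    exact mul_right_cancel₀ hε.ne' h1
  have hq := hQ t₀ ht₀ x₀ v₀ (Real.exp (Y t₀)) (ε * Real.exp ((L + 1) * t₀))
    (Real.exp_le_exp.2 (hY1 t₀ ht₀c)) (hEpos t₀).le (hEle t₀ ht₀c)
    (fun u => (key2 _ _ _).1 (hle x₀ u)) hfeq
  rw [Real.log_exp] at hq
  have hfeq' : f t₀ x₀ v₀ = G + E₁ := hfeq
  have hm0 := hmt0 t₀ ht₀
  set c := η + K * m t₀ with hc
  have hcpos : 0 < c := by positivity
  set X := nsq v₀ / Real.exp (Y t₀) with hX
  have hXnn : 0 ≤ X := div_nonneg hn (Real.exp_pos _).le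
  -- the derivative along the characteristic
  have hmain : ∀ y < Y t₀, G * (y * c * (1 + X)) + E₁ * (L + 1) ≤ Q t₀ x₀ v₀ := by
    intro y hy
    have hd := char_deriv hf ht₀I x₀ v₀
    refine mg_deriv hd (by simpa using hfeq') ?_
    have hI : Ioo (0 : ℝ) t₀ ∈ 𝓝[>] (0 : ℝ) := Ioo_mem_nhdsGT ht₀.1
    have hYl : ∀ᶠ τ in 𝓝[>] (0 : ℝ), y < Y (t₀ - τ) := by
      have h1 : Tendsto (fun τ : ℝ => t₀ - τ) (𝓝[>] 0) (𝓝[Icc 0 t] t₀) := by
        refine tendsto_nhdsWithin_iff.2 ⟨?_, ?_⟩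
        · have h2 : Tendsto (fun τ : ℝ => t₀ - τ) (𝓝 0) (𝓝 (t₀ - 0)) :=
            (continuous_const.sub continuous_id).tendsto 0
          rw [sub_zero] at h2
          exact h2.mono_left nhdsWithin_le_nhds
        · filter_upwards [hI] with τ hτ
          exact ⟨by linarith [hτ.2], by linarith [hτ.1, ht₀.2]⟩
      have h2 : Tendsto (fun τ : ℝ => Y (t₀ - τ)) (𝓝[>] 0) (𝓝 (Y t₀)) :=
        (show Tendsto Y (𝓝[Icc 0 t] t₀) (𝓝 (Y t₀)) from hYc t₀ ht₀c).comp h1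
      exact h2.eventually_const_lt hy
    filter_upwards [hYstep t₀ ht₀, hI, hYl] with τ hτ hτI hτY
    have hτ0 : 0 < τ := hτI.1
    have hs : t₀ + -τ ∈ Ico 0 t₀ := ⟨by linarith [hτI.2], by linarith [hτI.1]⟩
    have h2 := hlt (t₀ + -τ) hs (x₀ + (-τ) • v₀) v₀
    have h3 := (key1 _ _ _).1 h2
    have e : t₀ + -τ = t₀ - τ := by ring
    rw [e] at h3 ⊢
    refine h3.le.trans ?_
    unfold bar
    have h4 : τ * (y * c) ≤ Y t₀ - Y (t₀ - τ) := by
      have h5 : y * (τ * c) ≤ Y (t₀ - τ) * (τ * c) :=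
        mul_le_mul_of_nonneg_right hτY.le (by positivity)
      nlinarith
    have h6 := mg_step (y := Y t₀) (y' := Y (t₀ - τ)) hn h4
    have h7 : ε * Real.exp ((L + 1) * (t₀ - τ)) * ((1 + nsq v₀) ^ p)⁻¹ =
        E₁ * Real.exp (-(τ * (L + 1))) := by
      rw [hE₁, show (L + 1) * (t₀ - τ) = (L + 1) * t₀ + -(τ * (L + 1)) by ring, Real.exp_add]
      ring
    have h8 : τ * (y * c) * (1 + nsq v₀ / Real.exp (Y t₀)) = τ * (y * c * (1 + X)) := by
      rw [hX]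
      ring
    rw [h7]
    rw [h8] at h6
    linarith
  have hlim : G * (Y t₀ * c * (1 + X)) + E₁ * (L + 1) ≤ Q t₀ x₀ v₀ := by
    have hcy : Continuous fun y : ℝ => G * (y * c * (1 + X)) + E₁ * (L + 1) := by fun_prop
    refine le_of_tendsto ((hcy.tendsto (Y t₀)).mono_left
      (nhdsWithin_le_nhds (s := Iio (Y t₀)))) ?_
    filter_upwards [self_mem_nhdsWithin] with y hy
    exact hmain y hy
  have hYpos : 0 < Y t₀ := by linarith [hY1 t₀ ht₀c]
  have h9 : 0 < G * Y t₀ * η * (1 + X) := by positivity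
  have h10 : G * (Y t₀ * c * (1 + X)) =
      G * Y t₀ * η * (1 + X) + K * Y t₀ * m t₀ * G * (1 + X) := by
    rw [hc]
    ring
  rw [h10] at hlim
  nlinarith

theorem max_gauss {T : ℝ} {Q f : ℝ → Vec d → Vec d → ℝ} (hf : IsClassicalSol T Q f)
    (p : ℕ) {K : ℝ} (hK : 0 ≤ K) {m : ℝ → ℝ} (hm : IntegrableOn m (Ioo 0 T))
    (hm0 : ∀ t ∈ Ioo 0 T, 0 ≤ m t)
    (hQ : ∀ T₁ < T, ∃ L : ℝ, 0 ≤ L ∧ ∀ t ∈ Ioc 0 T₁, ∀ x v, ∀ B E : ℝ, Real.exp 1 ≤ B → 0 ≤ E →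
      E ≤ 1 → (∀ u, f t x u ≤ bar B E p u) → f t x v = bar B E p v →
      Q t x v ≤ K * Real.log B * m t * (B * Real.exp (-(nsq v / B))) * (1 + nsq v / B) +
        L * (E * ((1 + nsq v) ^ p)⁻¹))
    {B₀ : ℝ} (hB : Real.exp 1 ≤ B₀) (h0 : ∀ x v, f 0 x v ≤ B₀ * Real.exp (-(nsq v / B₀))) :
    ∀ t ∈ Ico 0 T, ∀ x v,
      f t x v ≤ Real.exp (Real.log B₀ * Real.exp (K * ∫ τ in Ioc 0 t, m τ)) *
        Real.exp (-(nsq v / Real.exp (Real.log B₀ * Real.exp (K * ∫ τ in Ioc 0 t, m τ)))) := by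
  intro t ht x v
  have hB₀ : 0 < B₀ := (Real.exp_pos 1).trans_le hB
  have hlog : 1 ≤ Real.log B₀ := by
    rw [Real.le_log_iff_exp_le hB₀]
    exact hB
  rcases ht.1.eq_or_lt with h00 | htpos
  · subst h00
    have := h0 x v
    simpa [Real.exp_log hB₀] using this
  have hn := sq_nonneg' v
  have hsub : Ioc 0 t ⊆ Ioo 0 T := fun s hs => ⟨hs.1, hs.2.trans_lt ht.2⟩
  have hmt : IntegrableOn m (Ioc 0 t) := hm.mono_set hsub
  have hmt0 : ∀ s ∈ Ioc 0 t, 0 ≤ m s := fun s hs => hm0 s (hsub hs)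
  obtain ⟨L, hL, hQL⟩ := hQ t ht.2
  set I := ∫ τ in Ioc 0 t, m τ with hI
  have key : ∀ η : ℝ, 0 < η → f t x v ≤
      Real.exp ((Real.log B₀ + η) * Real.exp (η * t + K * (I + η))) *
        Real.exp (-(nsq v / Real.exp ((Real.log B₀ + η) * Real.exp (η * t + K * (I + η))))) := by
    intro η hη
    obtain ⟨Y, hYc, hYpos, hY0, hYle, hYstep, hYmono⟩ :=
      barrier_fn_mono htpos hmt hmt0 hK (by linarith : (0 : ℝ) ≤ Real.log B₀) hη
    have h1 : ∀ ε : ℝ, 0 < ε → ε ≤ Real.exp (-((L + 1) * t)) → f t x v ≤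
        bar (Real.exp (Y t)) (ε * Real.exp ((L + 1) * t)) p v := by
      intro ε hε hε1
      refine (mg_claim hf p hK htpos ht.2 hmt0 hL hQL hB h0 hη hYc hY0 hYstep hYmono hε ?_
        t ⟨htpos.le, le_rfl⟩ x v).le
      calc ε * Real.exp ((L + 1) * t) ≤ Real.exp (-((L + 1) * t)) * Real.exp ((L + 1) * t) :=
            mul_le_mul_of_nonneg_right hε1 (Real.exp_pos _).le
        _ = 1 := by rw [← Real.exp_add, neg_add_cancel, Real.exp_zero]
    have h2 : f t x v ≤ Real.exp (Y t) * Real.exp (-(nsq v / Real.exp (Y t))) := by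
      have hc : Continuous fun ε : ℝ => bar (Real.exp (Y t)) (ε * Real.exp ((L + 1) * t)) p v := by
        unfold bar
        fun_prop
      have h3 : Tendsto (fun ε : ℝ => bar (Real.exp (Y t)) (ε * Real.exp ((L + 1) * t)) p v)
          (𝓝[>] 0) (𝓝 (Real.exp (Y t) * Real.exp (-(nsq v / Real.exp (Y t))))) := by
        have h4 := (hc.tendsto 0).mono_left (nhdsWithin_le_nhds (s := Ioi (0 : ℝ)))
        have h5 : bar (Real.exp (Y t)) (0 * Real.exp ((L + 1) * t)) p v =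
            Real.exp (Y t) * Real.exp (-(nsq v / Real.exp (Y t))) := by
          unfold bar
          ring
        rw [h5] at h4
        exact h4
      refine ge_of_tendsto h3 ?_
      filter_upwards [Ioc_mem_nhdsGT (Real.exp_pos (-((L + 1) * t)))] with ε hε
      exact h1 ε hε.1 hε.2
    exact h2.trans (mg_mono (Real.exp_pos _)
      (Real.exp_le_exp.2 (hYle t ⟨htpos.le, le_rfl⟩)) hn)
  have hcr : Continuous fun η : ℝ =>
      Real.exp ((Real.log B₀ + η) * Real.exp (η * t + K * (I + η))) := by fun_prop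
  have hcR : Continuous fun η : ℝ =>
      Real.exp ((Real.log B₀ + η) * Real.exp (η * t + K * (I + η))) *
        Real.exp (-(nsq v / Real.exp ((Real.log B₀ + η) * Real.exp (η * t + K * (I + η))))) :=
    hcr.mul (Real.continuous_exp.comp (continuous_const.div hcr fun _ => (Real.exp_pos _).ne').neg)
  have l1 := (hcR.tendsto 0).mono_left (nhdsWithin_le_nhds (s := Ioi (0 : ℝ)))
  rw [add_zero, zero_mul, zero_add, add_zero] at l1
  refine ge_of_tendsto l1 ?_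
  filter_upwards [self_mem_nhdsWithin] with η hη
  exact key η hη

end Pool.Agent.H93.CM
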