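import Pool.Agent.H93.CM.Defs

/-!
# Module Tail: the weighted moment of a function below `bar B E p`

Let `n = d+3`, `I = sup_v ∫ ((1+|w|²)^(d+2))⁻¹ |v-w|^γ dw < ∞` (`-2 < γ ≤ 0`, `d ≥ 2`: split at `|v-w| ≤ 1`, `len^γ` is integrable there
(`int_norm_rpow`, `kg_integrable`), and `≤ ∫ (1+|w|²)^(-d-2)` outside; the last part of `rapid_soft` in H82/LK/LFin.lean does the same).
For `B ≥ e`, `l = log B ≥ 1`, `Λ = 2(n+1) l`. Split `∫ g |w|² |v-w|^γ` at `|w|² = Λ B`:
 * `|w|² ≤ Λ B`: `≤ Λ B ∫ g |v-w|^γ = 2(n+1) B l ∫ g |v-w|^γ`;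
 * `|w|² > Λ B`: `g ≤ B exp(-|w|²/B) + E (1+|w|²)^(-p)` and `exp(-|w|²/B) ≤ exp(-Λ/2) exp(-|w|²/(2B)) = B^(-(n+1)) exp(-|w|²/(2B))`,
   `exp(-|w|²/(2B)) ≤ (2Bn)^n (1+|w|²)^(-n)` since `1+x ≤ 2Bn exp(x/(2Bn))` (`exp y ≥ 1+y`, `2Bn ≥ 1`). So
   `B exp(-|w|²/B)|w|² ≤ (2n)^n (1+|w|²)^(1-n) = (2n)^n (1+|w|²)^(-(d+2))`, integral `≤ (2n)^n I`;
   and `E (1+|w|²)^(-p) |w|² ≤ E (1+|w|²)^(-(d+2))` if `p ≥ d+3`: integral `≤ E I`.
Total `≤ C B l (∫ g|v-w|^γ + 1 + E)` with `C = 2(n+1) + (2n)^n I + I` (`B l ≥ 1`).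
-/

set_option autoImplicit false

open MeasureTheory Set Filter Topology Pool.Agent.H25.Kin Pool.Agent.H82.BK

namespace Pool.Agent.H93.CM

variable {d : ℕ}

/-- the weight `(1+|w|²)^(-(d+2))` -/
private noncomputable def Tail_psi (w : Vec d) : ℝ := ((1 + nsq w) ^ (d + 2))⁻¹

private lemma Tail_psi_nonneg (w : Vec d) : 0 ≤ Tail_psi w := by
  have h := sq_nonneg' w
  unfold Tail_psi
  positivity

private lemma Tail_psi_one (w : Vec d) : Tail_psi w ≤ 1 := by
  have h := sq_nonneg' w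
  unfold Tail_psi
  exact inv_le_one_of_one_le₀ (one_le_pow₀ (by linarith))

private lemma Tail_psi_le (w : Vec d) : Tail_psi w ≤ 2 ^ (d + 1) * ((1 + ‖w‖) ^ (d + 1))⁻¹ := by
  have h := sq_nonneg' w
  have h1 := norm_sq_le_sq w
  have h2 := w_pos w
  have h3 := one_le_w w
  unfold Tail_psi
  rw [← div_eq_mul_inv, le_div_iff₀ (pow_pos h2 _), inv_mul_le_iff₀ (by positivity)]
  calc (1 + ‖w‖) ^ (d + 1) ≤ ((1 + ‖w‖) ^ 2) ^ (d + 1) :=
        pow_le_pow_left₀ h2.le (le_self_pow₀ h3 two_ne_zero) _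
    _ ≤ (2 * (1 + nsq w)) ^ (d + 1) := by
        refine pow_le_pow_left₀ (by positivity) ?_ _
        nlinarith [sq_nonneg (1 - ‖w‖)]
    _ = 2 ^ (d + 1) * (1 + nsq w) ^ (d + 1) := mul_pow _ _ _
    _ ≤ 2 ^ (d + 1) * (1 + nsq w) ^ (d + 2) := by
        refine mul_le_mul_of_nonneg_left ?_ (by positivity)
        exact pow_le_pow_right₀ (by linarith) (by omega)
    _ = (1 + nsq w) ^ (d + 2) * 2 ^ (d + 1) := mul_comm _ _

/-- pointwise bound -/
private lemma Tail_pt {γ : ℝ} (h2 : γ ≤ 0) (v w : Vec d) :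
    Tail_psi w * len (v - w) ^ γ ≤ 2 ^ (d + 1) * ((1 + ‖w‖) ^ (d + 1))⁻¹ +
      2 ^ (d + 5) * kg γ (v - w) := by
  have hk := kg_nonneg γ (v - w)
  have h3 := w_pos w
  have hp := Tail_psi_nonneg w
  have h7 := Real.rpow_nonneg (len_nonneg (v - w)) γ
  rcases le_total 1 ‖v - w‖ with h4 | h4
  · have h5 : len (v - w) ^ γ ≤ 1 :=
      Real.rpow_le_one_of_one_le_of_nonpos (h4.trans (norm_le_len _)) h2
    calc Tail_psi w * len (v - w) ^ γ ≤ Tail_psi w * 1 := mul_le_mul_of_nonneg_left h5 hp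
      _ ≤ 2 ^ (d + 1) * ((1 + ‖w‖) ^ (d + 1))⁻¹ + 2 ^ (d + 5) * kg γ (v - w) := by
          have h6 : 0 ≤ 2 ^ (d + 5) * kg γ (v - w) := by positivity
          have h8 := Tail_psi_le w
          linarith
  · have h6 : len (v - w) ^ γ ≤ 2 ^ (d + 5) * kg γ (v - w) := by
      unfold kg
      have h8 := sq_nonneg' (v - w)
      have h9 := w_pos (v - w)
      have h10 : (1 + ‖v - w‖) ^ (d + 5) ≤ 2 ^ (d + 5) := pow_le_pow_left₀ h9.le (by linarith) _
      have h11 : 1 ≤ 2 ^ (d + 5) * ((1 + ‖v - w‖) ^ (d + 5))⁻¹ := by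
        rw [← div_eq_mul_inv, one_le_div (pow_pos h9 _)]
        exact h10
      calc len (v - w) ^ γ ≤ len (v - w) ^ γ * ((1 + nsq (v - w)) *
            (2 ^ (d + 5) * ((1 + ‖v - w‖) ^ (d + 5))⁻¹)) := by
            refine le_mul_of_one_le_right h7 ?_
            exact one_le_mul_of_one_le_of_one_le (by linarith) h11
        _ = _ := by ring
    have h12 : 0 ≤ 2 ^ (d + 1) * ((1 + ‖w‖) ^ (d + 1))⁻¹ := by positivity
    calc Tail_psi w * len (v - w) ^ γ ≤ 1 * (2 ^ (d + 5) * kg γ (v - w)) :=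
          mul_le_mul (Tail_psi_one w) h6 h7 zero_le_one
      _ ≤ _ := by rw [one_mul]; linarith

/-- the uniform bound of the integrals -/
private lemma Tail_int (hd : 2 ≤ d) {γ : ℝ} (h1 : -2 < γ) (h2 : γ ≤ 0) :
    ∃ I : ℝ, 0 ≤ I ∧ ∀ v : Vec d, Integrable (fun w : Vec d => Tail_psi w * len (v - w) ^ γ) ∧
      ∫ w, Tail_psi w * len (v - w) ^ γ ≤ I := by
  have hw : Integrable (fun v : Vec d => ((1 + ‖v‖) ^ (d + 1))⁻¹) := integrable_wt
  have hkg := kg_integrable (d := d) hd h1 (by linarith : γ ≤ 2)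
  have hi : ∀ v : Vec d, Integrable fun w : Vec d => 2 ^ (d + 1) * ((1 + ‖w‖) ^ (d + 1))⁻¹ +
      2 ^ (d + 5) * kg γ (v - w) := fun v =>
    (hw.const_mul _).add ((hkg.comp_sub_left v).const_mul _)
  have hnn : ∀ v w : Vec d, 0 ≤ Tail_psi w * len (v - w) ^ γ := fun v w =>
    mul_nonneg (Tail_psi_nonneg w) (Real.rpow_nonneg (len_nonneg _) γ)
  refine ⟨2 ^ (d + 1) * (∫ v : Vec d, ((1 + ‖v‖) ^ (d + 1))⁻¹) +
    2 ^ (d + 5) * ∫ z, kg (d := d) γ z, ?_, fun v => ⟨?_, ?_⟩⟩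
  · have e1 : 0 ≤ ∫ v : Vec d, ((1 + ‖v‖) ^ (d + 1))⁻¹ :=
      integral_nonneg fun v => inv_nonneg.2 (pow_nonneg (w_pos v).le _)
    have e2 : 0 ≤ ∫ z, kg (d := d) γ z := integral_nonneg fun z => kg_nonneg γ z
    positivity
  · have hm : Measurable fun w : Vec d => Tail_psi w * len (v - w) ^ γ := by
      refine Measurable.mul ?_ ((continuous_len.comp
        (continuous_const.sub continuous_id)).measurable.pow_const γ)
      unfold Tail_psi
      exact ((continuous_const.add continuous_sq).pow _).measurable.inv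
    refine (hi v).mono' hm.aestronglyMeasurable (Eventually.of_forall fun w => ?_)
    rw [Real.norm_eq_abs, abs_of_nonneg (hnn v w)]
    exact Tail_pt h2 v w
  · have e5 : ∫ w, (2 ^ (d + 1) * ((1 + ‖w‖) ^ (d + 1))⁻¹ + 2 ^ (d + 5) * kg γ (v - w)) =
        2 ^ (d + 1) * (∫ v : Vec d, ((1 + ‖v‖) ^ (d + 1))⁻¹) +
          2 ^ (d + 5) * ∫ z, kg (d := d) γ z := by
      rw [integral_add (hw.const_mul _) ((hkg.comp_sub_left v).const_mul _), integral_const_mul,
        integral_const_mul, integral_sub_left_eq_self (fun z => kg (d := d) γ z)]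
    rw [← e5]
    exact integral_mono_of_nonneg (Eventually.of_forall fun w => hnn v w) (hi v)
      (Eventually.of_forall fun w => Tail_pt h2 v w)

/-- the exponential beats the powers beyond `|w|² = 2 (n+1) B log B` -/
private lemma Tail_exp {B s : ℝ} (hB : Real.exp 1 ≤ B) (hs : 0 ≤ s)
    (hbig : 2 * ((d + 3 : ℕ) + 1 : ℝ) * (B * Real.log B) ≤ s) :
    B * Real.exp (-(s / B)) * s ≤
      (2 * ((d + 3 : ℕ) : ℝ)) ^ (d + 3) * ((1 + s) ^ (d + 2))⁻¹ := by
  set n : ℕ := d + 3 with hn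
  have hn0 : (0 : ℝ) < n := by
    rw [hn]
    positivity
  have hn1 : (1 : ℝ) ≤ n := by
    rw [hn]
    push_cast
    have : (0 : ℝ) ≤ d := Nat.cast_nonneg d
    linarith
  have hB0 : 0 < B := (Real.exp_pos 1).trans_le hB
  have hB1 : 1 ≤ B := (Real.one_le_exp zero_le_one).trans hB
  set X := Real.exp (s / (2 * B)) with hX
  have hX0 : 0 < X := Real.exp_pos _
  have hXX : Real.exp (-(s / B)) = (X * X)⁻¹ := by
    rw [Real.exp_neg, hX, ← Real.exp_add]
    congr 2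
    field_simp
    ring
  have ha : (1 + s) ^ n ≤ (2 * B * n) ^ n * X := by
    have hb0 : 0 < 2 * B * n := by positivity
    have e1 : 1 + s ≤ 2 * B * n * Real.exp (s / (2 * B * n)) := by
      have e2 := Real.add_one_le_exp (s / (2 * B * n))
      have e3 : 1 + s ≤ 2 * B * n * (s / (2 * B * n) + 1) := by
        rw [mul_add, mul_div_cancel₀ _ hb0.ne', mul_one]
        nlinarith
      exact e3.trans (mul_le_mul_of_nonneg_left e2 hb0.le)
    refine (pow_le_pow_left₀ (by linarith) e1 n).trans (le_of_eq ?_)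
    rw [mul_pow, ← Real.exp_nat_mul, hX]
    congr 2
    field_simp
  have hb : B ^ (n + 1) ≤ X := by
    have e1 : B ^ (n + 1) = Real.exp (((n : ℝ) + 1) * Real.log B) := by
      have e2 : ((n : ℝ) + 1) * Real.log B = ((n + 1 : ℕ) : ℝ) * Real.log B := by push_cast; ring
      rw [e2, Real.exp_nat_mul, Real.exp_log hB0]
    rw [e1, hX]
    refine Real.exp_le_exp.2 ?_
    rw [le_div_iff₀ (by positivity)]
    nlinarith
  have hs1 : 0 < 1 + s := by linarith
  rw [← div_eq_mul_inv, le_div_iff₀ (pow_pos hs1 _), hXX]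
  have e4 : (0 : ℝ) < X * X := mul_pos hX0 hX0
  calc B * (X * X)⁻¹ * s * (1 + s) ^ (d + 2)
      ≤ B * (X * X)⁻¹ * (1 + s) * (1 + s) ^ (d + 2) := by
        gcongr
        linarith
    _ = B * (X * X)⁻¹ * (1 + s) ^ n := by
        rw [hn, show d + 3 = (d + 2) + 1 from rfl, pow_succ]
        ring
    _ ≤ B * (X * X)⁻¹ * ((2 * B * n) ^ n * X) := by gcongr
    _ = B * (2 * B * n) ^ n * X⁻¹ := by
        rw [mul_inv]
        field_simp
    _ ≤ B * (2 * B * n) ^ n * (B ^ (n + 1))⁻¹ := by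
        refine mul_le_mul_of_nonneg_left (inv_anti₀ (by positivity) hb) (by positivity)
    _ = (2 * (n : ℝ)) ^ n := by
        have e5 : B * (2 * B * (n : ℝ)) ^ n = B ^ (n + 1) * (2 * (n : ℝ)) ^ n := by
          rw [show 2 * B * (n : ℝ) = B * (2 * n) by ring, mul_pow, pow_succ B n]
          ring
        rw [e5, mul_right_comm, mul_inv_cancel₀ (pow_ne_zero _ hB0.ne'), one_mul]

theorem tail_bound (hd : 2 ≤ d) {γ : ℝ} (h1 : -2 < γ) (h2 : γ ≤ 0) {p : ℕ} (hp : d + 3 ≤ p) :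
    ∃ C : ℝ, 0 ≤ C ∧ ∀ B E : ℝ, Real.exp 1 ≤ B → 0 ≤ E → ∀ g : Vec d → ℝ, Nice g →
      (∀ u, 0 ≤ g u) → (∀ u, g u ≤ bar B E p u) → ∀ v : Vec d,
      ∫ w, g w * nsq w * len (v - w) ^ γ ≤
        C * (B * Real.log B) * ((∫ w, g w * len (v - w) ^ γ) + 1 + E) := by
  obtain ⟨I, hI0, hI⟩ := Tail_int hd h1 h2
  set n : ℕ := d + 3 with hn
  set A : ℝ := (2 * (n : ℝ)) ^ n with hA
  have hA0 : 0 ≤ A := by positivity
  refine ⟨2 * ((n : ℝ) + 1) + A * I + I, by positivity, fun B E hB hE g hg hg0 hgb v => ?_⟩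
  have hB0 : 0 < B := (Real.exp_pos 1).trans_le hB
  have hB1 : 1 ≤ B := (Real.one_le_exp zero_le_one).trans hB
  have hl : 1 ≤ Real.log B := by
    rw [Real.le_log_iff_exp_le hB0]
    exact hB
  have hBl : 1 ≤ B * Real.log B := one_le_mul_of_one_le_of_one_le hB1 hl
  set Λ := B * Real.log B with hΛ
  obtain ⟨i2, hI2⟩ := hI v
  have i1 := Pool.Agent.H82.LK.len_int hd h1 h2 hg v
  have hpt : ∀ w, g w * nsq w * len (v - w) ^ γ ≤
      2 * ((n : ℝ) + 1) * Λ * (g w * len (v - w) ^ γ) +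
        (A + E) * (Tail_psi w * len (v - w) ^ γ) := by
    intro w
    have hL := Real.rpow_nonneg (len_nonneg (v - w)) γ
    have hs := sq_nonneg' w
    have hp0 := Tail_psi_nonneg w
    have hkey : g w * nsq w ≤ 2 * ((n : ℝ) + 1) * Λ * g w + (A + E) * Tail_psi w := by
      rcases le_total (nsq w) (2 * ((n : ℝ) + 1) * Λ) with h | h
      · have e1 : g w * nsq w ≤ g w * (2 * ((n : ℝ) + 1) * Λ) :=
          mul_le_mul_of_nonneg_left h (hg0 w)
        have e2 : 0 ≤ (A + E) * Tail_psi w := by positivity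
        linarith
      · have e1 : g w * nsq w ≤ bar B E p w * nsq w := mul_le_mul_of_nonneg_right (hgb w) hs
        have e2 : B * Real.exp (-(nsq w / B)) * nsq w ≤ A * Tail_psi w := Tail_exp hB hs h
        have e3 : E * ((1 + nsq w) ^ p)⁻¹ * nsq w ≤ E * Tail_psi w := by
          rw [mul_assoc]
          refine mul_le_mul_of_nonneg_left ?_ hE
          unfold Tail_psi
          have e4 : ((1 + nsq w) ^ p)⁻¹ ≤ ((1 + nsq w) ^ (d + 3))⁻¹ :=
            inv_anti₀ (by positivity) (pow_le_pow_right₀ (by linarith) hp)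
          calc ((1 + nsq w) ^ p)⁻¹ * nsq w ≤ ((1 + nsq w) ^ (d + 3))⁻¹ * (1 + nsq w) := by
                refine mul_le_mul e4 (by linarith) hs (by positivity)
            _ = ((1 + nsq w) ^ (d + 2))⁻¹ := by
                rw [show d + 3 = (d + 2) + 1 from rfl, pow_succ]
                field_simp
        have e5 : 0 ≤ 2 * ((n : ℝ) + 1) * Λ * g w := by
          have := hg0 w
          positivity
        unfold bar at e1
        nlinarith
    calc g w * nsq w * len (v - w) ^ γ ≤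
          (2 * ((n : ℝ) + 1) * Λ * g w + (A + E) * Tail_psi w) * len (v - w) ^ γ :=
          mul_le_mul_of_nonneg_right hkey hL
      _ = _ := by ring
  have h3 : ∫ w, g w * nsq w * len (v - w) ^ γ ≤
      2 * ((n : ℝ) + 1) * Λ * (∫ w, g w * len (v - w) ^ γ) +
        (A + E) * ∫ w, Tail_psi w * len (v - w) ^ γ := by
    rw [← integral_const_mul, ← integral_const_mul, ← integral_add (i1.const_mul _)
      (i2.const_mul _)]
    refine integral_mono_of_nonneg (Eventually.of_forall fun w => ?_)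
      ((i1.const_mul _).add (i2.const_mul _)) (Eventually.of_forall hpt)
    exact mul_nonneg (mul_nonneg (hg0 w) (sq_nonneg' w)) (Real.rpow_nonneg (len_nonneg _) γ)
  have hJ : 0 ≤ ∫ w, g w * len (v - w) ^ γ := integral_nonneg fun w =>
    mul_nonneg (hg0 w) (Real.rpow_nonneg (len_nonneg _) γ)
  set J := ∫ w, g w * len (v - w) ^ γ with hJd
  have h4 : (A + E) * ∫ w, Tail_psi w * len (v - w) ^ γ ≤ (A + E) * I :=
    mul_le_mul_of_nonneg_left hI2 (by positivity)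
  refine (h3.trans (add_le_add_right h4 _)).trans ?_
  have h5 : (A + E) * I ≤ (A * I + I) * Λ * (J + 1 + E) := by
    have e1 : (A + E) * I ≤ (A * I + I) * (J + 1 + E) := by
      have q1 : 0 ≤ A * I := by positivity
      have q2 : 0 ≤ A * I * J := by positivity
      have q3 : 0 ≤ A * I * E := by positivity
      have q4 : 0 ≤ I * J := by positivity
      nlinarith
    have e2 : (A * I + I) * (J + 1 + E) ≤ (A * I + I) * Λ * (J + 1 + E) := by
      have q1 : 0 ≤ A * I + I := by positivity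
      have q2 : 0 ≤ J + 1 + E := by positivity
      calc (A * I + I) * (J + 1 + E) = (A * I + I) * 1 * (J + 1 + E) := by ring
        _ ≤ _ := by gcongr
    exact e1.trans e2
  have h6 : 2 * ((n : ℝ) + 1) * Λ * J ≤ 2 * ((n : ℝ) + 1) * Λ * (J + 1 + E) := by
    refine mul_le_mul_of_nonneg_left (by linarith) (by positivity)
  calc 2 * ((n : ℝ) + 1) * Λ * J + (A + E) * I ≤
        2 * ((n : ℝ) + 1) * Λ * (J + 1 + E) + (A * I + I) * Λ * (J + 1 + E) := add_le_add h6 h5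
    _ = (2 * ((n : ℝ) + 1) + A * I + I) * Λ * (J + 1 + E) := by ring

end Pool.Agent.H93.CM
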