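import Pool.Agent.H93.CM.LOpG
import Pool.Agent.H93.CM.Tail
import Pool.Agent.H93.CM.MaxG

/-!
# Module FinL: Gaussian bounds for the Landau equation

`landau_gauss`. `p = d+3`. `K₁` from `landau_bar`, `C` from `tail_bound`. `max_gauss` with `m+1` in place of `m` and
`K = 12 C + d²`. Verification of `hQ`, `T₁ < T`: on `[0,T₁]` (in fact on `(0,T₁]`) there is `R ≥ 0` with `∫ f(t,x,w)(1+|w|²)dw ≤ R` and
`∫ f(t,x,w)|v-w|^γ dw ≤ R` for all `t, x, v` (from `hf.decay T₁`; as in `rapid_soft`, H82/LK/LFin.lean: apply `rapid_soft` to the solution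
restricted to `[0,T₁')`, `T₁ < T₁' < T`, or repeat its proof). Put `G = B exp(-|v|²/B)`, `φ = (1+|v|²)^(-p)`, `l = log B ≥ 1`, `J = ∫ f|v-w|^γ ≤ m t`:
`4/B² G |v|² C (B l)(J+1+E) ≤ 4 C l G (|v|²/B)(m+2) ≤ 8 C l (m+1) G (|v|²/B)`; `d² f(v) J = d² J G + d² J E φ ≤ d² l (m+1) G + d² R E φ`;
`K₁ E φ R`. So `L = (K₁ + d²) R`.
`gauss_upTo`: the bound at time `t` is monotone in the exponent, `∫_{(0,t]} (m+1) ≤ ∫_{(0,T)} (m+1)`; `B ↦ B exp(-x/B)` is increasing. Given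
`f₀ ≤ C₀ exp(-μ|v|²)` take `B₀ = max (max C₀ (1/μ)) e`.
`gauss_conv`: Gaussian decay gives `RapidUpTo`, then `rapid_soft` with `η = 0` or `1` gives the convolution bound.
-/

set_option autoImplicit false

open MeasureTheory Set Filter Topology Pool.Agent.H25.Kin Pool.Agent.H82.BK

namespace Pool.Agent.H93.CM

variable {d : ℕ}

/-- uniform bounds on compact time intervals -/
private lemma unif_bd (hd : 2 ≤ d) {γ : ℝ} (hγ1 : -2 < γ) (hγ : γ ≤ 0) {T : ℝ}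
    {Q f : ℝ → Vec d → Vec d → ℝ} (hf : IsClassicalSol T Q f) {T₁ : ℝ} (hT₁ : T₁ < T) :
    ∃ R : ℝ, 0 ≤ R ∧ ∀ t ∈ Ioc 0 T₁, ∀ x v, (∫ w, f t x w * (1 + nsq w) ≤ R) ∧
      ∫ w, f t x w * len (v - w) ^ γ ≤ R := by
  obtain ⟨C₀, hC₀⟩ := hf.decay T₁ hT₁ 0
  obtain ⟨C₁, hC₁⟩ := hf.decay T₁ hT₁ (2 * 1 + (d + 1))
  have hw : Integrable (fun v : Vec d => ((1 + ‖v‖) ^ (d + 1))⁻¹) := integrable_wt
  set W := ∫ v : Vec d, ((1 + ‖v‖) ^ (d + 1))⁻¹ with hW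
  set G := ∫ z, kg (d := d) γ z with hG
  have hkg := kg_integrable (d := d) hd hγ1 (by linarith : γ ≤ 2)
  have hd0 : (0 : ℝ) ≤ d := Nat.cast_nonneg d
  have hW0 : 0 ≤ W := integral_nonneg fun v => inv_nonneg.2 (pow_nonneg (w_pos v).le _)
  have hG0 : 0 ≤ G := integral_nonneg fun v => kg_nonneg γ v
  refine ⟨(d + 1) ^ 1 * |C₁| * W + (|C₁| * W + 2 ^ (d + 5) * |C₀| * G), by positivity,
    fun t ht x v => ?_⟩
  have ht' : t ∈ Ico 0 T := ⟨ht.1.le, ht.2.trans_lt hT₁⟩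
  have ht'' : t ∈ Icc 0 T₁ := ⟨ht.1.le, ht.2⟩
  have hfn := fun u => hf.nonneg t ht' x u
  have hdec : ∀ z, f t x z ≤ |C₁| * ((1 + ‖z‖) ^ (2 * 1 + (d + 1)))⁻¹ := by
    intro z
    rw [← div_eq_mul_inv, le_div_iff₀ (pow_pos (w_pos z) _), mul_comm]
    exact (hC₁ t ht'' x z).trans (le_abs_self _)
  have p1 : ∫ z, f t x z * (1 + nsq z) ≤ (d + 1) ^ 1 * |C₁| * W := by
    rw [hW, ← integral_const_mul]
    refine integral_mono_of_nonneg (Eventually.of_forall fun z => mul_nonneg (hfn z)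
      (by linarith [one_le_nsq z])) (hw.const_mul _)
      (Eventually.of_forall fun z => ?_)
    have h1 := one_le_nsq z
    have h2 : (1 + nsq z) ≤ (d + 1) ^ 1 * (1 + ‖z‖) ^ (2 * 1) := by
      have := one_add_nsq_le z
      simpa using this
    have h3 := w_pos z
    calc f t x z * (1 + nsq z)
        ≤ (|C₁| * ((1 + ‖z‖) ^ (2 * 1 + (d + 1)))⁻¹) * ((d + 1) ^ 1 * (1 + ‖z‖) ^ (2 * 1)) :=
          mul_le_mul (hdec z) h2 (by linarith) (by positivity)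
      _ = (d + 1) ^ 1 * |C₁| * ((1 + ‖z‖) ^ (d + 1))⁻¹ := by
          rw [pow_add]; field_simp
  have p2 : ∫ z, f t x z * len (v - z) ^ γ ≤ |C₁| * W + 2 ^ (d + 5) * |C₀| * G := by
    have i3 : Integrable fun z : Vec d => |C₁| * ((1 + ‖z‖) ^ (d + 1))⁻¹ +
        2 ^ (d + 5) * |C₀| * kg γ (v - z) :=
      (hw.const_mul _).add ((hkg.comp_sub_left v).const_mul _)
    have e5 : ∫ z, (|C₁| * ((1 + ‖z‖) ^ (d + 1))⁻¹ + 2 ^ (d + 5) * |C₀| * kg γ (v - z)) =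
        |C₁| * W + 2 ^ (d + 5) * |C₀| * G := by
      rw [integral_add (hw.const_mul _) ((hkg.comp_sub_left v).const_mul _), integral_const_mul,
        integral_const_mul, integral_sub_left_eq_self (fun z => kg (d := d) γ z)]
    rw [← e5]
    refine integral_mono_of_nonneg (Eventually.of_forall fun z => mul_nonneg (hfn z)
      (Real.rpow_nonneg (len_nonneg _) _)) i3 (Eventually.of_forall fun z => ?_)
    have hk := kg_nonneg γ (v - z)
    have h3 := w_pos z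
    have hc0 : f t x z ≤ |C₀| := by
      have := hC₀ t ht'' x z
      rw [pow_zero, one_mul] at this
      exact this.trans (le_abs_self _)
    have hc1 : f t x z ≤ |C₁| * ((1 + ‖z‖) ^ (d + 1))⁻¹ := by
      refine (hdec z).trans (mul_le_mul_of_nonneg_left (inv_anti₀ (pow_pos h3 _) ?_) (abs_nonneg _))
      exact pow_le_pow_right₀ (one_le_w z) (by omega)
    rcases le_total 1 ‖v - z‖ with h4 | h4
    · have h5 : len (v - z) ^ γ ≤ 1 :=
        Real.rpow_le_one_of_one_le_of_nonpos (h4.trans (norm_le_len _)) hγ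
      calc f t x z * len (v - z) ^ γ ≤ f t x z * 1 := mul_le_mul_of_nonneg_left h5 (hfn z)
        _ ≤ |C₁| * ((1 + ‖z‖) ^ (d + 1))⁻¹ + 2 ^ (d + 5) * |C₀| * kg γ (v - z) := by
            have : 0 ≤ 2 ^ (d + 5) * |C₀| * kg γ (v - z) := by positivity
            linarith
    · have h6 : len (v - z) ^ γ ≤ 2 ^ (d + 5) * kg γ (v - z) := by
        unfold kg
        have h7 := Real.rpow_nonneg (len_nonneg (v - z)) γ
        have h8 := sq_nonneg' (v - z)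
        have h9 := w_pos (v - z)
        have h10 : (1 + ‖v - z‖) ^ (d + 5) ≤ 2 ^ (d + 5) := pow_le_pow_left₀ h9.le (by linarith) _
        have h11 : 1 ≤ 2 ^ (d + 5) * ((1 + ‖v - z‖) ^ (d + 5))⁻¹ := by
          rw [← div_eq_mul_inv, one_le_div (pow_pos h9 _)]
          exact h10
        calc len (v - z) ^ γ ≤ len (v - z) ^ γ * ((1 + nsq (v - z)) *
              (2 ^ (d + 5) * ((1 + ‖v - z‖) ^ (d + 5))⁻¹)) := by
              refine le_mul_of_one_le_right h7 ?_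
              exact one_le_mul_of_one_le_of_one_le (by linarith) h11
          _ = _ := by ring
      have h12 : 0 ≤ |C₁| * ((1 + ‖z‖) ^ (d + 1))⁻¹ := by positivity
      calc f t x z * len (v - z) ^ γ ≤ |C₀| * (2 ^ (d + 5) * kg γ (v - z)) :=
            mul_le_mul hc0 h6 (Real.rpow_nonneg (len_nonneg _) _) (abs_nonneg _)
        _ ≤ |C₁| * ((1 + ‖z‖) ^ (d + 1))⁻¹ + 2 ^ (d + 5) * |C₀| * kg γ (v - z) := by nlinarith
  have n1 : 0 ≤ (d + 1) ^ 1 * |C₁| * W := by positivity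
  have n2 : 0 ≤ |C₁| * W + 2 ^ (d + 5) * |C₀| * G := by positivity
  exact ⟨by linarith, by linarith⟩

theorem landau_gauss (hd : 2 ≤ d) {γ : ℝ} (h1 : -2 < γ) (h2 : γ ≤ 0) :
    ∃ K : ℝ, 0 ≤ K ∧ ∀ T : ℝ, ∀ f : ℝ → Vec d → Vec d → ℝ, IsLandauSol γ T f →
      ∀ m : ℝ → ℝ, IntegrableOn m (Ioo 0 T) →
      (∀ t ∈ Ioo 0 T, ∀ x v, ∫ w, f t x w * len (v - w) ^ γ ≤ m t) →
      ∀ B₀ : ℝ, Real.exp 1 ≤ B₀ → (∀ x v, f 0 x v ≤ B₀ * Real.exp (-(nsq v / B₀))) →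
      ∀ t ∈ Ico 0 T, ∀ x v,
        f t x v ≤ Real.exp (Real.log B₀ * Real.exp (K * ∫ τ in Ioc 0 t, (m τ + 1))) *
          Real.exp (-(nsq v /
            Real.exp (Real.log B₀ * Real.exp (K * ∫ τ in Ioc 0 t, (m τ + 1))))) := by
  obtain ⟨K₁, hK₁0, hK₁⟩ := landau_bar (d := d) hd h1 h2 (d + 3)
  obtain ⟨C, hC0, hC⟩ := tail_bound (d := d) hd h1 h2 (p := d + 3) le_rfl
  refine ⟨8 * C + (d : ℝ) ^ 2, by positivity, ?_⟩
  intro T f hf m hm hmom B₀ hB₀ h0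
  have hcs : IsClassicalSol T (fun t x => landauQ γ (f t x)) f := hf
  have hm0 : ∀ t ∈ Ioo 0 T, 0 ≤ m t := fun t ht => le_trans
    (integral_nonneg fun w => mul_nonneg (hcs.nonneg t ⟨ht.1.le, ht.2⟩ 0 w)
      (Real.rpow_nonneg (len_nonneg _) _)) (hmom t ht 0 0)
  have hm1 : IntegrableOn (fun τ => m τ + 1) (Ioo 0 T) :=
    hm.add (by simp [IntegrableOn])
  refine max_gauss hcs (d + 3) (by positivity) hm1 (fun t ht => by linarith [hm0 t ht]) ?_ hB₀ h0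
  intro T₁ hT₁
  obtain ⟨R, hR0, hR⟩ := unif_bd hd h1 h2 hcs hT₁
  refine ⟨(K₁ + (d : ℝ) ^ 2) * R, by positivity, ?_⟩
  intro t ht x v B E hB hE hE1 hdom heq
  have ht' : t ∈ Ioo 0 T := ⟨ht.1, ht.2.trans_lt hT₁⟩
  have hn := IsClassicalSol.nice hcs ht' x
  have hfn := fun u => hcs.nonneg t ⟨ht'.1.le, ht'.2⟩ x u
  have hB1 : 1 ≤ B := le_trans (by have := Real.add_one_le_exp (1 : ℝ); linarith) hB
  have hB0 : 0 < B := by linarith
  have hl1 : 1 ≤ Real.log B := by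
    rw [← Real.log_exp 1]
    exact Real.log_le_log (Real.exp_pos 1) hB
  obtain ⟨l, hl⟩ : ∃ l, l = Real.log B := ⟨_, rfl⟩
  have e1 := hK₁ B E hB1 hE (f t x) hn hfn v hdom heq
  have e2 := hC B E hB hE (f t x) hn hfn hdom v
  have e3 := hmom t ht' x v
  obtain ⟨hR1, hR2⟩ := hR t ht x v
  obtain ⟨J, hJ⟩ : ∃ J, J = ∫ w, f t x w * len (v - w) ^ γ := ⟨_, rfl⟩
  obtain ⟨N2, hN2⟩ : ∃ N2, N2 = ∫ w, f t x w * nsq w * len (v - w) ^ γ := ⟨_, rfl⟩
  obtain ⟨N1, hN1⟩ : ∃ N1, N1 = ∫ w, f t x w * (1 + nsq w) := ⟨_, rfl⟩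
  have hJ0 : 0 ≤ J := by
    rw [hJ]
    exact integral_nonneg fun w => mul_nonneg (hfn w) (Real.rpow_nonneg (len_nonneg _) _)
  obtain ⟨G, hG⟩ : ∃ G, G = B * Real.exp (-(nsq v / B)) := ⟨_, rfl⟩
  have hG0 : 0 ≤ G := by rw [hG]; positivity
  obtain ⟨φ, hφ⟩ : ∃ φ, φ = ((1 + nsq v) ^ (d + 3))⁻¹ := ⟨_, rfl⟩
  have hφ0 : 0 ≤ φ := by
    rw [hφ]
    exact inv_nonneg.2 (pow_nonneg (by linarith [one_le_nsq v]) _)
  have heq' : f t x v = G + E * φ := by rw [heq, hG, hφ]; rfl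
  rw [← hJ, ← hN2, ← hN1, ← hG, ← hφ, heq'] at e1
  rw [← hJ, ← hN2, ← hl] at e2
  rw [← hJ] at e3 hR2
  rw [← hN1] at hR1
  rw [← hl] at hl1
  have hmt := hm0 t ht'
  have hx0 : 0 ≤ nsq v / B := div_nonneg (sq_nonneg' v) hB0.le
  obtain ⟨y, hy⟩ : ∃ y, y = nsq v / B := ⟨_, rfl⟩
  have hvy : nsq v = y * B := by rw [hy]; field_simp
  rw [← hl, ← hG, ← hφ, ← hy]
  rw [← hy] at hx0
  -- first term
  have t1 : 4 / B ^ 2 * G * nsq v * N2 ≤ 8 * C * l * (m t + 1) * G * y := by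
    have hl0 : 0 ≤ l := by linarith
    have s1 : N2 ≤ C * (B * l) * (2 * (m t + 1)) := by
      refine e2.trans (mul_le_mul_of_nonneg_left (by linarith) (by positivity))
    have s2 : 4 / B ^ 2 * G * nsq v = 4 * G * y / B := by
      rw [hvy]; field_simp
    rw [s2]
    calc 4 * G * y / B * N2 ≤ 4 * G * y / B * (C * (B * l) * (2 * (m t + 1))) :=
          mul_le_mul_of_nonneg_left s1 (by positivity)
      _ = 8 * C * l * (m t + 1) * G * y := by field_simp; ring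
  have t2 : K₁ * (E * φ) * N1 ≤ K₁ * (E * φ) * R :=
    mul_le_mul_of_nonneg_left hR1 (by positivity)
  have t3 : (d : ℝ) ^ 2 * (G + E * φ) * J ≤
      (d : ℝ) ^ 2 * l * (m t + 1) * G + (d : ℝ) ^ 2 * (E * φ) * R := by
    have s1 : (d : ℝ) ^ 2 * G * J ≤ (d : ℝ) ^ 2 * G * (l * (m t + 1)) := by
      refine mul_le_mul_of_nonneg_left ?_ (by positivity)
      have : m t + 1 ≤ l * (m t + 1) := le_mul_of_one_le_left (by linarith) hl1
      linarith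
    have s2 : (d : ℝ) ^ 2 * (E * φ) * J ≤ (d : ℝ) ^ 2 * (E * φ) * R :=
      mul_le_mul_of_nonneg_left hR2 (by positivity)
    have s3 : (d : ℝ) ^ 2 * (G + E * φ) * J =
        (d : ℝ) ^ 2 * G * J + (d : ℝ) ^ 2 * (E * φ) * J := by ring
    rw [s3]
    linarith
  have t4 : 0 ≤ 8 * C * l * (m t + 1) * G := by
    have : 0 ≤ m t + 1 := by linarith
    have hl0 : 0 ≤ l := by linarith
    positivity
  have t5 : 0 ≤ (d : ℝ) ^ 2 * l * (m t + 1) * G * y := by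
    have : 0 ≤ m t + 1 := by linarith
    have hl0 : 0 ≤ l := by linarith
    positivity
  have t6 : (8 * C + (d : ℝ) ^ 2) * l * (m t + 1) * G * (1 + y) +
      (K₁ + (d : ℝ) ^ 2) * R * (E * φ) =
      8 * C * l * (m t + 1) * G + 8 * C * l * (m t + 1) * G * y +
      (d : ℝ) ^ 2 * l * (m t + 1) * G + (d : ℝ) ^ 2 * l * (m t + 1) * G * y +
      (K₁ * (E * φ) * R + (d : ℝ) ^ 2 * (E * φ) * R) := by ring
  rw [t6]
  linarith

private lemma gauss_mono {A B y : ℝ} (hA : 0 < A) (hAB : A ≤ B) (hy : 0 ≤ y) :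
    A * Real.exp (-(y / A)) ≤ B * Real.exp (-(y / B)) := by
  refine mul_le_mul hAB (Real.exp_le_exp.2 (neg_le_neg ?_)) (Real.exp_pos _).le (by linarith)
  exact div_le_div_of_nonneg_left hy hA hAB

theorem gauss_upTo (hd : 2 ≤ d) {γ : ℝ} (h1 : -2 < γ) (h2 : γ ≤ 0) {T : ℝ}
    {f : ℝ → Vec d → Vec d → ℝ} (hf : IsLandauSol γ T f)
    (h0 : ∃ μ > 0, ∃ C : ℝ, ∀ x v, f 0 x v ≤ C * Real.exp (-(μ * nsq v)))
    (h : ConvInL1 γ T f) : GaussUpTo T f := by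
  obtain ⟨K, hK0, hK⟩ := landau_gauss (d := d) hd h1 h2
  obtain ⟨μ, hμ, C₀, hC₀⟩ := h0
  obtain ⟨m, hm, hmom⟩ := h
  have hcs : IsClassicalSol T (fun t x => landauQ γ (f t x)) f := hf
  obtain ⟨B₀, hB₀⟩ : ∃ B₀ : ℝ, B₀ = max (max C₀ (1 / μ)) (Real.exp 1) := ⟨_, rfl⟩
  have hBe : Real.exp 1 ≤ B₀ := by rw [hB₀]; exact le_max_right _ _
  have hBC : C₀ ≤ B₀ := by rw [hB₀]; exact (le_max_left _ _).trans (le_max_left _ _)
  have hBμ : 1 / μ ≤ B₀ := by rw [hB₀]; exact (le_max_right _ _).trans (le_max_left _ _)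
  have hBpos : 0 < B₀ := (Real.exp_pos 1).trans_le hBe
  have hinit : ∀ x v, f 0 x v ≤ B₀ * Real.exp (-(nsq v / B₀)) := by
    intro x v
    refine (hC₀ x v).trans ?_
    refine mul_le_mul hBC (Real.exp_le_exp.2 (neg_le_neg ?_)) (Real.exp_pos _).le hBpos.le
    rw [div_le_iff₀ hBpos]
    have h3 : 1 ≤ μ * B₀ := by
      rw [div_le_iff₀ hμ] at hBμ; linarith
    have h4 := sq_nonneg' v
    calc nsq v = nsq v * 1 := (mul_one _).symm
      _ ≤ nsq v * (μ * B₀) := mul_le_mul_of_nonneg_left h3 h4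
      _ = μ * nsq v * B₀ := by ring
  have hm0 : ∀ t ∈ Ioo 0 T, 0 ≤ m t := fun t ht => le_trans
    (integral_nonneg fun w => mul_nonneg (hcs.nonneg t ⟨ht.1.le, ht.2⟩ 0 w)
      (Real.rpow_nonneg (len_nonneg _) _)) (hmom t ht 0 0)
  have hm1 : IntegrableOn (fun τ => m τ + 1) (Ioo 0 T) := hm.add (by simp [IntegrableOn])
  obtain ⟨L, hL⟩ : ∃ L : ℝ, L = ∫ τ in Ioo 0 T, (m τ + 1) := ⟨_, rfl⟩
  obtain ⟨AT, hAT⟩ : ∃ AT : ℝ, AT = Real.exp (Real.log B₀ * Real.exp (K * L)) := ⟨_, rfl⟩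
  have hATp : 0 < AT := by rw [hAT]; exact Real.exp_pos _
  refine ⟨1 / AT, by positivity, AT, fun t ht x v => ?_⟩
  have h5 := hK T f hf m hm hmom B₀ hBe hinit t ht x v
  have hIL : ∫ τ in Ioc 0 t, (m τ + 1) ≤ L := by
    rw [hL]
    refine setIntegral_mono_set hm1 ?_ (Eventually.of_forall ?_)
    · filter_upwards [ae_restrict_mem measurableSet_Ioo] with τ hτ
      have := hm0 τ hτ
      simp only [Pi.zero_apply]; linarith
    · exact fun τ hτ => ⟨hτ.1, hτ.2.trans_lt ht.2⟩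
  have hlog : 0 ≤ Real.log B₀ := by
    apply Real.log_nonneg
    have := Real.add_one_le_exp (1 : ℝ)
    linarith
  have hle : Real.exp (Real.log B₀ * Real.exp (K * ∫ τ in Ioc 0 t, (m τ + 1))) ≤ AT := by
    rw [hAT]
    exact Real.exp_le_exp.2 (mul_le_mul_of_nonneg_left
      (Real.exp_le_exp.2 (mul_le_mul_of_nonneg_left hIL hK0)) hlog)
  refine h5.trans ((gauss_mono (Real.exp_pos _) hle (sq_nonneg' v)).trans (le_of_eq ?_))
  congr 3
  ring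

theorem GaussUpTo.rapid {T : ℝ} {f : ℝ → Vec d → Vec d → ℝ} (h : GaussUpTo T f) :
    RapidUpTo T f := by
  obtain ⟨μ, hμ, C, hC⟩ := h
  intro N
  refine ⟨2 ^ N * (|C| * ((N.factorial : ℝ) * Real.exp μ / μ ^ N)), fun t ht x v => ?_⟩
  have h1 := hC t ht x v
  have hv := sq_nonneg' v
  have hw := w_pos v
  have h2 : f t x v ≤ |C| * Real.exp (-(μ * nsq v)) :=
    h1.trans (mul_le_mul_of_nonneg_right (le_abs_self C) (Real.exp_pos _).le)
  have h3 : (1 + ‖v‖) ^ N ≤ 2 ^ N * (1 + nsq v) ^ N := by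
    have h4 : 1 + ‖v‖ ≤ 2 * (1 + nsq v) := by
      have h5 := norm_sq_le_sq v
      nlinarith [sq_nonneg (‖v‖ - 1), norm_nonneg v]
    calc (1 + ‖v‖) ^ N ≤ (2 * (1 + nsq v)) ^ N := pow_le_pow_left₀ hw.le h4 N
      _ = 2 ^ N * (1 + nsq v) ^ N := mul_pow _ _ _
  have h6 : (1 + nsq v) ^ N * Real.exp (-(μ * nsq v)) ≤
      (N.factorial : ℝ) * Real.exp μ / μ ^ N := by
    have h7 := Real.pow_div_factorial_le_exp (μ * (1 + nsq v)) (by positivity) N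
    rw [div_le_iff₀ (by positivity), mul_pow] at h7
    rw [le_div_iff₀ (by positivity)]
    have h8 : Real.exp (μ * (1 + nsq v)) * Real.exp (-(μ * nsq v)) = Real.exp μ := by
      rw [← Real.exp_add]; congr 1; ring
    calc (1 + nsq v) ^ N * Real.exp (-(μ * nsq v)) * μ ^ N
        = (μ ^ N * (1 + nsq v) ^ N) * Real.exp (-(μ * nsq v)) := by ring
      _ ≤ (Real.exp (μ * (1 + nsq v)) * (N.factorial : ℝ)) * Real.exp (-(μ * nsq v)) :=
          mul_le_mul_of_nonneg_right h7 (Real.exp_pos _).le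
      _ = (N.factorial : ℝ) * (Real.exp (μ * (1 + nsq v)) * Real.exp (-(μ * nsq v))) := by ring
      _ = (N.factorial : ℝ) * Real.exp μ := by rw [h8]
  calc (1 + ‖v‖) ^ N * f t x v ≤ (1 + ‖v‖) ^ N * (|C| * Real.exp (-(μ * nsq v))) :=
        mul_le_mul_of_nonneg_left h2 (by positivity)
    _ ≤ (2 ^ N * (1 + nsq v) ^ N) * (|C| * Real.exp (-(μ * nsq v))) :=
        mul_le_mul_of_nonneg_right h3 (by positivity)
    _ = 2 ^ N * (|C| * ((1 + nsq v) ^ N * Real.exp (-(μ * nsq v)))) := by ring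
    _ ≤ 2 ^ N * (|C| * ((N.factorial : ℝ) * Real.exp μ / μ ^ N)) := by gcongr

theorem RapidUpTo.conv (hd : 2 ≤ d) {γ : ℝ} (h1 : -2 < γ) (h2 : γ ≤ 0) {T : ℝ}
    {Q f : ℝ → Vec d → Vec d → ℝ} (hf : IsClassicalSol T Q f) (h : RapidUpTo T f) :
    ConvInL1 γ T f := by
  obtain ⟨m, hm, hmom⟩ := Pool.Agent.H82.LK.rapid_soft hd h1 h2 0 hf h
  refine ⟨m, hm, fun t ht x v => ?_⟩
  have hn := IsClassicalSol.nice hf ht x
  have hfn := fun u => hf.nonneg t ⟨ht.1.le, ht.2⟩ x u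
  have i1 := moment_integrable hn ((0 : ℝ) / 2)
  have i2 := Pool.Agent.H82.LK.len_int hd h1 h2 hn v
  have e4 : ∫ z, f t x z * ((1 + nsq z) ^ ((0 : ℝ) / 2) + len (v - z) ^ γ) =
      (∫ z, f t x z * (1 + nsq z) ^ ((0 : ℝ) / 2)) + ∫ z, f t x z * len (v - z) ^ γ := by
    rw [← integral_add i1 i2]
    exact integral_congr_ae (Eventually.of_forall fun z => by simp only; ring)
  have e5 := hmom t ht x v
  rw [e4] at e5
  have n1 : 0 ≤ ∫ z, f t x z * (1 + nsq z) ^ ((0 : ℝ) / 2) := integral_nonneg fun z =>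
    mul_nonneg (hfn z) (Real.rpow_nonneg (by linarith [one_le_nsq z]) _)
  linarith

end Pool.Agent.H93.CM
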