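import Pool.Agent.H93.CM.Defs

set_option autoImplicit false

open MeasureTheory Set Filter Topology Pool.Agent.H25.Kin Pool.Agent.H82.BK

/-!
# Module Mean: monotonicity of the rate in the order, and simple bounds

* `mom_ge_mass`: `(1+|v|²)^(q/2) ≥ 1` for `q ≥ 0` (`moment_integrable`).
* `rate_le_mom`: if `M = mass g > 0` put `y = mom/M ≥ 1`; `M y^(γ/q) ≤ M y = mom` as `γ/q ≤ 1`. If `M = 0` the rate is `0`.
* `rate_mono` (power means). If `M = 0` both are `0`. Otherwise with the probability measure `g dv/M` and `φ = (1+|v|²)^(1/2)`: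
  `(mom q/M)^(1/q) ≤ (mom q'/M)^(1/q')`, by Hölder with exponents `q'/q` and its conjugate:
  `∫ g φ^q = ∫ g^(1-q/q') (g φ^q')^(q/q') ≤ (∫ g)^(1-q/q') (∫ g φ^q')^(q/q')`
  (`MeasureTheory.integral_mul_le_Lp_mul_Lq_of_nonneg` or Jensen `inner_le_nnorm_mul_nnorm`/`ConvexOn.map_integral_le` for
  `x ↦ x^(q'/q)`; the case `q = q'` is trivial). Raise to the power `γ ≥ 0`: `(mom q/M)^(γ/q) ≤ (mom q'/M)^(γ/q')`.
-/

namespace Pool.Agent.H93.CM

variable {d : ℕ}

private theorem Mean_nsq (v : Vec d) : 0 ≤ nsq v := Finset.sum_nonneg fun _ _ => sq_nonneg _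

private theorem Mean_one (v : Vec d) : 1 ≤ 1 + nsq v := by linarith [Mean_nsq v]

private theorem Mean_int {g : Vec d → ℝ} (hg : Nice g) (q : ℝ) :
    Integrable fun v => g v * (1 + nsq v) ^ q := moment_integrable hg q

theorem mass_nonneg {g : Vec d → ℝ} (hg0 : ∀ u, 0 ≤ g u) : 0 ≤ mass g := integral_nonneg hg0

private theorem Mean_mom_nonneg {g : Vec d → ℝ} (hg0 : ∀ u, 0 ≤ g u) (q : ℝ) : 0 ≤ mom q g :=
  integral_nonneg fun v => mul_nonneg (hg0 v) (Real.rpow_nonneg (by linarith [Mean_nsq v]) _)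

private theorem Mean_gint {g : Vec d → ℝ} (hg : Nice g) : Integrable g := by
  have h := Mean_int hg 0
  simpa using h

theorem mom_ge_mass {g : Vec d → ℝ} (hg : Nice g) (hg0 : ∀ u, 0 ≤ g u) {q : ℝ} (hq : 0 ≤ q) :
    mass g ≤ mom q g := by
  unfold mass mom
  refine integral_mono (Mean_gint hg) (Mean_int hg (q / 2)) fun v => ?_
  have h1 : 1 ≤ (1 + nsq v) ^ (q / 2) := Real.one_le_rpow (Mean_one v) (by linarith)
  have h2 := mul_le_mul_of_nonneg_left h1 (hg0 v)
  simpa using h2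

theorem rate_nonneg {g : Vec d → ℝ} (hg0 : ∀ u, 0 ≤ g u) (γ q : ℝ) : 0 ≤ rate γ q g := by
  unfold rate
  exact mul_nonneg (mass_nonneg hg0)
    (Real.rpow_nonneg (div_nonneg (Mean_mom_nonneg hg0 q) (mass_nonneg hg0)) _)

theorem rate_le_mom {g : Vec d → ℝ} (hg : Nice g) (hg0 : ∀ u, 0 ≤ g u) {γ q : ℝ} (hγ : 0 ≤ γ)
    (hq : 0 < q) (hγq : γ ≤ q) : rate γ q g ≤ mom q g := by
  unfold rate
  rcases (mass_nonneg hg0).eq_or_lt with h0 | h0
  · rw [← h0, zero_mul]
    exact Mean_mom_nonneg hg0 q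
  · have h1 : 1 ≤ mom q g / mass g := by
      rw [le_div_iff₀ h0, one_mul]
      exact mom_ge_mass hg hg0 hq.le
    have h2 : (mom q g / mass g) ^ (γ / q) ≤ mom q g / mass g := by
      conv_rhs => rw [← Real.rpow_one (mom q g / mass g)]
      exact Real.rpow_le_rpow_of_exponent_le h1 ((div_le_one hq).2 hγq)
    calc mass g * (mom q g / mass g) ^ (γ / q) ≤ mass g * (mom q g / mass g) :=
          mul_le_mul_of_nonneg_left h2 h0.le
      _ = mom q g := by field_simp

private theorem Mean_jensen {g : Vec d → ℝ} (hg : Nice g) (hg0 : ∀ u, 0 ≤ g u) {q p : ℝ}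
    (hp : 1 < p) :
    mom q g ≤ mass g ^ (1 - 1 / p) * mom (p * q) g ^ (1 / p) := by
  have hp0 : 0 < p := by linarith
  have hconj : (p / (p - 1)).HolderConjugate p := by
    have := (Real.HolderConjugate.conjExponent hp).symm
    simpa [Real.conjExponent] using this
  set r := p / (p - 1) with hr
  have hr0 : 0 < r := hconj.pos
  have hsum : 1 / r + 1 / p = 1 := by
    rw [hr]
    have : p - 1 ≠ 0 := by linarith
    field_simp
    ring
  have hcont : Continuous g := hg.cont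
  have hnsq : Continuous (fun v : Vec d => 1 + nsq v) := by
    unfold nsq; fun_prop
  have hpos : ∀ v : Vec d, 0 < 1 + nsq v := fun v => by linarith [Mean_nsq v]
  have hf0 : ∀ v, 0 ≤ g v ^ (1 / r) := fun v => Real.rpow_nonneg (hg0 v) _
  have hk0 : ∀ v : Vec d, 0 ≤ (g v * (1 + nsq v) ^ (p * q / 2)) ^ (1 / p) := fun v =>
    Real.rpow_nonneg (mul_nonneg (hg0 v) (Real.rpow_nonneg (hpos v).le _)) _
  have hbase : Continuous fun v : Vec d => g v * (1 + nsq v) ^ (p * q / 2) :=
    hcont.mul (hnsq.rpow_const fun v => Or.inl (hpos v).ne')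
  have hfc : Continuous fun v => g v ^ (1 / r) :=
    hcont.rpow_const fun v => Or.inr (by positivity)
  have hkc : Continuous fun v : Vec d => (g v * (1 + nsq v) ^ (p * q / 2)) ^ (1 / p) :=
    hbase.rpow_const fun v => Or.inr (by positivity)
  have hfp : ∀ v, (g v ^ (1 / r)) ^ r = g v := fun v => by
    rw [← Real.rpow_mul (hg0 v), one_div, inv_mul_cancel₀ hr0.ne', Real.rpow_one]
  have hkp : ∀ v : Vec d, ((g v * (1 + nsq v) ^ (p * q / 2)) ^ (1 / p)) ^ p =
      g v * (1 + nsq v) ^ (p * q / 2) := fun v => by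
    rw [← Real.rpow_mul (mul_nonneg (hg0 v) (Real.rpow_nonneg (hpos v).le _)), one_div,
      inv_mul_cancel₀ hp0.ne', Real.rpow_one]
  have hfL : MemLp (fun v => g v ^ (1 / r)) (ENNReal.ofReal r) volume := by
    rw [← integrable_norm_rpow_iff hfc.aestronglyMeasurable (by simpa using hr0)
      ENNReal.ofReal_ne_top, ENNReal.toReal_ofReal hr0.le]
    refine (Mean_gint hg).congr (Eventually.of_forall fun v => ?_)
    simp only
    rw [Real.norm_of_nonneg (hf0 v), hfp]
  have hkL : MemLp (fun v : Vec d => (g v * (1 + nsq v) ^ (p * q / 2)) ^ (1 / p))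
      (ENNReal.ofReal p) volume := by
    rw [← integrable_norm_rpow_iff hkc.aestronglyMeasurable (by simpa using hp0)
      ENNReal.ofReal_ne_top, ENNReal.toReal_ofReal hp0.le]
    refine (Mean_int hg (p * q / 2)).congr (Eventually.of_forall fun v => ?_)
    simp only
    rw [Real.norm_of_nonneg (hk0 v), hkp]
  have H := integral_mul_le_Lp_mul_Lq_of_nonneg hconj (Eventually.of_forall hf0)
    (Eventually.of_forall hk0) hfL hkL
  have e1 : ∀ v : Vec d, g v ^ (1 / r) * (g v * (1 + nsq v) ^ (p * q / 2)) ^ (1 / p) =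
      g v * (1 + nsq v) ^ (q / 2) := by
    intro v
    rw [Real.mul_rpow (hg0 v) (Real.rpow_nonneg (hpos v).le _), ← mul_assoc,
      ← Real.rpow_mul (hpos v).le]
    have e2 : p * q / 2 * (1 / p) = q / 2 := by field_simp
    rw [e2]
    congr 1
    rcases (hg0 v).eq_or_lt with h | h
    · rw [← h, Real.zero_rpow (by positivity), zero_mul]
    · rw [← Real.rpow_add h, hsum, Real.rpow_one]
  simp only [e1, hfp, hkp] at H
  have e3 : 1 - 1 / p = 1 / r := by
    linarith
  rw [e3]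
  exact H

theorem rate_mono {g : Vec d → ℝ} (hg : Nice g) (hg0 : ∀ u, 0 ≤ g u) {γ q q' : ℝ} (hγ : 0 ≤ γ)
    (hq : 0 < q) (hqq : q ≤ q') : rate γ q g ≤ rate γ q' g := by
  rcases hqq.eq_or_lt with h | h
  · rw [h]
  unfold rate
  rcases (mass_nonneg hg0).eq_or_lt with h0 | h0
  · rw [← h0, zero_mul, zero_mul]
  refine mul_le_mul_of_nonneg_left ?_ h0.le
  have hq' : 0 < q' := hq.trans h
  have hp : 1 < q' / q := (one_lt_div hq).2 h
  have H := Mean_jensen hg hg0 (q := q) hp
  have e0 : q' / q * q = q' := by field_simp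
  rw [e0] at H
  have hm' : 0 ≤ mom q' g := Mean_mom_nonneg hg0 q'
  have h1 : mom q g / mass g ≤ (mom q' g / mass g) ^ (q / q') := by
    rw [div_le_iff₀ h0]
    refine H.trans (le_of_eq ?_)
    have e1 : 1 / (q' / q) = q / q' := by field_simp
    rw [e1, Real.div_rpow hm' h0.le, Real.rpow_sub h0, Real.rpow_one]
    field_simp
  have hm : 0 ≤ mom q g / mass g := div_nonneg (Mean_mom_nonneg hg0 q) h0.le
  have h2 := Real.rpow_le_rpow hm h1 (show 0 ≤ γ / q by positivity)
  refine h2.trans (le_of_eq ?_)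
  rw [← Real.rpow_mul (div_nonneg hm' h0.le)]
  congr 1
  field_simp

end Pool.Agent.H93.CM
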