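import Pool.Agent.H93.CM.Crit
import Pool.Agent.H93.CM.Mean
import Pool.Agent.H93.CM.FinL

/-!
# The criterion for the Boltzmann equation: weighted estimates and equivalences
-/

set_option autoImplicit false

open MeasureTheory Set Filter Topology Pool.Agent.H25.Kin Pool.Agent.H82.BK

namespace Pool.Agent.H93.CM

variable {d : ℕ}

/-- **the quantitative estimate**, `γ ≥ 0` -/
theorem crit_estimate {γ s : ℝ} (hd : 2 ≤ d) (hs : s ∈ Ioo (0 : ℝ) 1) (hγ : 0 ≤ γ)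
    (h2 : γ + 2 * s ≤ 2) {b : ℝ → ℝ} (hb : IsKernel d s b) (p : ℕ)
    (hp : (d : ℝ) + γ + 4 ≤ 2 * p) {q : ℝ} (hq : 0 < q) :
    ∃ K : ℝ, 0 ≤ K ∧ ∀ T : ℝ, ∀ f : ℝ → Vec d → Vec d → ℝ, IsBoltzmannSol γ b T f →
      ∀ m : ℝ → ℝ, IntegrableOn m (Ioo 0 T) →
      (∀ t ∈ Ioo 0 T, ∀ x, rate γ q (f t x) ≤ m t) →
      ∀ A₀ : ℝ, (∀ x v, f 0 x v * (1 + nsq v) ^ p ≤ A₀) →
      ∀ t ∈ Ico 0 T, ∀ x v, f t x v * (1 + nsq v) ^ p ≤
        A₀ * Real.exp (K * ∫ τ in Ioc 0 t, m τ) := by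
  obtain ⟨K, hK0, hK⟩ := crit_hard hd hs hγ h2 hb hp hq
  refine ⟨K, hK0, fun T f hf m hm hmom A₀ hA₀ => ?_⟩
  have hfn : ∀ t ∈ Ioo 0 T, ∀ x u, 0 ≤ f t x u := fun t ht x u =>
    hf.nonneg t ⟨ht.1.le, ht.2⟩ x u
  have hm0 : ∀ t ∈ Ioo 0 T, 0 ≤ m t := fun t ht =>
    (rate_nonneg (hfn t ht 0) γ q).trans (hmom t ht 0)
  refine max_principle hf p hK0 hm hm0 (fun t ht x v hdom => ?_) hA₀
  have h1 := hK (f t x) (IsClassicalSol.nice hf ht x) (hfn t ht x) v hdom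
  exact h1.trans (mul_le_mul_of_nonneg_left (hmom t ht x) (mul_nonneg hK0 (hfn t ht x v)))

/-- **the quantitative estimate**, `γ ≤ 0` -/
theorem conv_estimate {γ s : ℝ} (hd : 2 ≤ d) (hs : s ∈ Ioo (0 : ℝ) 1) (h0 : 0 ≤ γ + 2 * s)
    (hγ : γ ≤ 0) {b : ℝ → ℝ} (hb : IsKernel d s b) (p : ℕ)
    (hp : (d : ℝ) + γ + 4 ≤ 2 * p) :
    ∃ K : ℝ, 0 ≤ K ∧ ∀ T : ℝ, ∀ f : ℝ → Vec d → Vec d → ℝ, IsBoltzmannSol γ b T f →
      ∀ m : ℝ → ℝ, IntegrableOn m (Ioo 0 T) →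
      (∀ t ∈ Ioo 0 T, ∀ x v, ∫ w, f t x w * len (v - w) ^ γ ≤ m t) →
      ∀ A₀ : ℝ, (∀ x v, f 0 x v * (1 + nsq v) ^ p ≤ A₀) →
      ∀ t ∈ Ico 0 T, ∀ x v, f t x v * (1 + nsq v) ^ p ≤
        A₀ * Real.exp (K * ∫ τ in Ioc 0 t, m τ) := by
  obtain ⟨K, hK0, hK⟩ := crit_soft hd hs h0 hγ hb hp
  refine ⟨K, hK0, fun T f hf m hm hmom A₀ hA₀ => ?_⟩
  have hfn : ∀ t ∈ Ioo 0 T, ∀ x u, 0 ≤ f t x u := fun t ht x u =>
    hf.nonneg t ⟨ht.1.le, ht.2⟩ x u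
  have hm0 : ∀ t ∈ Ioo 0 T, 0 ≤ m t := fun t ht =>
    (integral_nonneg fun w => mul_nonneg (hfn t ht 0 w)
      (Real.rpow_nonneg (len_nonneg _) _)).trans (hmom t ht 0 0)
  refine max_principle hf p hK0 hm hm0 (fun t ht x v hdom => ?_) hA₀
  have h1 := hK (f t x) (IsClassicalSol.nice hf ht x) (hfn t ht x) v hdom
  exact h1.trans (mul_le_mul_of_nonneg_left (hmom t ht x v) (mul_nonneg hK0 (hfn t ht x v)))

/-- weighted estimates for all large weights give rapid decay up to `T` -/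
theorem rapid_of_estimates {γ T : ℝ} {Q f : ℝ → Vec d → Vec d → ℝ} (hf : IsClassicalSol T Q f)
    {m : ℝ → ℝ} (hm : IntegrableOn m (Ioo 0 T)) (hm0 : ∀ t ∈ Ioo 0 T, 0 ≤ m t)
    (h : ∀ p : ℕ, (d : ℝ) + γ + 4 ≤ 2 * p → ∃ K : ℝ, 0 ≤ K ∧
      ∀ A₀ : ℝ, (∀ x v, f 0 x v * (1 + nsq v) ^ p ≤ A₀) →
      ∀ t ∈ Ico 0 T, ∀ x v, f t x v * (1 + nsq v) ^ p ≤
        A₀ * Real.exp (K * ∫ τ in Ioc 0 t, m τ)) :
    RapidUpTo T f := by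
  rcases le_or_gt T 0 with hT | hT
  · intro N
    exact ⟨0, fun t ht => absurd (ht.1.trans_lt ht.2) (not_lt.2 hT)⟩
  refine rapid_of_weighted hf.nonneg fun N => ?_
  obtain ⟨p, hp⟩ := exists_nat_ge (max (((d : ℝ) + γ + 4) / 2) N)
  have hp1 : (d : ℝ) + γ + 4 ≤ 2 * p := by
    have := (le_max_left _ _).trans hp
    linarith
  have hp2 : N ≤ 2 * p := by
    have h1 : (N : ℝ) ≤ p := (le_max_right _ _).trans hp
    have h2 : N ≤ p := by exact_mod_cast h1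
    omega
  obtain ⟨K, hK0, hK⟩ := h p hp1
  obtain ⟨A₀, hA₀⟩ := init_bound hf hT p
  have hA0 : 0 ≤ A₀ := le_trans (mul_nonneg (hf.nonneg 0 ⟨le_rfl, hT⟩ 0 0)
    (pow_nonneg (by linarith [one_le_nsq (0 : Vec d)]) p)) (hA₀ 0 0)
  refine ⟨p, hp2, A₀ * Real.exp (K * ∫ τ in Ioo 0 T, m τ), fun t ht x v => ?_⟩
  refine (hK A₀ hA₀ t ht x v).trans ?_
  refine mul_le_mul_of_nonneg_left (Real.exp_le_exp.2 (mul_le_mul_of_nonneg_left ?_ hK0)) hA0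
  refine setIntegral_mono_set hm ?_ (HasSubset.Subset.eventuallyLE ?_)
  · filter_upwards [ae_restrict_mem measurableSet_Ioo] with τ hτ using hm0 τ hτ
  · exact fun τ hτ => ⟨hτ.1, hτ.2.trans_lt ht.2⟩

/-- integrability of the rate gives rapid decay up to `T`, `γ ≥ 0` -/
theorem rate_rapid {γ s : ℝ} (hd : 2 ≤ d) (hs : s ∈ Ioo (0 : ℝ) 1) (hγ : 0 ≤ γ)
    (h2 : γ + 2 * s ≤ 2) {b : ℝ → ℝ} (hb : IsKernel d s b) {q : ℝ} (hq : 0 < q) {T : ℝ}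
    {f : ℝ → Vec d → Vec d → ℝ} (hf : IsBoltzmannSol γ b T f) (h : RateInL1 γ q T f) :
    RapidUpTo T f := by
  obtain ⟨m, hm, hmom⟩ := h
  have hfn : ∀ t ∈ Ioo 0 T, ∀ x u, 0 ≤ f t x u := fun t ht x u =>
    hf.nonneg t ⟨ht.1.le, ht.2⟩ x u
  have hm0 : ∀ t ∈ Ioo 0 T, 0 ≤ m t := fun t ht =>
    (rate_nonneg (hfn t ht 0) γ q).trans (hmom t ht 0)
  refine rapid_of_estimates (γ := γ) hf hm hm0 fun p hp => ?_
  obtain ⟨K, hK0, hK⟩ := crit_estimate hd hs hγ h2 hb p hp hq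
  exact ⟨K, hK0, fun A₀ hA₀ => hK T f hf m hm hmom A₀ hA₀⟩

/-- integrability of the convolution gives rapid decay up to `T`, `γ ≤ 0` -/
theorem conv_rapid {γ s : ℝ} (hd : 2 ≤ d) (hs : s ∈ Ioo (0 : ℝ) 1) (h0 : 0 ≤ γ + 2 * s)
    (hγ : γ ≤ 0) {b : ℝ → ℝ} (hb : IsKernel d s b) {T : ℝ}
    {f : ℝ → Vec d → Vec d → ℝ} (hf : IsBoltzmannSol γ b T f) (h : ConvInL1 γ T f) :
    RapidUpTo T f := by
  obtain ⟨m, hm, hmom⟩ := h
  have hfn : ∀ t ∈ Ioo 0 T, ∀ x u, 0 ≤ f t x u := fun t ht x u =>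
    hf.nonneg t ⟨ht.1.le, ht.2⟩ x u
  have hm0 : ∀ t ∈ Ioo 0 T, 0 ≤ m t := fun t ht =>
    (integral_nonneg fun w => mul_nonneg (hfn t ht 0 w)
      (Real.rpow_nonneg (len_nonneg _) _)).trans (hmom t ht 0 0)
  refine rapid_of_estimates (γ := γ) hf hm hm0 fun p hp => ?_
  obtain ⟨K, hK0, hK⟩ := conv_estimate hd hs h0 hγ hb p hp
  exact ⟨K, hK0, fun A₀ hA₀ => hK T f hf m hm hmom A₀ hA₀⟩

/-- the moments are bounded up to `T` under rapid decay -/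
theorem rapid_mom {T : ℝ} {Q f : ℝ → Vec d → Vec d → ℝ} (hf : IsClassicalSol T Q f)
    (h : RapidUpTo T f) (q : ℝ) : ∃ M : ℝ, ∀ t ∈ Ico 0 T, ∀ x, mom q (f t x) ≤ M := by
  obtain ⟨n, hn⟩ := exists_nat_ge (q / 2)
  obtain ⟨C₁, hC₁⟩ := h (2 * n + (d + 1))
  have hw : Integrable (fun v : Vec d => ((1 + ‖v‖) ^ (d + 1))⁻¹) := integrable_wt
  refine ⟨(d + 1) ^ n * |C₁| * ∫ v : Vec d, ((1 + ‖v‖) ^ (d + 1))⁻¹, fun t ht x => ?_⟩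
  have hfn := fun u => hf.nonneg t ht x u
  unfold mom
  rw [← integral_const_mul]
  refine integral_mono_of_nonneg (Eventually.of_forall fun z => mul_nonneg (hfn z)
    (Real.rpow_nonneg (by linarith [one_le_nsq z]) _)) (hw.const_mul _)
    (Eventually.of_forall fun z => ?_)
  have h1 := one_le_nsq z
  have hdec : f t x z ≤ |C₁| * ((1 + ‖z‖) ^ (2 * n + (d + 1)))⁻¹ := by
    rw [← div_eq_mul_inv, le_div_iff₀ (pow_pos (w_pos z) _), mul_comm]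
    exact (hC₁ t ht x z).trans (le_abs_self _)
  have h2 : (1 + nsq z) ^ (q / 2) ≤ (d + 1) ^ n * (1 + ‖z‖) ^ (2 * n) := by
    calc (1 + nsq z) ^ (q / 2) ≤ (1 + nsq z) ^ (n : ℝ) := Real.rpow_le_rpow_of_exponent_le h1 hn
      _ = (1 + nsq z) ^ n := Real.rpow_natCast _ _
      _ ≤ ((d + 1) * (1 + ‖z‖) ^ 2) ^ n := pow_le_pow_left₀ (by linarith) (one_add_nsq_le z) n
      _ = (d + 1) ^ n * (1 + ‖z‖) ^ (2 * n) := by rw [mul_pow, pow_mul]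
  have h3 := w_pos z
  calc f t x z * (1 + nsq z) ^ (q / 2)
      ≤ (|C₁| * ((1 + ‖z‖) ^ (2 * n + (d + 1)))⁻¹) * ((d + 1) ^ n * (1 + ‖z‖) ^ (2 * n)) :=
        mul_le_mul hdec h2 (Real.rpow_nonneg (by linarith) _) (by positivity)
    _ = (d + 1) ^ n * |C₁| * ((1 + ‖z‖) ^ (d + 1))⁻¹ := by
        rw [pow_add]; field_simp

/-- rapid decay up to `T` controls the rate, `0 ≤ γ ≤ 2` -/
theorem rapid_rate {γ T : ℝ} (hγ : 0 ≤ γ) (hγ2 : γ ≤ 2) {q : ℝ} (hq : 0 < q)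
    {Q f : ℝ → Vec d → Vec d → ℝ} (hf : IsClassicalSol T Q f) (h : RapidUpTo T f) :
    RateInL1 γ q T f := by
  obtain ⟨M, hM⟩ := rapid_mom hf h (max q 2)
  refine ⟨fun _ => M, by simp [IntegrableOn], fun t ht x => ?_⟩
  have ht' : t ∈ Ico 0 T := ⟨ht.1.le, ht.2⟩
  have hn := IsClassicalSol.nice hf ht x
  have hfn := fun u => hf.nonneg t ht' x u
  exact ((rate_mono hn hfn hγ hq (le_max_left q 2)).trans
    (rate_le_mom hn hfn hγ (by positivity) (hγ2.trans (le_max_right q 2)))).trans (hM t ht' x)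

/-- bounded mass and energy densities control the rate of order `2` -/
theorem hydro_rate {γ T : ℝ} (hγ : 0 ≤ γ) (hγ2 : γ ≤ 2) {Q f : ℝ → Vec d → Vec d → ℝ}
    (hf : IsClassicalSol T Q f) (h : HydroUpper T f) : RateInL1 γ 2 T f := by
  obtain ⟨m, hm, hmom⟩ := HydroUpper.moment hf (le_refl (2 : ℝ)) h
  refine ⟨m, hm, fun t ht x => ?_⟩
  have hn := IsClassicalSol.nice hf ht x
  have hfn := fun u => hf.nonneg t ⟨ht.1.le, ht.2⟩ x u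
  exact (rate_le_mom hn hfn hγ (by norm_num) hγ2).trans (hmom t ht x)

/-- full hydrodynamic bounds from the upper bounds and the absence of vacuum -/
theorem hydroUpTo_of {T : ℝ} {f : ℝ → Vec d → Vec d → ℝ} (h : HydroUpper T f)
    (h' : ∃ m₀ > 0, ∀ t ∈ Ico 0 T, ∀ x, m₀ ≤ ∫ v, f t x v) : HydroUpTo T f := by
  obtain ⟨M, hM⟩ := h
  obtain ⟨m₀, hm₀, hm⟩ := h'
  exact ⟨m₀, hm₀, M, M, M, fun t ht x =>
    ⟨hm t ht x, (hM t ht x).1, (hM t ht x).2.1, (hM t ht x).2.2⟩⟩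

theorem HydroUpTo.upper {T : ℝ} {f : ℝ → Vec d → Vec d → ℝ} (h : HydroUpTo T f) :
    HydroUpper T f := by
  obtain ⟨m₀, _, M, E, H, h⟩ := h
  refine ⟨max M (max E H), fun t ht x => ?_⟩
  obtain ⟨_, h2, h3, h4⟩ := h t ht x
  exact ⟨h2.trans (le_max_left _ _), h3.trans ((le_max_left _ _).trans (le_max_right _ _)),
    h4.trans ((le_max_right _ _).trans (le_max_right _ _))⟩

end Pool.Agent.H93.CM
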