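import Pool.Agent.H93.CM.Defs

/-!
# Module Hess2: the Hessian at a touching point with `bar B E p`

`H(t) = bar B E p (v+tw) - g(v+tw) ≥ 0 = H(0)`, so `H''(0) ≥ 0` (the second derivative test is `second_test` in H82/LK/Hess.lean; copy that
file's private lemmas `dir_eq`, `line_deriv`, `second_test`, and the computation of the first and second derivative of `t ↦ g(v+tw)`).
With `β = 1/B`, `r(t) = |v+tw|²`, `r' = 2(v+tw)·w`, `r'' = 2|w|²`:
`(B exp(-β r))'' = B exp(-β r)(β² r'² - β r'')`, at `t = 0`: `≤ 4 β² (v·w)² B exp(-β|v|²)`;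
`(E (1+r)^(-p))'' = E [p(p+1)(1+r)^(-p-2) r'² - p (1+r)^(-p-1) r'']`, at `t = 0`:
`≤ 4p(p+1) E (1+|v|²)^(-p-2) (v·w)² ≤ 4p(p+1) E (1+|v|²)^(-p-1) |w|²` (Cauchy-Schwarz).
-/

set_option autoImplicit false

open MeasureTheory Set Filter Topology Pool.Agent.H25.Kin

namespace Pool.Agent.H93.CM

variable {d : ℕ}

private lemma h2_dir_eq (g : Vec d → ℝ) (u w : Vec d) :
    fderiv ℝ g u w = ∑ i, w i * pd i g u := by
  have h : w = ∑ i, w i • (Pi.single i (1 : ℝ) : Vec d) := by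
    funext j
    simp [Finset.sum_apply, Pi.single_apply]
  conv_lhs => rw [h]
  rw [map_sum]
  exact Finset.sum_congr rfl fun i _ => by rw [map_smul, smul_eq_mul, pd]

private lemma h2_line_deriv {f : Vec d → ℝ} {v w : Vec d} {t : ℝ}
    (hf : DifferentiableAt ℝ f (v + t • w)) :
    HasDerivAt (fun t : ℝ => f (v + t • w)) (∑ i, w i * pd i f (v + t • w)) t := by
  have hl : HasDerivAt (fun t : ℝ => v + t • w) w t := by
    simpa using ((hasDerivAt_id t).smul_const w).const_add v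
  have h := hf.hasFDerivAt.comp_hasDerivAt t hl
  rw [h2_dir_eq] at h
  exact h

private lemma h2_second_test {H H' : ℝ → ℝ} {H2 : ℝ} (h1 : ∀ t, HasDerivAt H (H' t) t)
    (h2 : HasDerivAt H' H2 0) (hmax : ∀ t, H t ≤ H 0) : H2 ≤ 0 := by
  have hlm : IsLocalMax H 0 := Eventually.of_forall hmax
  have h0 : H' 0 = 0 := hlm.hasDerivAt_eq_zero (h1 0)
  by_contra hneg
  rw [not_le] at hneg
  have hd : deriv H = H' := funext fun t => (h1 t).deriv
  have hmin : IsLocalMin H 0 := by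
    apply isLocalMin_of_deriv_deriv_pos
    · rw [hd, h2.deriv]; exact hneg
    · rw [hd]; exact h0
    · exact (h1 0).continuousAt
  have hconst : H =ᶠ[𝓝 0] fun _ => H 0 := by
    filter_upwards [hmin] with t ht
    exact le_antisymm (hmax t) ht
  have hd0 : H' =ᶠ[𝓝 0] fun _ => (0 : ℝ) := by
    have h3 := hconst.deriv
    rw [hd] at h3
    refine h3.trans (Eventually.of_forall fun t => ?_)
    simp
  have h4 : HasDerivAt H' 0 0 := (hasDerivAt_const (0 : ℝ) (0 : ℝ)).congr_of_eventuallyEq hd0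
  have := h2.unique h4
  linarith

/-- derivative of `r(t) = |v+tw|²` -/
private lemma h2_r (v w : Vec d) (t : ℝ) :
    HasDerivAt (fun t : ℝ => nsq (v + t • w)) (2 * ∑ i, (v i + t * w i) * w i) t := by
  unfold nsq
  have h1 : HasDerivAt (fun t : ℝ => ∑ i, (v + t • w) i ^ 2)
      (∑ i, 2 * ((v i + t * w i) * w i)) t := by
    refine HasDerivAt.fun_sum fun i _ => ?_
    have h2 : HasDerivAt (fun t : ℝ => v i + t * w i) (w i) t := by
      simpa using ((hasDerivAt_id t).mul_const (w i)).const_add (v i)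
    have h3 := h2.fun_pow 2
    have h4 : HasDerivAt (fun t : ℝ => (v + t • w) i ^ 2)
        (((2 : ℕ) : ℝ) * (v i + t * w i) ^ (2 - 1) * w i) t := h3
    refine h4.congr_deriv ?_
    simp
    ring
  rw [← Finset.mul_sum] at h1
  exact h1

/-- second derivative of `r(t)` -/
private lemma h2_r2 (v w : Vec d) :
    HasDerivAt (fun t : ℝ => 2 * ∑ i, (v i + t * w i) * w i) (2 * nsq w) 0 := by
  have h1 : HasDerivAt (fun t : ℝ => ∑ i, (v i + t * w i) * w i) (nsq w) 0 := by
    unfold nsq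
    refine HasDerivAt.fun_sum fun i _ => ?_
    have h2 : HasDerivAt (fun t : ℝ => v i + t * w i) (w i) 0 := by
      simpa using ((hasDerivAt_id (0 : ℝ)).mul_const (w i)).const_add (v i)
    refine (h2.mul_const (w i)).congr_deriv ?_
    ring
  exact h1.const_mul 2

/-- derivatives of a Gaussian along `r` -/
private lemma h2_exp {r r' : ℝ → ℝ} {r2 B : ℝ} (hB : B ≠ 0) (h1 : ∀ t, HasDerivAt r (r' t) t)
    (h2 : HasDerivAt r' r2 0) :
    (∀ t, HasDerivAt (fun t => B * Real.exp (-(r t / B))) (-(Real.exp (-(r t / B)) * r' t)) t) ∧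
      HasDerivAt (fun t => -(Real.exp (-(r t / B)) * r' t))
        (Real.exp (-(r 0 / B)) * (r' 0 ^ 2 / B - r2)) 0 := by
  have h3 : ∀ t, HasDerivAt (fun t => Real.exp (-(r t / B)))
      (Real.exp (-(r t / B)) * (-(r' t / B))) t := fun t =>
    (((h1 t).div_const B).neg).exp
  constructor
  · intro t
    refine ((h3 t).const_mul B).congr_deriv ?_
    field_simp
  · refine ((h3 0).fun_mul h2).neg.congr_deriv ?_
    field_simp
    ring

/-- derivatives of a power along `r` -/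
private lemma h2_pow {r r' : ℝ → ℝ} {r2 : ℝ} (p : ℕ) (hr : ∀ t, 0 < 1 + r t)
    (h1 : ∀ t, HasDerivAt r (r' t) t) (h2 : HasDerivAt r' r2 0) :
    (∀ t, HasDerivAt (fun t => ((1 + r t) ^ p)⁻¹)
      (-(p * (((1 + r t) ^ p)⁻¹ * r' t / (1 + r t)))) t) ∧
      HasDerivAt (fun t => -(p * (((1 + r t) ^ p)⁻¹ * r' t / (1 + r t))))
        (((1 + r 0) ^ p)⁻¹ * (p * (p + 1) * r' 0 ^ 2 / (1 + r 0) ^ 2 - p * r2 / (1 + r 0))) 0 := by
  have h3 : ∀ t, HasDerivAt (fun t => 1 + r t) (r' t) t := fun t => (h1 t).const_add 1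
  have h4 : ∀ t, HasDerivAt (fun t => ((1 + r t) ^ p)⁻¹)
      (-(p * (((1 + r t) ^ p)⁻¹ * r' t / (1 + r t)))) t := by
    intro t
    have h5 := ((h3 t).fun_pow p).fun_inv (pow_ne_zero p (hr t).ne')
    refine h5.congr_deriv ?_
    have h6 := (hr t).ne'
    rcases p with _ | p
    · simp
    · simp only [Nat.add_sub_cancel]
      rw [pow_succ]
      field_simp
      ring
  refine ⟨h4, ?_⟩
  have h7 := ((((h4 0).fun_mul h2).fun_div (h3 0) (hr 0).ne').const_mul (p : ℝ)).neg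
  refine h7.congr_deriv ?_
  have h6 := (hr 0).ne'
  have h8 : (1 + r 0) ^ p ≠ 0 := pow_ne_zero p h6
  field_simp
  ring

theorem hess_bar {g : Vec d → ℝ} (hg : ContDiff ℝ 2 g) {B E : ℝ} (hB : 0 < B) (hE : 0 ≤ E)
    {p : ℕ} {v : Vec d} (hdom : ∀ u, g u ≤ bar B E p u) (heq : g v = bar B E p v) (w : Vec d) :
    ∑ i, ∑ j, w i * w j * pd i (pd j g) v ≤
      4 / B ^ 2 * (B * Real.exp (-(nsq v / B))) * dot v w ^ 2 +
        4 * p * (p + 1) * (E * ((1 + nsq v) ^ p)⁻¹) / (1 + nsq v) * nsq w := by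
  have hgd : Differentiable ℝ g := hg.differentiable (by norm_num)
  have hpd : ∀ j, Differentiable ℝ (pd j g) := by
    intro j
    have h1 : ContDiff ℝ 1 (fderiv ℝ g) := hg.fderiv_right (by norm_num)
    have h2 : ContDiff ℝ 1 (pd j g) := h1.clm_apply contDiff_const
    exact h2.differentiable (by norm_num)
  have hG : ∀ t : ℝ, HasDerivAt (fun t : ℝ => g (v + t • w)) (∑ j, w j * pd j g (v + t • w)) t :=
    fun t => h2_line_deriv (hgd _)
  have hG2 : HasDerivAt (fun t : ℝ => ∑ j, w j * pd j g (v + t • w))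
      (∑ i, ∑ j, w i * w j * pd i (pd j g) v) 0 := by
    have h := HasDerivAt.fun_sum (u := (Finset.univ : Finset (Fin d)))
      (A := fun j (t : ℝ) => w j * pd j g (v + t • w))
      (A' := fun j => w j * ∑ i, w i * pd i (pd j g) (v + (0 : ℝ) • w)) (x := 0)
      fun j _ => (h2_line_deriv (v := v) (w := w) (t := 0) (hpd j _)).const_mul (w j)
    refine h.congr_deriv ?_
    rw [Finset.sum_comm]
    refine Finset.sum_congr rfl fun j _ => ?_
    rw [Finset.mul_sum]
    refine Finset.sum_congr rfl fun i _ => ?_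
    rw [zero_smul, add_zero]
    ring
  have hr := h2_r v w
  have hr2 := h2_r2 v w
  have hnn : ∀ u : Vec d, 0 ≤ nsq u := fun u => sq_nonneg' u
  obtain ⟨a1, a2⟩ := h2_exp hB.ne' hr hr2
  obtain ⟨b1, b2⟩ := h2_pow p (fun t => by linarith [hnn (v + t • w)]) hr hr2
  have hH : ∀ t : ℝ, HasDerivAt (fun t : ℝ => g (v + t • w) - bar B E p (v + t • w)) _ t :=
    fun t => (hG t).fun_sub ((a1 t).fun_add ((b1 t).const_mul E))
  have hH2 := hG2.fun_sub (a2.fun_add (b2.const_mul E))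
  have e := h2_second_test hH hH2 (by
    intro t
    simp only [zero_smul, add_zero]
    rw [heq, sub_self]
    linarith [hdom (v + t • w)])
  simp only [zero_smul, add_zero, zero_mul] at e
  have hs : ∑ i, v i * w i = dot v w := rfl
  rw [hs] at e
  have hcs : dot v w ^ 2 ≤ nsq v * nsq w := by
    rw [← hs]
    unfold nsq
    exact Finset.sum_mul_sq_le_sq_mul_sq _ _ _
  set X := Real.exp (-(nsq v / B)) with hX
  have hXp : 0 < X := Real.exp_pos _
  set Y := ((1 + nsq v) ^ p)⁻¹ with hY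
  have h1v : 0 < 1 + nsq v := by linarith [hnn v]
  have hYp : 0 < Y := inv_pos.2 (pow_pos h1v p)
  have hw0 := hnn w
  have t1 : X * ((2 * dot v w) ^ 2 / B - 2 * nsq w) ≤ 4 / B ^ 2 * (B * X) * dot v w ^ 2 := by
    have k1 : 4 / B ^ 2 * (B * X) * dot v w ^ 2 = X * ((2 * dot v w) ^ 2 / B) := by
      field_simp
      ring
    rw [k1]
    exact mul_le_mul_of_nonneg_left (by linarith) hXp.le
  have t2 : E * (Y * (p * (p + 1) * (2 * dot v w) ^ 2 / (1 + nsq v) ^ 2 -
      p * (2 * nsq w) / (1 + nsq v))) ≤ 4 * p * (p + 1) * (E * Y) / (1 + nsq v) * nsq w := by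
    have k2 : (p * (p + 1) * (2 * dot v w) ^ 2 / (1 + nsq v) ^ 2 -
        p * (2 * nsq w) / (1 + nsq v) : ℝ) ≤ 4 * p * (p + 1) / (1 + nsq v) * nsq w := by
      have k3 : 0 ≤ p * (2 * nsq w) / (1 + nsq v) := by positivity
      have k4 : (p * (p + 1) * (2 * dot v w) ^ 2 / (1 + nsq v) ^ 2 : ℝ) ≤
          4 * p * (p + 1) / (1 + nsq v) * nsq w := by
        rw [div_mul_eq_mul_div, div_le_div_iff₀ (by positivity) h1v]
        have k5 : dot v w ^ 2 ≤ (1 + nsq v) * nsq w := by nlinarith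
        have k6 : (0 : ℝ) ≤ 4 * (p * (p + 1)) * (1 + nsq v) := by positivity
        have k7 := mul_le_mul_of_nonneg_left k5 k6
        calc p * (p + 1) * (2 * dot v w) ^ 2 * (1 + nsq v)
            = 4 * (p * (p + 1)) * (1 + nsq v) * dot v w ^ 2 := by ring
          _ ≤ 4 * (p * (p + 1)) * (1 + nsq v) * ((1 + nsq v) * nsq w) := k7
          _ = 4 * p * (p + 1) * nsq w * (1 + nsq v) ^ 2 := by ring
      linarith
    have k8 := mul_le_mul_of_nonneg_left k2 (mul_nonneg hE hYp.le)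
    calc E * (Y * (p * (p + 1) * (2 * dot v w) ^ 2 / (1 + nsq v) ^ 2 -
        p * (2 * nsq w) / (1 + nsq v)))
        = E * Y * (p * (p + 1) * (2 * dot v w) ^ 2 / (1 + nsq v) ^ 2 -
        p * (2 * nsq w) / (1 + nsq v)) := by ring
      _ ≤ E * Y * (4 * p * (p + 1) / (1 + nsq v) * nsq w) := k8
      _ = 4 * p * (p + 1) * (E * Y) / (1 + nsq v) * nsq w := by ring
  linarith

end Pool.Agent.H93.CM
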