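import Pool.Agent.H93.CM.Alg2
import Pool.Agent.H93.CM.Hess2

/-!
# Module LOpG: the Landau operator at a touching point with `bar B E p`

Follow `landau_op` (H82/LK/LOp.lean; copy the private lemmas `lop_int`, `conv_sum`) with
`M_ij = ∂_i ∂_j g(v)`, `c₁ = (4/B²) B exp(-|v|²/B)`, `c₂ = 4p(p+1) E (1+|v|²)^(-p)/(1+|v|²)` (`hess_bar`).
First part: `∑_ij (a_ij * g)(v) M_ij = ∫ g(v-z) ∑_ij a_ij(z) M_ij dz`, and by `landauA_quad2`
`∑_ij a_ij(z) M_ij ≤ |z|^γ (c₁ (|z|²|v|² - (z·v)²) + d c₂ |z|²)`. With `w = v-z`: `|z|²|v|² - (z·v)² = |w|²|v|² - (w·v)² ≤ |w|²|v|²`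
and `|z|^γ |z|² ≤ 1+|z|² ≤ 2(1+|v|²)(1+|w|²)` (`-2 < γ ≤ 0`; `one_add_sq_sub_le` in Kin/Bound.lean). So the first part is
`≤ c₁ |v|² ∫ g(w)|w|²|v-w|^γ dw + 2 d c₂ (1+|v|²) ∫ g(w)(1+|w|²)dw`.
Integrability of `g(w)|w|²|v-w|^γ`: `len_int` (H82/LK/LFin.lean) is for Nice `g`; prove it in the same way (`g |w|²` is rapidly decaying and
continuous: `RD.mul_PG`).
Second part exactly as in `landau_op`: `-g(v) ∑_ij (a_ij * ∂_ij g)(v) ≤ d² g(v) ∫ g(w)|v-w|^γ dw` (`lim_ibp`). `K = 8 d p (p+1)`.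
-/

set_option autoImplicit false

open MeasureTheory Set Filter Topology Pool.Agent.H25.Kin Pool.Agent.H82.BK

namespace Pool.Agent.H93.CM

variable {d : ℕ}

private lemma lg_int (hd : 2 ≤ d) {γ : ℝ} (h1 : -2 < γ) (h2 : γ ≤ 0) {g : Vec d → ℝ}
    (hgc : Continuous g) (hg : RD g) (v : Vec d) :
    Integrable fun z : Vec d => g z * len (v - z) ^ γ := by
  obtain ⟨K, hK0, hK⟩ := hg.bound (d + 3)
  have i1 := ((int_norm_rpow hd h1 h2).comp_sub_left v).const_mul (K * (1 + ‖v‖) ^ (d + 3))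
  have hm : Measurable fun z : Vec d => g z * len (v - z) ^ γ :=
    hgc.measurable.mul
      ((continuous_len.comp (continuous_const.sub continuous_id)).measurable.pow_const γ)
  refine i1.mono' hm.aestronglyMeasurable (Eventually.of_forall fun z => ?_)
  have hl := Real.rpow_nonneg (len_nonneg (v - z)) γ
  have hnn := Real.rpow_nonneg (norm_nonneg (v - z)) γ
  have hw := w_pos (v - z)
  have hv := w_pos v
  have hz := w_pos z
  have hlr : len (v - z) ^ γ ≤ ‖v - z‖ ^ γ := by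
    by_cases hz : v - z = 0
    · rw [hz, len_zero, norm_zero]
    · exact Real.rpow_le_rpow_of_nonpos (norm_pos_iff.2 hz) (norm_le_len _) h2
  rw [norm_mul, Real.norm_eq_abs (len (v - z) ^ γ), abs_of_nonneg hl]
  have e1 : ((1 + ‖z‖) ^ (d + 3))⁻¹ ≤ (1 + ‖v‖) ^ (d + 3) * ((1 + ‖v - z‖) ^ (d + 3))⁻¹ := by
    have e2 : (1 + ‖v - z‖) ^ (d + 3) ≤ (1 + ‖v‖) ^ (d + 3) * (1 + ‖z‖) ^ (d + 3) := by
      rw [← mul_pow]
      exact pow_le_pow_left₀ hw.le (w_sub_le v z) _
    rw [inv_eq_one_div, div_le_iff₀ (pow_pos hz _), mul_assoc, mul_comm ((1 + ‖v - z‖) ^ (d + 3))⁻¹,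
      ← mul_assoc, ← div_eq_mul_inv, le_div_iff₀ (pow_pos hw _), one_mul]
    exact e2
  calc ‖g z‖ * len (v - z) ^ γ ≤ (K * ((1 + ‖z‖) ^ (d + 3))⁻¹) * ‖v - z‖ ^ γ :=
        mul_le_mul (hK z) hlr hl (mul_nonneg hK0 (inv_nonneg.2 (pow_nonneg hz.le _)))
    _ ≤ (K * ((1 + ‖v‖) ^ (d + 3) * ((1 + ‖v - z‖) ^ (d + 3))⁻¹)) * ‖v - z‖ ^ γ := by
        gcongr
    _ = K * (1 + ‖v‖) ^ (d + 3) * (‖v - z‖ ^ γ * ((1 + ‖v - z‖) ^ (d + 3))⁻¹) := by ring

private lemma lg_len_rpow (γ : ℝ) (z : Vec d) : nsq z ^ (γ / 2) = len z ^ γ := by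
  unfold len
  rw [Real.sqrt_eq_rpow, ← Real.rpow_mul (sq_nonneg' z)]
  congr 1
  ring

private lemma conv_sum {k : Fin d → Fin d → Vec d → ℝ} {f : Vec d → ℝ} (v : Vec d)
    (M : Fin d → Fin d → ℝ) (hk : ∀ i j, Integrable fun z => k i j z • f (v - z)) :
    ∑ i, ∑ j, conv (k i j) f v * M i j = ∫ z, f (v - z) * ∑ i, ∑ j, k i j z * M i j := by
  have e : ∀ z, f (v - z) * ∑ i, ∑ j, k i j z * M i j =
      ∑ i, ∑ j, (k i j z • f (v - z)) * M i j := by
    intro z
    rw [Finset.mul_sum]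
    refine Finset.sum_congr rfl fun i _ => ?_
    rw [Finset.mul_sum]
    refine Finset.sum_congr rfl fun j _ => ?_
    rw [smul_eq_mul]
    ring
  simp_rw [e]
  rw [integral_finsetSum]
  · refine Finset.sum_congr rfl fun i _ => ?_
    rw [integral_finsetSum]
    · refine Finset.sum_congr rfl fun j _ => ?_
      rw [integral_mul_const]
      rfl
    · exact fun j _ => (hk i j).mul_const _
  · exact fun i _ => integrable_finsetSum _ fun j _ => (hk i j).mul_const _

/-- `|z|²|v|² - (z·v)² ≤ |v-z|²|v|²` -/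
private lemma lg_gram (v z : Vec d) :
    nsq z * nsq v - dot z v ^ 2 ≤ nsq (v - z) * nsq v := by
  rw [nsq_sub, dot_comm v z]
  nlinarith [sq_nonneg (nsq v - dot z v)]

theorem landau_bar (hd : 2 ≤ d) {γ : ℝ} (h1 : -2 < γ) (h2 : γ ≤ 0) (p : ℕ) :
    ∃ K : ℝ, 0 ≤ K ∧ ∀ B E : ℝ, 1 ≤ B → 0 ≤ E → ∀ g : Vec d → ℝ, Nice g → (∀ u, 0 ≤ g u) →
      ∀ v : Vec d, (∀ u, g u ≤ bar B E p u) → g v = bar B E p v →
      landauQ γ g v ≤
        4 / B ^ 2 * (B * Real.exp (-(nsq v / B))) * nsq v *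
            (∫ w, g w * nsq w * len (v - w) ^ γ) +
          K * (E * ((1 + nsq v) ^ p)⁻¹) * (∫ w, g w * (1 + nsq w)) +
          (d : ℝ) ^ 2 * g v * ∫ w, g w * len (v - w) ^ γ := by
  refine ⟨8 * d * p * (p + 1), by positivity, fun B E hB hE g hg hg0 v hdom heq => ?_⟩
  have hB0 : 0 < B := by linarith
  have hv0 := sq_nonneg' v
  have hgv := hg0 v
  have hd1 : 1 ≤ d := by omega
  have hv1 : 0 < 1 + nsq v := by linarith
  set M : Fin d → Fin d → ℝ := fun i j => pd i (pd j g) v with hM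
  set c₁ : ℝ := 4 / B ^ 2 * (B * Real.exp (-(nsq v / B))) with hc₁
  set P : ℝ := E * ((1 + nsq v) ^ p)⁻¹ with hP
  set c₂ : ℝ := 4 * p * (p + 1) * P / (1 + nsq v) with hc₂
  have hc₁0 : 0 ≤ c₁ := by rw [hc₁]; positivity
  have hP0 : 0 ≤ P := by rw [hP]; positivity
  have hc₂0 : 0 ≤ c₂ := by rw [hc₂]; positivity
  have hMc : ∀ w : Vec d, ∑ i, ∑ j, w i * w j * M i j ≤ c₁ * dot v w ^ 2 + c₂ * nsq w := fun w =>
    hess_bar hg.smooth hB0 hE hdom heq w
  -- integrability
  have hgn : RD fun z : Vec d => g z * nsq z := hg.rd.mul_PG PG.nsq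
  have hgs : RD fun z : Vec d => g z * (1 + nsq z) :=
    hg.rd.mul_PG ((PG.const (1 : ℝ)).add PG.nsq)
  have hcn : Continuous fun z : Vec d => g z * nsq z := hg.cont.mul continuous_sq
  have hcs : Continuous fun z : Vec d => g z * (1 + nsq z) :=
    hg.cont.mul (continuous_const.add continuous_sq)
  have hint := lg_int hd h1 h2 hg.cont hg.rd v
  have i0 := lg_int hd h1 h2 hcn hgn v
  have i1 : Integrable fun z : Vec d => g z * (1 + nsq z) :=
    hgs.integrable hcs.aestronglyMeasurable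
  have i0' : Integrable fun z : Vec d => g (v - z) * nsq (v - z) * len z ^ γ := by
    have := i0.comp_sub_left v
    simpa only [sub_sub_cancel] using this
  have i1' : Integrable fun z : Vec d => g (v - z) * (1 + nsq (v - z)) := i1.comp_sub_left v
  have hk : ∀ i j, Integrable fun z => landauA γ z i j • g (v - z) := fun i j =>
    (kern_landauA h1 h2 i j).integrable hg.cont hg.rd v
  have hK : d * c₂ * (2 * (1 + nsq v)) = 8 * d * p * (p + 1) * P := by
    rw [hc₂]
    field_simp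
    ring
  -- first part
  have s1 : ∑ i, ∑ j, conv (fun z => landauA γ z i j) g v * M i j ≤
      c₁ * nsq v * (∫ w, g w * nsq w * len (v - w) ^ γ) +
        8 * d * p * (p + 1) * P * ∫ w, g w * (1 + nsq w) := by
    rw [conv_sum (k := fun i j z => landauA γ z i j) v M hk]
    have e0 : ∫ w, g w * nsq w * len (v - w) ^ γ =
        ∫ z, g (v - z) * nsq (v - z) * len z ^ γ := by
      rw [← integral_sub_left_eq_self (fun z : Vec d => g z * nsq z * len (v - z) ^ γ) volume v]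
      simp only [sub_sub_cancel]
    have e1 : ∫ w, g w * (1 + nsq w) = ∫ z, g (v - z) * (1 + nsq (v - z)) :=
      (integral_sub_left_eq_self (fun z : Vec d => g z * (1 + nsq z)) volume v).symm
    rw [e0, e1, ← integral_const_mul, ← integral_const_mul,
      ← integral_add (i0'.const_mul _) (i1'.const_mul _)]
    have i2 : Integrable fun z : Vec d => g (v - z) * ∑ i, ∑ j, landauA γ z i j * M i j := by
      have e : (fun z : Vec d => g (v - z) * ∑ i, ∑ j, landauA γ z i j * M i j) =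
          fun z => ∑ i, ∑ j, (landauA γ z i j • g (v - z)) * M i j := by
        funext z
        rw [Finset.mul_sum]
        refine Finset.sum_congr rfl fun i _ => ?_
        rw [Finset.mul_sum]
        refine Finset.sum_congr rfl fun j _ => ?_
        rw [smul_eq_mul]
        ring
      rw [e]
      exact integrable_finsetSum _ fun i _ => integrable_finsetSum _ fun j _ =>
        (hk i j).mul_const _
    refine integral_mono i2 ((i0'.const_mul _).add (i1'.const_mul _)) fun z => ?_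
    show g (v - z) * ∑ i, ∑ j, landauA γ z i j * M i j ≤
      c₁ * nsq v * (g (v - z) * nsq (v - z) * len z ^ γ) +
        8 * d * p * (p + 1) * P * (g (v - z) * (1 + nsq (v - z)))
    have h3 := landauA_quad2 hc₁0 hc₂0 v hMc γ z
    have h4 := sq_rpow_le h1 h2 z
    have h5 : 1 + nsq z ≤ 2 * ((1 + nsq v) * (1 + nsq (v - z))) := by
      have := one_add_sq_sub_le v (v - z)
      rwa [sub_sub_cancel] at this
    have h6 := lg_gram v z
    have hr : 0 ≤ nsq z ^ (γ / 2) := Real.rpow_nonneg (sq_nonneg' z) _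
    have hgz := hg0 (v - z)
    have h7 : nsq z ^ (γ / 2) * (c₁ * (nsq z * nsq v - dot z v ^ 2) + d * c₂ * nsq z) ≤
        c₁ * nsq v * (nsq (v - z) * len z ^ γ) +
          8 * d * p * (p + 1) * P * (1 + nsq (v - z)) := by
      rw [← lg_len_rpow, ← hK]
      have a1 : nsq z ^ (γ / 2) * (c₁ * (nsq z * nsq v - dot z v ^ 2)) ≤
          nsq z ^ (γ / 2) * (c₁ * (nsq (v - z) * nsq v)) :=
        mul_le_mul_of_nonneg_left (mul_le_mul_of_nonneg_left h6 hc₁0) hr
      have a2 : d * c₂ * (nsq z * nsq z ^ (γ / 2)) ≤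
          d * c₂ * (2 * ((1 + nsq v) * (1 + nsq (v - z)))) :=
        mul_le_mul_of_nonneg_left (h4.trans h5) (by positivity)
      calc nsq z ^ (γ / 2) * (c₁ * (nsq z * nsq v - dot z v ^ 2) + d * c₂ * nsq z)
          = nsq z ^ (γ / 2) * (c₁ * (nsq z * nsq v - dot z v ^ 2)) +
            d * c₂ * (nsq z * nsq z ^ (γ / 2)) := by ring
        _ ≤ nsq z ^ (γ / 2) * (c₁ * (nsq (v - z) * nsq v)) +
            d * c₂ * (2 * ((1 + nsq v) * (1 + nsq (v - z)))) := add_le_add a1 a2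
        _ = _ := by ring
    calc g (v - z) * ∑ i, ∑ j, landauA γ z i j * M i j
        ≤ g (v - z) * (c₁ * nsq v * (nsq (v - z) * len z ^ γ) +
          8 * d * p * (p + 1) * P * (1 + nsq (v - z))) :=
          mul_le_mul_of_nonneg_left (h3.trans h7) hgz
      _ = _ := by ring
  -- second part
  have hint' : Integrable fun z : Vec d => g (v - z) * len z ^ γ := by
    have := hint.comp_sub_left v
    simpa only [sub_sub_cancel] using this
  have s2 : -((d : ℝ) * (d - 1)) * ∫ z, g z * len (v - z) ^ γ ≤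
      ∑ i, ∑ j, conv (fun z => landauA γ z i j) (pd i (pd j g)) v := by
    have h3 := Pool.Agent.H82.LK.lim_ibp hd1 h1 h2 (Pool.Agent.H82.LK.nice_refl hg v)
      (fun z => hg0 _) hint'
    have e1 : ∫ z, g z * len (v - z) ^ γ = ∫ z, g (v - z) * len z ^ γ := by
      rw [← integral_sub_left_eq_self (fun z : Vec d => g z * len (v - z) ^ γ) volume v]
      simp only [sub_sub_cancel]
    rw [e1]
    refine h3.trans (le_of_eq ?_)
    refine Finset.sum_congr rfl fun i _ => Finset.sum_congr rfl fun j _ => ?_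
    unfold conv
    refine integral_congr_ae (Eventually.of_forall fun z => ?_)
    show landauA γ z i j * pd i (pd j fun z => g (v - z)) z =
      landauA γ z i j • pd i (pd j g) (v - z)
    rw [Pool.Agent.H82.LK.pd_pd_refl hg v z i j, smul_eq_mul]
  -- assembly
  have hI2 : 0 ≤ ∫ z, g z * len (v - z) ^ γ :=
    integral_nonneg fun z => mul_nonneg (hg0 z) (Real.rpow_nonneg (Real.sqrt_nonneg _) _)
  have hQ : landauQ γ g v = (∑ i, ∑ j, conv (fun z => landauA γ z i j) g v * M i j) -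
      g v * ∑ i, ∑ j, conv (fun z => landauA γ z i j) (pd i (pd j g)) v := by
    rw [Pool.Agent.H82.LK.landauQ_eq h1 h2 hg v, Finset.mul_sum, ← Finset.sum_sub_distrib]
    refine Finset.sum_congr rfl fun i _ => ?_
    rw [Finset.mul_sum, ← Finset.sum_sub_distrib]
  rw [hQ]
  set I2 := ∫ z, g z * len (v - z) ^ γ with hI2'
  have h7 := mul_le_mul_of_nonneg_left s2 hgv
  have hdd : (0 : ℝ) ≤ d := Nat.cast_nonneg d
  have h8 : 0 ≤ (d : ℝ) * (g v * I2) := by positivity
  have h12 : g v * (-((d : ℝ) * (d - 1)) * I2) =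
      -((d : ℝ) ^ 2 * g v * I2) + d * (g v * I2) := by ring
  rw [h12] at h7
  linarith

end Pool.Agent.H93.CM
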